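import Pool.Agent.R612.SU.Defs

/-!
# Surrounding a prototile many times without tiling the plane: statements of the pieces
-/

open MeasureTheory Set Filter Topology

namespace Pool.Agent.R612.SU

/-- PIECE TH. -/
def StTH : Prop := (∀ s : ℝ, th (-s) = 1 - th s) ∧ ∃ d e : ℝ, Good d e

/-- the density of the cone `x ≤ s1 y` (for `y ≥ 0`), `x ≤ s2 y` (for `y ≤ 0`) -/
noncomputable def cone (s1 s2 : ℝ) : ℝ :=
  (volume ({z : ℂ | (0 ≤ z.im → z.re ≤ s1 * z.im) ∧ (z.im ≤ 0 → z.re ≤ s2 * z.im)} ∩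
    Metric.ball 0 1)).toReal / Real.pi

/-- PIECE SL: density from one-sided slopes. -/
def StSL : Prop :=
  (∀ (w : ℝ → ℝ) (y0 s1 s2 r0 : ℝ) (T : Set ℂ), Continuous w → 0 < r0 →
    T ∩ Metric.ball (⟨w y0, y0⟩ : ℂ) r0 = {z | z.re ≤ w z.im} ∩ Metric.ball (⟨w y0, y0⟩ : ℂ) r0 →
    Tendsto (fun h => (w (y0 + h) - w y0) / h) (𝓝[>] 0) (𝓝 s1) →
    Tendsto (fun h => (w (y0 + h) - w y0) / h) (𝓝[<] 0) (𝓝 s2) →
    HasDens T ⟨w y0, y0⟩ (cone s1 s2)) ∧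
  (∀ s, cone s s = 1 / 2) ∧ (∀ s, cone (-s) s = th s)

/-- the region of the two big prototiles -/
def reg (f : ℤ → ℝ) (m : ℕ) (w : ℝ) : Set ℂ :=
  {z | |z.im| ≤ m + 1 / 2 ∧ |z.re| ≤ w + prof f z.im}

/-- PIECE DG: densities of `reg f m w` (may assume `StSL`). -/
def StDG : Prop := ∀ (f : ℤ → ℝ) (m : ℕ) (w : ℝ), (∀ s, |f s| < w) →
  (∀ (s : ℤ) (p : ℂ), |s| ≤ (m : ℤ) → p.im = s → |p.re| = w + f s →
    HasDens (reg f m w) p (th (4 * f s))) ∧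
  ∀ p ∈ reg f m w, (¬ ∃ s : ℤ, p.im = s ∧ |p.re| = w + f s) →
    HasDens (reg f m w) p 1 ∨ HasDens (reg f m w) p (1 / 2) ∨ HasDens (reg f m w) p (1 / 4)

/-- PIECE DF: densities of `tF` (may assume `StSL`). -/
def StDF : Prop := ∀ d e : ℝ, 0 < d → 0 < e →
  HasDens (tF d e) (-d : ℝ) (th (4 * d)) ∧ HasDens (tF d e) (e : ℝ) (th (4 * e)) ∧
  ∀ p ∈ tF d e, p ≠ (-d : ℝ) → p ≠ (e : ℝ) →
    HasDens (tF d e) p 1 ∨ HasDens (tF d e) p (1 / 2) ∨ HasDens (tF d e) p 0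

/-- PIECE SUM: in a tiling the densities at a point sum up to one; local finiteness. -/
def StSUM : Prop := ∀ (d e : ℝ) (c K : ℕ), 0 < d → 0 < e → ∀ F : Set (Set ℂ),
  (∀ T ∈ F, IsTile (Prot d e c K) T) → DisjInt F → ⋃₀ F = univ →
    (∀ p : ℂ, {T ∈ F | p ∈ T}.Finite ∧ ∀ δ : Set ℂ → ℝ, (∀ T ∈ F, p ∈ T → HasDens T p (δ T)) →
      ∑ᶠ T ∈ {T ∈ F | p ∈ T}, δ T = 1) ∧
    (∃ C : ℝ, ∀ R : ℝ, 0 ≤ R → {T ∈ F | (T ∩ Metric.closedBall 0 R).Nonempty}.Finite ∧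
      ({T ∈ F | (T ∩ Metric.closedBall 0 R).Nonempty}.ncard : ℝ) ≤ C * (R + 1) ^ 2) ∧
    ∃ D : ℝ, 0 < D ∧ ∀ T ∈ F, ∀ x ∈ T, ∀ y ∈ T, dist x y ≤ D

/-- PIECE OV: two copies of `A` whose spikes are in the same side of a copy of `B` overlap. -/
def StOV : Prop := ∀ (d e : ℝ) (c K : ℕ), Good d e → 2 * K ≤ 2 * c →
  ∀ (g g1 g2 : ℂ ≃ᵢ ℂ) (x : ℝ) (s1 s2 : ℤ) (u1 u2 : ℂ), |x| = W d e - d →
    |s1| ≤ (K : ℤ) → |s2| ≤ (K : ℤ) → u1 ∈ aA d e → u2 ∈ aA d e →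
    g1 u1 = g ⟨x, s1⟩ → g2 u2 = g ⟨x, s2⟩ →
    interior (g1 '' tA d e c) ∩ interior (g '' tB d e c K) = ∅ →
    interior (g2 '' tA d e c) ∩ interior (g '' tB d e c K) = ∅ →
    (g1 '' tA d e c = g2 '' tA d e c ∨
      interior (g1 '' tA d e c) ∩ interior (g2 '' tA d e c) = ∅) → s1 = s2

/-- PIECE DK: the prototiles are disks. -/
def StDK : Prop := ∀ (d e : ℝ) (c K : ℕ), 0 < d → 0 < e →
  IsDisk (tA d e c) ∧ IsDisk (tB d e c K) ∧ IsDisk (tF d e)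

/-- PIECE DU: the big region is a disk. -/
def StDU : Prop := ∀ (d e : ℝ) (c K I J : ℕ), 0 < d → 0 < e → 2 * J ≤ K → 2 * K ≤ c →
  IsDisk (UU d e c K I J)

/-- PIECE UN: the union of the patch. -/
def StUN : Prop := ∀ (d e : ℝ) (c K I J : ℕ), 0 < d → 0 < e → 2 * J ≤ K → 2 * K ≤ c →
  ⋃₀ pat d e c K I J = UU d e c K I J

/-- PIECE DI: the tiles of the patch have disjoint interiors. -/
def StDI : Prop := ∀ (d e : ℝ) (c K I J : ℕ), 0 < d → 0 < e → 2 * J ≤ K → 2 * K ≤ c →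
  DisjInt (pat d e c K I J)

/-- PIECE NE: nestedness. -/
def StNE : Prop := (∀ (d e : ℝ) (c K I J : ℕ), 0 < d → 0 < e → J < c →
    UU d e c K I J ⊆ interior (UU d e c K (I + 1) (J + 1))) ∧
  ∀ (d e : ℝ) (c K : ℕ), 0 < d → 0 < e → 1 ≤ K → K ≤ c →
    tr (tA d e c) (2 * W d e * 1) 0 ⊆ interior (UU d e c K 1 1) ∧
    tr (tB d e c K) 0 0 ⊆ interior (UU d e c K 1 1) ∧
    tr (tF d e) (W d e) 1 ⊆ interior (UU d e c K 1 1)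

/-- PIECE IS: patches are preserved by isometries, and `pat` is finite and consists of tiles. -/
def StIS : Prop := (∀ (S F : Set (Set ℂ)) (g : ℂ ≃ᵢ ℂ), IsPatch S F →
    IsPatch S ((fun T => g '' T) '' F)) ∧
  (∀ (F G : Set (Set ℂ)) (g : ℂ ≃ᵢ ℂ), Surrounds G F →
    Surrounds ((fun T => g '' T) '' G) ((fun T => g '' T) '' F)) ∧
  ∀ (d e : ℝ) (c K I J : ℕ), (pat d e c K I J).Finite ∧
    ∀ T ∈ pat d e c K I J, IsTile (Prot d e c K) T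

end Pool.Agent.R612.SU
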