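import Pool.Agent.R612.SU.Stm

/-!
# Counting, part 1: special points, arithmetic
-/

open MeasureTheory Set Filter Topology

namespace Pool.Agent.R612.SU

theorem HasDens.unique {T : Set ℂ} {p : ℂ} {δ δ' : ℝ} (h : HasDens T p δ) (h' : HasDens T p δ') :
    δ = δ' := tendsto_nhds_unique h h'

theorem vol_iso (g : ℂ ≃ᵢ ℂ) (s : Set ℂ) : volume (g '' s) = volume s := by
  have key : ∀ f : ℂ ≃ᵢ ℂ, MeasurePreserving f volume volume := by
    intro f
    have h1 : (f : ℂ → ℂ) = (fun z => z + f 0) ∘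
        (f.toRealLinearIsometryEquiv : ℂ → ℂ) := by
      funext z
      simp
    rw [h1]
    exact (measurePreserving_add_right volume (f 0)).comp
      (f.toRealLinearIsometryEquiv).measurePreserving
  have h2 : g '' s = g.symm ⁻¹' s := by
    ext z
    simp only [mem_image, mem_preimage]
    constructor
    · rintro ⟨x, hx, rfl⟩; simpa using hx
    · intro h; exact ⟨g.symm z, h, by simp⟩
  rw [h2]
  exact (key g.symm).measure_preimage_emb g.symm.toHomeomorph.measurableEmbedding s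

theorem HasDens.image {T : Set ℂ} {p : ℂ} {δ : ℝ} (g : ℂ ≃ᵢ ℂ) (h : HasDens T p δ) :
    HasDens (g '' T) (g p) δ := by
  unfold HasDens at h ⊢
  refine h.congr fun r => ?_
  rw [← g.image_ball, ← image_inter g.injective, vol_iso]

theorem HasDens.image_iff {T : Set ℂ} {p : ℂ} {δ : ℝ} (g : ℂ ≃ᵢ ℂ) :
    HasDens (g '' T) (g p) δ ↔ HasDens T p δ := by
  constructor
  · intro h
    have := h.image g.symm
    rw [← image_comp] at this
    simpa using this
  · exact HasDens.image g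

/-- the points of `T` with density `δ` -/
def X (δ : ℝ) (T : Set ℂ) : Set ℂ := {p | p ∈ T ∧ HasDens T p δ}

theorem X_image (δ : ℝ) (g : ℂ ≃ᵢ ℂ) (T : Set ℂ) : X δ (g '' T) = g '' X δ T := by
  ext p
  simp only [X, mem_ofPred_eq, mem_image]
  constructor
  · rintro ⟨⟨x, hx, rfl⟩, h⟩
    exact ⟨x, ⟨hx, (HasDens.image_iff g).1 h⟩, rfl⟩
  · rintro ⟨x, ⟨hx, h⟩, rfl⟩
    exact ⟨⟨x, hx, rfl⟩, h.image g⟩

theorem arithN (a b c d e f g : ℕ)
    (h : 20 * a + 30 * b + 33 * c + 66 * d + 102 * e + 112 * f + 132 * g = 132) :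
    (1 ≤ b → 1 ≤ e ∧ b ≤ 1) ∧ (1 ≤ a → 1 ≤ f ∧ a ≤ 1) ∧ (1 ≤ f → 1 ≤ a ∧ f ≤ 1) := by
  have hg : g ≤ 1 := by omega
  have hf : f ≤ 1 := by omega
  have he : e ≤ 1 := by omega
  have hd : d ≤ 2 := by omega
  have hc : c ≤ 4 := by omega
  interval_cases g <;> interval_cases f <;> interval_cases e <;> interval_cases d <;>
    interval_cases c <;> omega

/-- The arithmetic of the densities. -/
theorem arith {ι : Type*} [DecidableEq ι] (s : Finset ι) (v : ι → ℕ)
    (hv : ∀ i ∈ s, v i ∈ ({0, 20, 30, 33, 66, 102, 112, 132} : Finset ℕ)) (hs : ∑ i ∈ s, v i = 132) :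
    (∀ i ∈ s, v i = 30 → ∃ j ∈ s, v j = 102) ∧ (∀ i ∈ s, v i = 20 → ∃ j ∈ s, v j = 112) ∧
    (∀ i ∈ s, v i = 112 → ∃ j ∈ s, v j = 20) ∧
    (∀ i ∈ s, ∀ j ∈ s, v i = 30 → v j = 30 → i = j) ∧
    (∀ i ∈ s, ∀ j ∈ s, v i = 20 → v j = 20 → i = j) ∧
    (∀ i ∈ s, ∀ j ∈ s, v i = 112 → v j = 112 → i = j) := by
  have h1 : ∑ i ∈ s, v i = ∑ x ∈ ({0, 20, 30, 33, 66, 102, 112, 132} : Finset ℕ),
      (s.filter fun i => v i = x).card * x := by
    rw [← Finset.sum_fiberwise_of_maps_to hv]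
    refine Finset.sum_congr rfl fun x _ => ?_
    rw [Finset.sum_congr rfl (fun i hi => (Finset.mem_filter.1 hi).2), Finset.sum_const,
      smul_eq_mul]
  rw [hs] at h1
  have pos : ∀ x : ℕ, ∀ i ∈ s, v i = x → 1 ≤ (s.filter fun i => v i = x).card := by
    intro x i hi hx
    exact Finset.card_pos.2 ⟨i, Finset.mem_filter.2 ⟨hi, hx⟩⟩
  have ex : ∀ x : ℕ, 1 ≤ (s.filter fun i => v i = x).card → ∃ j ∈ s, v j = x := by
    intro x hx
    obtain ⟨j, hj⟩ := Finset.card_pos.1 hx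
    exact ⟨j, (Finset.mem_filter.1 hj).1, (Finset.mem_filter.1 hj).2⟩
  have uq : ∀ x : ℕ, (s.filter fun i => v i = x).card ≤ 1 → ∀ i ∈ s, ∀ j ∈ s, v i = x →
      v j = x → i = j := by
    intro x hx i hi j hj h h'
    exact Finset.card_le_one.1 hx i (Finset.mem_filter.2 ⟨hi, h⟩) j (Finset.mem_filter.2 ⟨hj, h'⟩)
  rw [Finset.sum_insert (by decide), Finset.sum_insert (by decide), Finset.sum_insert (by decide),
    Finset.sum_insert (by decide), Finset.sum_insert (by decide), Finset.sum_insert (by decide),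
    Finset.sum_insert (by decide), Finset.sum_singleton] at h1
  obtain ⟨hA, hB, hC⟩ := arithN (s.filter fun i => v i = 20).card
    (s.filter fun i => v i = 30).card (s.filter fun i => v i = 33).card
    (s.filter fun i => v i = 66).card (s.filter fun i => v i = 102).card
    (s.filter fun i => v i = 112).card (s.filter fun i => v i = 132).card (by omega)
  exact ⟨fun i hi h => ex _ (hA (pos _ i hi h)).1, fun i hi h => ex _ (hB (pos _ i hi h)).1,
    fun i hi h => ex _ (hC (pos _ i hi h)).1,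
    fun i hi j hj h h' => uq 30 (hA (pos _ i hi h)).2 i hi j hj h h',
    fun i hi j hj h h' => uq 20 (hB (pos _ i hi h)).2 i hi j hj h h',
    fun i hi j hj h h' => uq 112 (hC (pos _ i hi h)).2 i hi j hj h h'⟩

/-- counting of points -/
theorem count_le {α β : Type*} [DecidableEq α] [DecidableEq β] (S1 S2 : Finset α)
    (X1 X2 : α → Finset β)
    (h1 : ∀ T ∈ S1, ∀ T' ∈ S1, T ≠ T' → Disjoint (X1 T) (X1 T'))
    (h2 : ∀ T ∈ S1, ∀ p ∈ X1 T, ∃ T' ∈ S2, p ∈ X2 T') :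
    ∑ T ∈ S1, (X1 T).card ≤ ∑ T ∈ S2, (X2 T).card := by
  rw [← Finset.card_biUnion h1]
  refine (Finset.card_le_card ?_).trans Finset.card_biUnion_le
  intro p hp
  obtain ⟨T, hT, hpT⟩ := Finset.mem_biUnion.1 hp
  obtain ⟨T', hT', hp'⟩ := h2 T hT p hpT
  exact Finset.mem_biUnion.2 ⟨T', hT', hp'⟩

/-- number of points on two vertical lines -/
theorem ncard_pts (w : ℝ) (hw : 0 < w) (S : Finset ℤ) :
    ({z : ℂ | |z.re| = w ∧ ∃ s ∈ S, z.im = s} : Set ℂ).ncard = 2 * S.card := by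
  classical
  have h : ({z : ℂ | |z.re| = w ∧ ∃ s ∈ S, z.im = s} : Set ℂ) =
      ((({w, -w} : Finset ℝ) ×ˢ S).image fun x : ℝ × ℤ => (⟨x.1, x.2⟩ : ℂ) : Finset ℂ) := by
    ext z
    simp only [mem_ofPred_eq, Finset.coe_image, mem_image, Finset.coe_product, mem_prod,
      Finset.mem_coe, Finset.mem_insert, Finset.mem_singleton, Prod.exists]
    constructor
    · rintro ⟨h1, s, hs, h2⟩
      refine ⟨z.re, s, ⟨?_, hs⟩, ?_⟩
      · exact (abs_eq hw.le).1 h1
      · rw [← h2]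
    · rintro ⟨a, s, ⟨h1, hs⟩, rfl⟩
      exact ⟨(abs_eq hw.le).2 h1, s, hs, rfl⟩
  rw [h, Set.ncard_coe_finset, Finset.card_image_of_injective, Finset.card_product,
    Finset.card_pair (by intro h; linarith)]
  rintro ⟨a, s⟩ ⟨b, t⟩ h
  simp only [Complex.mk.injEq, Int.cast_inj] at h
  rw [h.1, h.2]

end Pool.Agent.R612.SU
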