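import Pool.Agent.R612.SU.Cnt1

/-!
# Counting, part 2: the special points of the prototiles, the local rules
-/

open MeasureTheory Set Filter Topology

namespace Pool.Agent.R612.SU

theorem prof_int (f : ℤ → ℝ) (s : ℤ) : prof f s = f s := by
  simp [prof, q]

theorem abs_fa {d e : ℝ} (hd : 0 < d) (he : 0 < e) (s : ℤ) : |fa d e s| < W d e := by
  unfold fa W
  split_ifs
  · rw [abs_of_pos hd]; linarith
  · rw [abs_neg, abs_of_pos he]; linarith

theorem abs_fb {d e : ℝ} (hd : 0 < d) (he : 0 < e) (K : ℕ) (s : ℤ) : |fb d e K s| < W d e := by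
  unfold fb W
  split_ifs
  · rw [abs_neg, abs_of_pos hd]; linarith
  · rw [abs_of_pos he]; linarith

theorem tB_eq (d e : ℝ) (c K : ℕ) : tB d e c K = reg (fb d e K) (c + 1) (W d e) := by
  unfold tB reg
  ext z
  simp only [mem_ofPred_eq]
  push_cast
  rw [show (c : ℝ) + 1 + 1 / 2 = c + 3 / 2 by ring]

/-- the possible densities -/
def Vals : Finset ℕ := {0, 20, 30, 33, 66, 102, 112, 132}

section

variable {d e : ℝ} {c K : ℕ}

theorem densA (hTH : StTH) (hDG : StDG) (hg : Good d e) :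
    (∀ p ∈ aA d e, HasDens (tA d e c) p (5 / 33)) ∧
    (∀ p ∈ cA d e c, HasDens (tA d e c) p (17 / 22)) ∧
    ∀ p ∈ tA d e c, p ∉ aA d e → p ∉ cA d e c →
      HasDens (tA d e c) p 1 ∨ HasDens (tA d e c) p (1 / 2) ∨ HasDens (tA d e c) p (1 / 4) := by
  obtain ⟨h1, h2⟩ := hDG (fa d e) c (W d e) (abs_fa hg.hd hg.he)
  refine ⟨?_, ?_, ?_⟩
  · rintro p ⟨hp1, hp2⟩
    have := h1 0 p (by simp) (by simpa using hp2) (by simpa [fa] using hp1)
    simp only [fa, if_true, hg.ha] at this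
    exact this
  · rintro p ⟨hp1, s, hs0, hsc, hp2⟩
    have := h1 s p hsc hp2 (by rw [fa, if_neg hs0, hp1]; ring)
    rw [fa, if_neg hs0, show 4 * -e = -(4 * e) by ring, hTH.1, hg.hc] at this
    norm_num at this
    exact this
  · intro p hp ha hc
    refine h2 p hp ?_
    rintro ⟨s, hs, hp2⟩
    by_cases hs0 : s = 0
    · subst hs0
      exact ha ⟨by simpa [fa] using hp2, by simpa using hs⟩
    · refine hc ⟨by rw [fa, if_neg hs0] at hp2; rw [hp2]; ring, s, hs0, ?_, hs⟩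
      have h3 : |p.im| ≤ c + 1 / 2 := hp.1
      rw [hs, ← Int.cast_abs] at h3
      by_contra hcon
      have h4 : (c : ℤ) + 1 ≤ |s| := by omega
      have h5 : (c : ℝ) + 1 ≤ ((|s| : ℤ) : ℝ) := by exact_mod_cast h4
      linarith

theorem densB (hTH : StTH) (hDG : StDG) (hg : Good d e) (hK : K ≤ c) :
    (∀ p ∈ aB d e K, HasDens (tB d e c K) p (28 / 33)) ∧
    (∀ p ∈ cB d e c K, HasDens (tB d e c K) p (5 / 22)) ∧
    ∀ p ∈ tB d e c K, p ∉ aB d e K → p ∉ cB d e c K →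
      HasDens (tB d e c K) p 1 ∨ HasDens (tB d e c K) p (1 / 2) ∨
        HasDens (tB d e c K) p (1 / 4) := by
  obtain ⟨h1, h2⟩ := hDG (fb d e K) (c + 1) (W d e) (abs_fb hg.hd hg.he K)
  rw [← tB_eq] at h1 h2
  refine ⟨?_, ?_, ?_⟩
  · rintro p ⟨hp1, s, hs, hp2⟩
    have := h1 s p (by push_cast; omega) hp2 (by rw [fb, if_pos hs, hp1]; ring)
    rw [fb, if_pos hs, show 4 * -d = -(4 * d) by ring, hTH.1, hg.ha] at this
    norm_num at this
    exact this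
  · rintro p ⟨hp1, s, hs1, hs2, hp2⟩
    have := h1 s p (by push_cast; omega) hp2 (by rw [fb, if_neg (by omega), hp1])
    rw [fb, if_neg (by omega), hg.hc] at this
    exact this
  · intro p hp ha hc
    refine h2 p hp ?_
    rintro ⟨s, hs, hp2⟩
    by_cases hs0 : |s| ≤ (K : ℤ)
    · refine ha ⟨?_, s, hs0, hs⟩
      rw [fb, if_pos hs0] at hp2
      rw [hp2]; ring
    · refine hc ⟨?_, s, by omega, ?_, hs⟩
      · rw [fb, if_neg hs0] at hp2
        exact hp2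
      · have h3 : |p.im| ≤ c + 3 / 2 := hp.1
        rw [hs, ← Int.cast_abs] at h3
        by_contra hcon
        have h4 : (c : ℤ) + 2 ≤ |s| := by omega
        have h5 : (c : ℝ) + 2 ≤ ((|s| : ℤ) : ℝ) := by exact_mod_cast h4
        linarith

theorem densF (hDF : StDF) (hg : Good d e) :
    HasDens (tF d e) (-d : ℝ) (5 / 33) ∧ HasDens (tF d e) (e : ℝ) (5 / 22) ∧
    ∀ p ∈ tF d e, p ≠ (-d : ℝ) → p ≠ (e : ℝ) →
      HasDens (tF d e) p 1 ∨ HasDens (tF d e) p (1 / 2) ∨ HasDens (tF d e) p 0 := by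
  obtain ⟨h1, h2, h3⟩ := hDF d e hg.hd hg.he
  rw [hg.ha] at h1
  rw [hg.hc] at h2
  exact ⟨h1, h2, h3⟩

theorem aA_sub (hg : Good d e) : aA d e ⊆ tA d e c := by
  rintro p ⟨h1, h2⟩
  refine ⟨?_, ?_⟩
  · rw [h2, abs_zero]; positivity
  · have := prof_int (fa d e) 0
    rw [h1, h2]
    simp only [Int.cast_zero] at this
    rw [this, fa, if_pos rfl]

theorem cA_sub : cA d e c ⊆ tA d e c := by
  rintro p ⟨h1, s, h0, hs, h2⟩
  refine ⟨?_, ?_⟩
  · rw [h2, ← Int.cast_abs]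
    have : ((|s| : ℤ) : ℝ) ≤ c := by exact_mod_cast hs
    linarith
  · rw [h1, h2, prof_int, fa, if_neg h0]
    linarith

theorem aB_sub (hK : K ≤ c) : aB d e K ⊆ tB d e c K := by
  rintro p ⟨h1, s, hs, h2⟩
  refine ⟨?_, ?_⟩
  · rw [h2, ← Int.cast_abs]
    have : ((|s| : ℤ) : ℝ) ≤ K := by exact_mod_cast hs
    have hK' : (K : ℝ) ≤ c := by exact_mod_cast hK
    linarith
  · rw [h1, h2, prof_int, fb, if_pos hs]
    linarith

theorem cB_sub : cB d e c K ⊆ tB d e c K := by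
  rintro p ⟨h1, s, hs1, hs2, h2⟩
  refine ⟨?_, ?_⟩
  · rw [h2, ← Int.cast_abs]
    have : ((|s| : ℤ) : ℝ) ≤ c + 1 := by exact_mod_cast hs2
    linarith
  · rw [h1, h2, prof_int, fb, if_neg (by omega)]

/-- description of the set `X` when all densities are known -/
theorem X_eq {T : Set ℂ} {S : Set ℂ} {δ : ℝ} (hS : S ⊆ T) (h1 : ∀ p ∈ S, HasDens T p δ)
    (h2 : ∀ p ∈ T, p ∉ S → ∃ δ', HasDens T p δ' ∧ δ' ≠ δ) : X δ T = S := by
  ext p
  constructor
  · rintro ⟨hp, h⟩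
    by_contra hcon
    obtain ⟨δ', h', hne⟩ := h2 p hp hcon
    exact hne (h'.unique h)
  · intro hp
    exact ⟨hS hp, h1 p hp⟩

theorem XA (hTH : StTH) (hDG : StDG) (hg : Good d e) :
    X (5 / 33) (tA d e c) = aA d e ∧ X (28 / 33) (tA d e c) = ∅ ∧ X (5 / 22) (tA d e c) = ∅ ∧
      X (17 / 22) (tA d e c) = cA d e c := by
  obtain ⟨h1, h2, h3⟩ := densA (c := c) hTH hDG hg
  refine ⟨X_eq (aA_sub hg) h1 ?_, X_eq (empty_subset _) (fun p hp => hp.elim) ?_,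
    X_eq (empty_subset _) (fun p hp => hp.elim) ?_, X_eq cA_sub h2 ?_⟩
  · intro p hp ha
    by_cases hc : p ∈ cA d e c
    · exact ⟨_, h2 p hc, by norm_num⟩
    · rcases h3 p hp ha hc with h | h | h <;> exact ⟨_, h, by norm_num⟩
  · intro p hp _
    by_cases ha : p ∈ aA d e
    · exact ⟨_, h1 p ha, by norm_num⟩
    by_cases hc : p ∈ cA d e c
    · exact ⟨_, h2 p hc, by norm_num⟩
    · rcases h3 p hp ha hc with h | h | h <;> exact ⟨_, h, by norm_num⟩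
  · intro p hp _
    by_cases ha : p ∈ aA d e
    · exact ⟨_, h1 p ha, by norm_num⟩
    by_cases hc : p ∈ cA d e c
    · exact ⟨_, h2 p hc, by norm_num⟩
    · rcases h3 p hp ha hc with h | h | h <;> exact ⟨_, h, by norm_num⟩
  · intro p hp hc
    by_cases ha : p ∈ aA d e
    · exact ⟨_, h1 p ha, by norm_num⟩
    · rcases h3 p hp ha hc with h | h | h <;> exact ⟨_, h, by norm_num⟩

theorem XB (hTH : StTH) (hDG : StDG) (hg : Good d e) (hK : K ≤ c) :
    X (5 / 33) (tB d e c K) = ∅ ∧ X (28 / 33) (tB d e c K) = aB d e K ∧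
      X (5 / 22) (tB d e c K) = cB d e c K ∧ X (17 / 22) (tB d e c K) = ∅ := by
  obtain ⟨h1, h2, h3⟩ := densB (c := c) hTH hDG hg hK
  refine ⟨X_eq (empty_subset _) (fun p hp => hp.elim) ?_, X_eq (aB_sub hK) h1 ?_,
    X_eq cB_sub h2 ?_, X_eq (empty_subset _) (fun p hp => hp.elim) ?_⟩
  · intro p hp _
    by_cases ha : p ∈ aB d e K
    · exact ⟨_, h1 p ha, by norm_num⟩
    by_cases hc : p ∈ cB d e c K
    · exact ⟨_, h2 p hc, by norm_num⟩
    · rcases h3 p hp ha hc with h | h | h <;> exact ⟨_, h, by norm_num⟩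
  · intro p hp ha
    by_cases hc : p ∈ cB d e c K
    · exact ⟨_, h2 p hc, by norm_num⟩
    · rcases h3 p hp ha hc with h | h | h <;> exact ⟨_, h, by norm_num⟩
  · intro p hp hc
    by_cases ha : p ∈ aB d e K
    · exact ⟨_, h1 p ha, by norm_num⟩
    · rcases h3 p hp ha hc with h | h | h <;> exact ⟨_, h, by norm_num⟩
  · intro p hp _
    by_cases ha : p ∈ aB d e K
    · exact ⟨_, h1 p ha, by norm_num⟩
    by_cases hc : p ∈ cB d e c K
    · exact ⟨_, h2 p hc, by norm_num⟩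
    · rcases h3 p hp ha hc with h | h | h <;> exact ⟨_, h, by norm_num⟩

theorem XF (hDF : StDF) (hg : Good d e) :
    X (5 / 33) (tF d e) = {((-d : ℝ) : ℂ)} ∧ X (28 / 33) (tF d e) = ∅ ∧
      X (5 / 22) (tF d e) = {((e : ℝ) : ℂ)} ∧ X (17 / 22) (tF d e) = ∅ := by
  obtain ⟨h1, h2, h3⟩ := densF hDF hg
  have hd := hg.hd
  have he := hg.he
  have hq : q 0 = 1 := by simp [q]
  have m1 : ((-d : ℝ) : ℂ) ∈ tF d e := by
    refine ⟨?_, ?_, ?_⟩
    · rw [Complex.ofReal_im, abs_zero]; norm_num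
    · rw [Complex.ofReal_im, Complex.ofReal_re, hq]; linarith
    · rw [Complex.ofReal_im, Complex.ofReal_re, hq]; linarith
  have m2 : ((e : ℝ) : ℂ) ∈ tF d e := by
    refine ⟨?_, ?_, ?_⟩
    · rw [Complex.ofReal_im, abs_zero]; norm_num
    · rw [Complex.ofReal_im, Complex.ofReal_re, hq]; linarith
    · rw [Complex.ofReal_im, Complex.ofReal_re, hq]; linarith
  refine ⟨X_eq (by simpa using m1) (by intro p hp; rw [mem_singleton_iff.1 hp]; exact h1) ?_,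
    X_eq (empty_subset _) (fun p hp => hp.elim) ?_,
    X_eq (by simpa using m2) (by intro p hp; rw [mem_singleton_iff.1 hp]; exact h2) ?_,
    X_eq (empty_subset _) (fun p hp => hp.elim) ?_⟩
  · intro p hp ha
    by_cases hc : p = (e : ℝ)
    · exact ⟨_, hc ▸ h2, by norm_num⟩
    · rcases h3 p hp ha hc with h | h | h <;> exact ⟨_, h, by norm_num⟩
  · intro p hp _
    by_cases ha : p = (-d : ℝ)
    · exact ⟨_, ha ▸ h1, by norm_num⟩
    by_cases hc : p = (e : ℝ)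
    · exact ⟨_, hc ▸ h2, by norm_num⟩
    · rcases h3 p hp ha hc with h | h | h <;> exact ⟨_, h, by norm_num⟩
  · intro p hp hc
    by_cases ha : p = (-d : ℝ)
    · exact ⟨_, ha ▸ h1, by norm_num⟩
    · rcases h3 p hp ha hc with h | h | h <;> exact ⟨_, h, by norm_num⟩
  · intro p hp _
    by_cases ha : p = (-d : ℝ)
    · exact ⟨_, ha ▸ h1, by norm_num⟩
    by_cases hc : p = (e : ℝ)
    · exact ⟨_, hc ▸ h2, by norm_num⟩
    · rcases h3 p hp ha hc with h | h | h <;> exact ⟨_, h, by norm_num⟩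

theorem vals_of {T : Set ℂ} {p : ℂ} (h : HasDens T p 1 ∨ HasDens T p (1 / 2) ∨
    HasDens T p (1 / 4) ∨ HasDens T p 0 ∨ HasDens T p (5 / 33) ∨ HasDens T p (5 / 22) ∨
    HasDens T p (28 / 33) ∨ HasDens T p (17 / 22)) :
    ∃ v ∈ Vals, HasDens T p ((v : ℝ) / 132) := by
  rcases h with h | h | h | h | h | h | h | h
  · exact ⟨132, by decide, by convert h using 1; norm_num⟩
  · exact ⟨66, by decide, by convert h using 1; norm_num⟩
  · exact ⟨33, by decide, by convert h using 1; norm_num⟩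
  · exact ⟨0, by decide, by convert h using 1; norm_num⟩
  · exact ⟨20, by decide, by convert h using 1; norm_num⟩
  · exact ⟨30, by decide, by convert h using 1; norm_num⟩
  · exact ⟨112, by decide, by convert h using 1; norm_num⟩
  · exact ⟨102, by decide, by convert h using 1; norm_num⟩

theorem vals_tile (hTH : StTH) (hDG : StDG) (hDF : StDF) (hg : Good d e) (hK : K ≤ c)
    {T : Set ℂ} (hT : IsTile (Prot d e c K) T) {p : ℂ} (hp : p ∈ T) :
    ∃ v ∈ Vals, HasDens T p ((v : ℝ) / 132) := by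
  obtain ⟨P, hP, g, rfl⟩ := hT
  obtain ⟨x, hx, rfl⟩ := hp
  simp only [HasDens.image_iff]
  apply vals_of
  rcases hP with rfl | rfl | rfl
  · obtain ⟨h1, h2, h3⟩ := densA (c := c) hTH hDG hg
    by_cases ha : x ∈ aA d e
    · have := h1 x ha; tauto
    by_cases hc : x ∈ cA d e c
    · have := h2 x hc; tauto
    · have := h3 x hx ha hc; tauto
  · obtain ⟨h1, h2, h3⟩ := densB (c := c) hTH hDG hg hK
    by_cases ha : x ∈ aB d e K
    · have := h1 x ha; tauto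
    by_cases hc : x ∈ cB d e c K
    · have := h2 x hc; tauto
    · have := h3 x hx ha hc; tauto
  · obtain ⟨h1, h2, h3⟩ := densF hDF hg
    by_cases ha : x = (-d : ℝ)
    · have : HasDens (tF d e) x (5 / 33) := ha ▸ h1
      tauto
    by_cases hc : x = (e : ℝ)
    · have : HasDens (tF d e) x (5 / 22) := hc ▸ h2
      tauto
    · have := h3 x hx ha hc; tauto

/-- The local rules in a tiling. -/
theorem rules (hTH : StTH) (hDG : StDG) (hDF : StDF) (hSUM : StSUM) (hg : Good d e) (hK : K ≤ c)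
    {F : Set (Set ℂ)} (hF1 : ∀ T ∈ F, IsTile (Prot d e c K) T) (hF2 : DisjInt F)
    (hF3 : ⋃₀ F = univ) (p : ℂ) :
    (∀ T ∈ F, p ∈ X (5 / 22) T → ∃ T' ∈ F, p ∈ X (17 / 22) T') ∧
    (∀ T ∈ F, p ∈ X (5 / 33) T → ∃ T' ∈ F, p ∈ X (28 / 33) T') ∧
    (∀ T ∈ F, p ∈ X (28 / 33) T → ∃ T' ∈ F, p ∈ X (5 / 33) T') ∧
    (∀ T ∈ F, ∀ T' ∈ F, p ∈ X (5 / 22) T → p ∈ X (5 / 22) T' → T = T') ∧
    (∀ T ∈ F, ∀ T' ∈ F, p ∈ X (5 / 33) T → p ∈ X (5 / 33) T' → T = T') ∧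
    (∀ T ∈ F, ∀ T' ∈ F, p ∈ X (28 / 33) T → p ∈ X (28 / 33) T' → T = T') := by
  classical
  obtain ⟨hfin, hsum⟩ := (hSUM d e c K hg.hd hg.he F hF1 hF2 hF3).1 p
  have hex : ∀ T : Set ℂ, ∃ v : ℕ, T ∈ F → p ∈ T → v ∈ Vals ∧ HasDens T p ((v : ℝ) / 132) := by
    intro T
    by_cases h : T ∈ F ∧ p ∈ T
    · obtain ⟨v, hv, h'⟩ := vals_tile hTH hDG hDF hg hK (hF1 T h.1) h.2
      exact ⟨v, fun _ _ => ⟨hv, h'⟩⟩
    · exact ⟨0, fun h1 h2 => (h ⟨h1, h2⟩).elim⟩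
  choose v hv using hex
  have h1 := hsum (fun T => (v T : ℝ) / 132) (fun T hT hp => (hv T hT hp).2)
  rw [finsum_mem_eq_finite_toFinset_sum _ hfin] at h1
  have h2 : ∑ T ∈ hfin.toFinset, v T = 132 := by
    rw [← Finset.sum_div] at h1
    have : (∑ T ∈ hfin.toFinset, (v T : ℝ)) = 132 := by linarith
    exact_mod_cast this
  have hmem : ∀ T, T ∈ hfin.toFinset ↔ T ∈ F ∧ p ∈ T := fun T => by
    rw [Set.Finite.mem_toFinset]; rfl
  obtain ⟨a1, a2, a3, a4, a5, a6⟩ := arith hfin.toFinset v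
    (fun T hT => (hv T ((hmem T).1 hT).1 ((hmem T).1 hT).2).1) h2
  have conv : ∀ (T : Set ℂ) (n : ℕ) (δ : ℝ), T ∈ F → δ = (n : ℝ) / 132 →
      (p ∈ X δ T ↔ p ∈ T ∧ v T = n) := by
    intro T n δ hT hδ
    constructor
    · rintro ⟨hp, h⟩
      refine ⟨hp, ?_⟩
      have := (hv T hT hp).2.unique h
      rw [hδ] at this
      have h3 : (v T : ℝ) = n := by linarith
      exact_mod_cast h3
    · rintro ⟨hp, h⟩
      refine ⟨hp, ?_⟩
      have := (hv T hT hp).2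
      rw [h] at this
      rw [hδ]; exact this
  have e1 : (5 / 22 : ℝ) = ((30 : ℕ) : ℝ) / 132 := by norm_num
  have e2 : (17 / 22 : ℝ) = ((102 : ℕ) : ℝ) / 132 := by norm_num
  have e3 : (5 / 33 : ℝ) = ((20 : ℕ) : ℝ) / 132 := by norm_num
  have e4 : (28 / 33 : ℝ) = ((112 : ℕ) : ℝ) / 132 := by norm_num
  refine ⟨?_, ?_, ?_, ?_, ?_, ?_⟩
  · intro T hT h
    obtain ⟨hp, h⟩ := (conv T 30 _ hT e1).1 h
    obtain ⟨T', hT', h'⟩ := a1 T ((hmem T).2 ⟨hT, hp⟩) h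
    obtain ⟨b1, b2⟩ := (hmem T').1 hT'
    exact ⟨T', b1, (conv T' 102 _ b1 e2).2 ⟨b2, h'⟩⟩
  · intro T hT h
    obtain ⟨hp, h⟩ := (conv T 20 _ hT e3).1 h
    obtain ⟨T', hT', h'⟩ := a2 T ((hmem T).2 ⟨hT, hp⟩) h
    obtain ⟨b1, b2⟩ := (hmem T').1 hT'
    exact ⟨T', b1, (conv T' 112 _ b1 e4).2 ⟨b2, h'⟩⟩
  · intro T hT h
    obtain ⟨hp, h⟩ := (conv T 112 _ hT e4).1 h
    obtain ⟨T', hT', h'⟩ := a3 T ((hmem T).2 ⟨hT, hp⟩) h
    obtain ⟨b1, b2⟩ := (hmem T').1 hT'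
    exact ⟨T', b1, (conv T' 20 _ b1 e3).2 ⟨b2, h'⟩⟩
  · intro T hT T' hT' h h'
    obtain ⟨hp, h⟩ := (conv T 30 _ hT e1).1 h
    obtain ⟨hp', h'⟩ := (conv T' 30 _ hT' e1).1 h'
    exact a4 T ((hmem T).2 ⟨hT, hp⟩) T' ((hmem T').2 ⟨hT', hp'⟩) h h'
  · intro T hT T' hT' h h'
    obtain ⟨hp, h⟩ := (conv T 20 _ hT e3).1 h
    obtain ⟨hp', h'⟩ := (conv T' 20 _ hT' e3).1 h'
    exact a5 T ((hmem T).2 ⟨hT, hp⟩) T' ((hmem T').2 ⟨hT', hp'⟩) h h'
  · intro T hT T' hT' h h'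
    obtain ⟨hp, h⟩ := (conv T 112 _ hT e4).1 h
    obtain ⟨hp', h'⟩ := (conv T' 112 _ hT' e4).1 h'
    exact a6 T ((hmem T).2 ⟨hT, hp⟩) T' ((hmem T').2 ⟨hT', hp'⟩) h h'

end

end Pool.Agent.R612.SU
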