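import Pool.Agent.R612.SU.Cnt2

/-!
# Counting, part 3: the global counting
-/

open MeasureTheory Set Filter Topology

namespace Pool.Agent.R612.SU

open Classical in
/-- the set `X δ T` as a finset -/
noncomputable def xf (δ : ℝ) (T : Set ℂ) : Finset ℂ :=
  if h : (X δ T).Finite then h.toFinset else ∅

theorem card_xf (δ : ℝ) (T : Set ℂ) : (xf δ T).card = (X δ T).ncard := by
  unfold xf
  split_ifs with h
  · exact (Set.ncard_eq_toFinset_card _ h).symm
  · rw [Set.Infinite.ncard h, Finset.card_empty]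

theorem mem_xf {δ : ℝ} {T : Set ℂ} {p : ℂ} (h : p ∈ xf δ T) : p ∈ X δ T := by
  unfold xf at h
  split_ifs at h with hf
  · simpa using h
  · simp at h

theorem xf_mem {δ : ℝ} {T : Set ℂ} (hf : (X δ T).Finite) {p : ℂ} (h : p ∈ X δ T) : p ∈ xf δ T := by
  unfold xf
  rw [dif_pos hf]
  simpa using h

/-- indicator of the type, given by the number of spikes -/
noncomputable def ind (n : ℕ) (T : Set ℂ) : ℕ := if (X (5 / 33) T).ncard = n then 1 else 0

section

variable {d e : ℝ} {c K : ℕ}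

theorem ncard_aA (hg : Good d e) : (aA d e).ncard = 2 := by
  have := ncard_pts (W d e + d) (by unfold W; linarith [hg.hd, hg.he]) {0}
  simpa [aA] using this

theorem ncard_cA (hg : Good d e) : (cA d e c).ncard = 4 * c := by
  have h := ncard_pts (W d e - e) (by unfold W; linarith [hg.hd, hg.he])
    ((Finset.Icc (-(c : ℤ)) c).erase 0)
  have hc : ((Finset.Icc (-(c : ℤ)) c).erase 0).card = 2 * c := by
    rw [Finset.card_erase_of_mem (by simp), Int.card_Icc]
    omega
  rw [hc] at h
  have he : cA d e c = {z : ℂ | |z.re| = W d e - e ∧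
      ∃ s ∈ (Finset.Icc (-(c : ℤ)) c).erase 0, z.im = s} := by
    ext z
    simp only [cA, mem_ofPred_eq, Finset.mem_erase, Finset.mem_Icc, ← abs_le, and_assoc]
  rw [he, h]
  ring

theorem ncard_aB (hg : Good d e) : (aB d e K).ncard = 2 * (2 * K + 1) := by
  have h := ncard_pts (W d e - d) (by unfold W; linarith [hg.hd, hg.he])
    (Finset.Icc (-(K : ℤ)) K)
  have hc : (Finset.Icc (-(K : ℤ)) K).card = 2 * K + 1 := by
    rw [Int.card_Icc]
    omega
  rw [hc] at h
  have he : aB d e K = {z : ℂ | |z.re| = W d e - d ∧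
      ∃ s ∈ Finset.Icc (-(K : ℤ)) K, z.im = s} := by
    ext z
    simp only [aB, mem_ofPred_eq, Finset.mem_Icc, ← abs_le]
  rw [he, h]

theorem ncard_cB (hg : Good d e) (hK : K ≤ c) : (cB d e c K).ncard = 4 * (c + 1 - K) := by
  have h := ncard_pts (W d e + e) (by unfold W; linarith [hg.hd, hg.he])
    (Finset.Icc (-((c : ℤ) + 1)) (c + 1) \ Finset.Icc (-(K : ℤ)) K)
  have hc : (Finset.Icc (-((c : ℤ) + 1)) (c + 1) \ Finset.Icc (-(K : ℤ)) K).card =
      2 * (c + 1 - K) := by
    rw [Finset.card_sdiff_of_subset (Finset.Icc_subset_Icc (by omega) (by omega)), Int.card_Icc,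
      Int.card_Icc]
    omega
  rw [hc] at h
  have he : cB d e c K = {z : ℂ | |z.re| = W d e + e ∧
      ∃ s ∈ Finset.Icc (-((c : ℤ) + 1)) (c + 1) \ Finset.Icc (-(K : ℤ)) K, z.im = s} := by
    ext z
    simp only [cB, mem_ofPred_eq, Finset.mem_sdiff, Finset.mem_Icc, ← abs_le]
    constructor
    · rintro ⟨h1, s, h2, h3, h4⟩
      exact ⟨h1, s, ⟨h3, by omega⟩, h4⟩
    · rintro ⟨h1, s, ⟨h2, h3⟩, h4⟩
      exact ⟨h1, s, by omega, h2, h4⟩
  rw [he, h]
  ring

theorem X_im_card (δ : ℝ) (g : ℂ ≃ᵢ ℂ) (T : Set ℂ) : (X δ (g '' T)).ncard = (X δ T).ncard := by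
  rw [X_image, Set.ncard_image_of_injective _ g.injective]

/-- the numbers of special points of the tiles -/
theorem tile_numbers (hTH : StTH) (hDG : StDG) (hDF : StDF) (hg : Good d e) (hK : K ≤ c)
    {T : Set ℂ} (hT : IsTile (Prot d e c K) T) :
    (X (5 / 33) T).ncard = 2 * ind 2 T + ind 1 T ∧
    (X (28 / 33) T).ncard = 2 * (2 * K + 1) * ind 0 T ∧
    (X (5 / 22) T).ncard = 4 * (c + 1 - K) * ind 0 T + ind 1 T ∧
    (X (17 / 22) T).ncard = 4 * c * ind 2 T ∧
    ((X (5 / 33) T).ncard = 2 → ∃ g : ℂ ≃ᵢ ℂ, T = g '' tA d e c) ∧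
    ((X (5 / 33) T).ncard = 0 → ∃ g : ℂ ≃ᵢ ℂ, T = g '' tB d e c K) ∧
    ind 0 T + ind 1 T + ind 2 T = 1 ∧
    (X (5 / 33) T).Finite ∧ (X (28 / 33) T).Finite ∧ (X (5 / 22) T).Finite ∧
    (X (17 / 22) T).Finite := by
  obtain ⟨P, hP, g, rfl⟩ := hT
  simp only [ind, X_im_card]
  simp only [X_image]
  have fin : ∀ {S : Set ℂ} {n : ℕ}, S.ncard = n → n ≠ 0 → S.Finite := by
    intro S n h hn
    exact Set.finite_of_ncard_ne_zero (by rw [h]; exact hn)
  rcases hP with rfl | rfl | rfl
  · obtain ⟨h1, h2, h3, h4⟩ := XA (c := c) hTH hDG hg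
    have hf4 : (cA d e c).Finite := by
      rcases Nat.eq_zero_or_pos c with h | h
      · have : cA d e c = ∅ := by
          subst h
          ext z
          simp only [cA, mem_ofPred_eq, mem_empty_iff_false, iff_false]
          rintro ⟨_, s, h0, h1, _⟩
          exact h0 (abs_nonpos_iff.1 (by simpa using h1))
        rw [this]; exact Set.finite_empty
      · exact fin (ncard_cA hg) (by omega)
    rw [h1, h2, h3, h4, ncard_aA hg, ncard_cA hg, Set.ncard_empty]
    refine ⟨by norm_num, by norm_num, by norm_num, by norm_num, fun _ => ⟨g, rfl⟩,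
      fun h => by omega, by norm_num, (fin (ncard_aA hg) (by norm_num)).image _,
      Set.finite_empty.image _, Set.finite_empty.image _, hf4.image _⟩
  · obtain ⟨h1, h2, h3, h4⟩ := XB (c := c) hTH hDG hg hK
    rw [h1, h2, h3, h4, ncard_aB hg, ncard_cB hg hK, Set.ncard_empty]
    refine ⟨by norm_num, by norm_num, by norm_num, by norm_num, fun h => by omega,
      fun _ => ⟨g, rfl⟩, by norm_num, Set.finite_empty.image _,
      (fin (ncard_aB hg) (by omega)).image _, (fin (ncard_cB hg hK) (by omega)).image _,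
      Set.finite_empty.image _⟩
  · obtain ⟨h1, h2, h3, h4⟩ := XF (d := d) (e := e) hDF hg
    rw [h1, h2, h3, h4, Set.ncard_empty, Set.ncard_singleton, Set.ncard_singleton]
    refine ⟨by norm_num, by norm_num, by norm_num, by norm_num, fun h => by omega,
      fun h => by omega, by norm_num, (Set.finite_singleton _).image _,
      Set.finite_empty.image _, (Set.finite_singleton _).image _, Set.finite_empty.image _⟩

end

end Pool.Agent.R612.SU
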