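import Pool.Agent.R612.SU.Cnt3

/-!
# Counting, part 4: the inequalities
-/

open MeasureTheory Set Filter Topology

namespace Pool.Agent.R612.SU

/-- the tiles meeting a big disk -/
def near (F : Set (Set ℂ)) (R : ℝ) : Set (Set ℂ) := {T ∈ F | (T ∩ Metric.closedBall 0 R).Nonempty}

open Classical in
/-- the tiles meeting a big disk, as a finset -/
noncomputable def nf (F : Set (Set ℂ)) (R : ℝ) : Finset (Set ℂ) :=
  if h : (near F R).Finite then h.toFinset else ∅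

theorem mem_nf {F : Set (Set ℂ)} {R : ℝ} (h : (near F R).Finite) (T : Set ℂ) :
    T ∈ nf F R ↔ T ∈ F ∧ (T ∩ Metric.closedBall 0 R).Nonempty := by
  unfold nf
  rw [dif_pos h, Set.Finite.mem_toFinset]
  rfl

theorem card_nf {F : Set (Set ℂ)} {R : ℝ} : (nf F R).card = (near F R).ncard := by
  unfold nf
  split_ifs with h
  · exact (Set.ncard_eq_toFinset_card _ h).symm
  · rw [Set.Infinite.ncard h, Finset.card_empty]

/-- number of tiles of a type -/
noncomputable def num (n : ℕ) (F : Set (Set ℂ)) (R : ℝ) : ℕ := ∑ T ∈ nf F R, ind n T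

theorem near_mono {F : Set (Set ℂ)} {R D : ℝ} (hD : ∀ T ∈ F, ∀ x ∈ T, ∀ y ∈ T, dist x y ≤ D)
    {T T' : Set ℂ} (hT : T ∈ F) (hR : (T ∩ Metric.closedBall 0 R).Nonempty) {p : ℂ} (hp : p ∈ T)
    (hp' : p ∈ T') : (T' ∩ Metric.closedBall 0 (R + D)).Nonempty := by
  obtain ⟨x, hx, hxR⟩ := hR
  refine ⟨p, hp', ?_⟩
  rw [Metric.mem_closedBall] at hxR ⊢
  have h1 := hD T hT p hp x hx
  have h2 := dist_triangle p x 0
  linarith

theorem step {F : Set (Set ℂ)} {R D δ1 δ2 : ℝ}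
    (hD : ∀ T ∈ F, ∀ x ∈ T, ∀ y ∈ T, dist x y ≤ D)
    (hf1 : (near F R).Finite) (hf2 : (near F (R + D)).Finite)
    (h1 : ∀ p, ∀ T ∈ F, ∀ T' ∈ F, p ∈ X δ1 T → p ∈ X δ1 T' → T = T')
    (h2 : ∀ p, ∀ T ∈ F, p ∈ X δ1 T → ∃ T' ∈ F, p ∈ X δ2 T')
    (hX : ∀ T ∈ F, (X δ2 T).Finite) :
    ∑ T ∈ nf F R, (X δ1 T).ncard ≤ ∑ T ∈ nf F (R + D), (X δ2 T).ncard := by
  classical
  simp only [← card_xf]
  refine count_le _ _ _ _ ?_ ?_
  · intro T hT T' hT' hne
    rw [Finset.disjoint_left]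
    intro p hp hp'
    exact hne (h1 p T ((mem_nf hf1 T).1 hT).1 T' ((mem_nf hf1 T').1 hT').1 (mem_xf hp) (mem_xf hp'))
  · intro T hT p hp
    obtain ⟨hTF, hTR⟩ := (mem_nf hf1 T).1 hT
    obtain ⟨T', hT', hp'⟩ := h2 p T hTF (mem_xf hp)
    exact ⟨T', (mem_nf hf2 T').2 ⟨hT', near_mono hD hTF hTR (mem_xf hp).1 hp'.1⟩,
      xf_mem (hX T' hT') hp'⟩

section

variable {d e : ℝ} {c K : ℕ}

/-- every copy of `B` carries at most two spikes of copies of `A` -/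
theorem spikes_le (hTH : StTH) (hDG : StDG) (hDF : StDF) (hOV : StOV) (hg : Good d e) (hK : K ≤ c)
    {F : Set (Set ℂ)} (hF1 : ∀ T ∈ F, IsTile (Prot d e c K) T) (hF2 : DisjInt F)
    {T' : Set ℂ} (hT' : T' ∈ F) (Y : Finset ℂ)
    (hY : ∀ p ∈ Y, p ∈ X (28 / 33) T' ∧ ∃ T ∈ F, (X (5 / 33) T).ncard = 2 ∧ p ∈ X (5 / 33) T) :
    Y.card ≤ 2 * ind 0 T' := by
  classical
  obtain ⟨-, hn, -, -, -, hB, hsum, -, hfin, -, -⟩ := tile_numbers hTH hDG hDF hg hK (hF1 T' hT')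
  by_cases h0 : (X (5 / 33) T').ncard = 0
  · obtain ⟨g, rfl⟩ := hB h0
    have hi : ind 0 (g '' tB d e c K) = 1 := by rw [ind, if_pos h0]
    rw [hi, mul_one]
    have hXB : X (28 / 33) (g '' tB d e c K) = g '' aB d e K := by
      rw [X_image, (XB hTH hDG hg hK).2.1]
    have key : ∀ p ∈ Y, ∃ (x : ℝ) (s : ℤ), |x| = W d e - d ∧ |s| ≤ (K : ℤ) ∧ p = g ⟨x, s⟩ ∧
        ∃ (g1 : ℂ ≃ᵢ ℂ) (u1 : ℂ), u1 ∈ aA d e ∧ g1 u1 = p ∧ g1 '' tA d e c ∈ F ∧
          interior (g1 '' tA d e c) ∩ interior (g '' tB d e c K) = ∅ := by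
      intro p hp
      obtain ⟨hp1, T, hT, hT2, hpT⟩ := hY p hp
      rw [hXB] at hp1
      obtain ⟨z, ⟨hz1, s, hs, hz2⟩, rfl⟩ := hp1
      obtain ⟨-, -, -, -, hA, -⟩ := tile_numbers hTH hDG hDF hg hK (hF1 T hT)
      obtain ⟨g1, rfl⟩ := hA hT2
      have hXA : X (5 / 33) (g1 '' tA d e c) = g1 '' aA d e := by
        rw [X_image, (XA hTH hDG hg).1]
      rw [hXA] at hpT
      obtain ⟨u1, hu1, hgu⟩ := hpT
      refine ⟨z.re, s, hz1, hs, ?_, g1, u1, hu1, hgu, hT, hF2 _ hT _ hT' ?_⟩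
      · rw [← hz2]
      · intro h
        rw [← h] at h0
        omega
    have hmap : ∀ p ∈ Y, (g.symm p).re ∈ ({W d e - d, -(W d e - d)} : Finset ℝ) := by
      intro p hp
      obtain ⟨x, s, hx, -, rfl, -⟩ := key p hp
      simp only [IsometryEquiv.symm_apply_apply, Finset.mem_insert, Finset.mem_singleton]
      have : 0 ≤ W d e - d := by unfold W; linarith [hg.hd, hg.he]
      exact (abs_eq this).1 hx
    refine (Finset.card_le_card_of_injOn (fun p => (g.symm p).re) hmap ?_).trans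
      (Finset.card_le_two)
    intro p hp p' hp' hpp
    obtain ⟨x, s, hx, hs, hpe, g1, u1, hu1, hgu1, hG1, hI1⟩ := key p hp
    obtain ⟨x', s', hx', hs', hpe', g2, u2, hu2, hgu2, hG2, hI2⟩ := key p' hp'
    have hxx : x = x' := by
      simp only [hpe, hpe', IsometryEquiv.symm_apply_apply] at hpp
      exact hpp
    subst hxx
    have := hOV d e c K hg (by omega) g g1 g2 x s s' u1 u2 hx hs hs' hu1 hu2
      (by rw [hgu1, hpe]) (by rw [hgu2, hpe']) hI1 hI2 (by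
        by_cases hE : g1 '' tA d e c = g2 '' tA d e c
        · exact Or.inl hE
        · exact Or.inr (hF2 _ hG1 _ hG2 hE))
    rw [hpe, hpe', this]
  · have hi : ind 0 T' = 0 := by rw [ind, if_neg h0]
    rw [hi] at hn ⊢
    have hX0 : X (28 / 33) T' = ∅ := by
      rw [mul_zero] at hn
      exact (Set.ncard_eq_zero hfin).1 hn
    rw [mul_zero, Nat.le_zero, Finset.card_eq_zero, Finset.eq_empty_iff_forall_notMem]
    intro p hp
    have := (hY p hp).1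
    rw [hX0] at this
    exact this

/-- all the inequalities -/
theorem ineqs (hTH : StTH) (hDG : StDG) (hDF : StDF) (hSUM : StSUM) (hOV : StOV)
    (hg : Good d e) (hK : K ≤ c)
    {F : Set (Set ℂ)} (hF1 : ∀ T ∈ F, IsTile (Prot d e c K) T) (hF2 : DisjInt F)
    (hF3 : ⋃₀ F = univ) {D : ℝ} (hD : ∀ T ∈ F, ∀ x ∈ T, ∀ y ∈ T, dist x y ≤ D) (hD0 : 0 < D)
    (hfin : ∀ R : ℝ, 0 ≤ R → (near F R).Finite) {R : ℝ} (hR : 0 ≤ R) :
    4 * (c + 1 - K) * num 0 F R + num 1 F R ≤ 4 * c * num 2 F (R + D) ∧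
    2 * (2 * K + 1) * num 0 F R ≤ 2 * num 2 F (R + D) + num 1 F (R + D) ∧
    2 * num 2 F R + num 1 F R ≤ 2 * (2 * K + 1) * num 0 F (R + D) ∧
    2 * num 2 F R ≤ 2 * num 0 F (R + D) := by
  classical
  have hf1 := hfin R hR
  have hf2 := hfin (R + D) (by linarith)
  have hrules := fun p => rules hTH hDG hDF hSUM hg hK hF1 hF2 hF3 p
  have hnum := fun T (hT : T ∈ F) => tile_numbers hTH hDG hDF hg hK (hF1 T hT)
  have S1 := step (δ1 := 5 / 22) (δ2 := 17 / 22) hD hf1 hf2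
    (fun p => (hrules p).2.2.2.1) (fun p => (hrules p).1)
    (fun T hT => (hnum T hT).2.2.2.2.2.2.2.2.2.2)
  have S2 := step (δ1 := 28 / 33) (δ2 := 5 / 33) hD hf1 hf2
    (fun p => (hrules p).2.2.2.2.2) (fun p => (hrules p).2.2.1)
    (fun T hT => (hnum T hT).2.2.2.2.2.2.2.1)
  have S3 := step (δ1 := 5 / 33) (δ2 := 28 / 33) hD hf1 hf2
    (fun p => (hrules p).2.2.2.2.1) (fun p => (hrules p).2.1)
    (fun T hT => (hnum T hT).2.2.2.2.2.2.2.2.1)
  have E1 : ∀ R, (near F R).Finite → ∑ T ∈ nf F R, (X (5 / 33) T).ncard =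
      2 * num 2 F R + num 1 F R := by
    intro R hf
    rw [Finset.sum_congr rfl (fun T hT => (hnum T ((mem_nf hf T).1 hT).1).1),
      Finset.sum_add_distrib, ← Finset.mul_sum]
    rfl
  have E2 : ∀ R, (near F R).Finite → ∑ T ∈ nf F R, (X (28 / 33) T).ncard =
      2 * (2 * K + 1) * num 0 F R := by
    intro R hf
    rw [Finset.sum_congr rfl (fun T hT => (hnum T ((mem_nf hf T).1 hT).1).2.1),
      ← Finset.mul_sum]
    rfl
  have E3 : ∀ R, (near F R).Finite → ∑ T ∈ nf F R, (X (5 / 22) T).ncard =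
      4 * (c + 1 - K) * num 0 F R + num 1 F R := by
    intro R hf
    rw [Finset.sum_congr rfl (fun T hT => (hnum T ((mem_nf hf T).1 hT).1).2.2.1),
      Finset.sum_add_distrib, ← Finset.mul_sum]
    rfl
  have E4 : ∀ R, (near F R).Finite → ∑ T ∈ nf F R, (X (17 / 22) T).ncard =
      4 * c * num 2 F R := by
    intro R hf
    rw [Finset.sum_congr rfl (fun T hT => (hnum T ((mem_nf hf T).1 hT).1).2.2.2.1),
      ← Finset.mul_sum]
    rfl
  rw [E3 R hf1, E4 _ hf2] at S1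
  rw [E2 R hf1, E1 _ hf2] at S2
  rw [E1 R hf1, E2 _ hf2] at S3
  refine ⟨S1, S2, S3, ?_⟩
  -- spikes of copies of `A`
  have hcount := count_le ((nf F R).filter fun T => (X (5 / 33) T).ncard = 2) (nf F (R + D))
    (fun T => xf (5 / 33) T)
    (fun T' => (xf (28 / 33) T').filter fun p =>
      ∃ T ∈ F, (X (5 / 33) T).ncard = 2 ∧ p ∈ X (5 / 33) T) (by
      intro T hT T' hT' hne
      rw [Finset.disjoint_left]
      intro p hp hp'
      exact hne ((hrules p).2.2.2.2.1 T ((mem_nf hf1 T).1 (Finset.mem_filter.1 hT).1).1 T'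
        ((mem_nf hf1 T').1 (Finset.mem_filter.1 hT').1).1 (mem_xf hp) (mem_xf hp'))) (by
      intro T hT p hp
      obtain ⟨hT1, hT2⟩ := Finset.mem_filter.1 hT
      obtain ⟨hTF, hTR⟩ := (mem_nf hf1 T).1 hT1
      obtain ⟨T', hT', hp'⟩ := (hrules p).2.1 T hTF (mem_xf hp)
      exact ⟨T', (mem_nf hf2 T').2 ⟨hT', near_mono hD hTF hTR (mem_xf hp).1 hp'.1⟩,
        Finset.mem_filter.2 ⟨xf_mem (hnum T' hT').2.2.2.2.2.2.2.2.1 hp', T, hTF, hT2, mem_xf hp⟩⟩)
  have hL : ∑ T ∈ (nf F R).filter (fun T => (X (5 / 33) T).ncard = 2), (xf (5 / 33) T).card =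
      2 * num 2 F R := by
    unfold num
    rw [Finset.sum_filter, Finset.mul_sum]
    refine Finset.sum_congr rfl fun T _ => ?_
    unfold ind
    split_ifs with h
    · rw [card_xf, h, mul_one]
    · rw [mul_zero]
  have hRR : ∑ T' ∈ nf F (R + D), ((xf (28 / 33) T').filter fun p =>
      ∃ T ∈ F, (X (5 / 33) T).ncard = 2 ∧ p ∈ X (5 / 33) T).card ≤ 2 * num 0 F (R + D) := by
    unfold num
    rw [Finset.mul_sum]
    refine Finset.sum_le_sum fun T' hT' => ?_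
    refine spikes_le hTH hDG hDF hOV hg hK hF1 hF2 ((mem_nf hf2 T').1 hT').1 _ ?_
    intro p hp
    obtain ⟨h1, h2⟩ := Finset.mem_filter.1 hp
    exact ⟨mem_xf h1, h2⟩
  rw [hL] at hcount
  exact hcount.trans hRR

/-- exponential growth contradicts a quadratic bound -/
theorem growth_false (Φ : ℝ → ℝ) (ε C M D R0 : ℝ) (hε : 0 < ε) (hM : 0 ≤ M) (hD0 : 0 < D)
    (hR0 : 0 ≤ R0) (hΦ0 : 1 ≤ Φ R0) (grow : ∀ R : ℝ, 0 ≤ R → (1 + ε) * Φ R ≤ Φ (R + D))
    (hCn : ∀ R : ℝ, 0 ≤ R → Φ R ≤ M * (C * (R + 1) ^ 2)) : False := by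
  have hexp : ∀ n : ℕ, (1 + ε) ^ n ≤ Φ (R0 + n * D) := by
    intro n
    induction n with
    | zero => simpa using hΦ0
    | succ n ih =>
      have h1 := grow (R0 + n * D) (by positivity)
      have h2 : R0 + n * D + D = R0 + ((n + 1 : ℕ) : ℝ) * D := by
        push_cast; ring
      rw [h2] at h1
      refine le_trans ?_ h1
      rw [pow_succ, mul_comm]
      exact mul_le_mul_of_nonneg_left ih (by positivity)
  have hlim : Tendsto (fun n : ℕ => (n : ℝ) ^ 2 / (1 + ε) ^ n) atTop (𝓝 0) :=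
    tendsto_pow_const_div_const_pow_of_one_lt 2 (by linarith)
  obtain ⟨A, hA⟩ : ∃ A : ℝ, A = M * (|C| * (R0 + D + 1) ^ 2) := ⟨_, rfl⟩
  have hA0 : 0 ≤ A := by rw [hA]; positivity
  have hbound : ∀ n : ℕ, 1 ≤ n → (1 + ε) ^ n ≤ A * (n : ℝ) ^ 2 := by
    intro n hn
    refine (hexp n).trans ((hCn _ (by positivity)).trans ?_)
    rw [hA]
    have hn1 : (1 : ℝ) ≤ n := by exact_mod_cast hn
    have h1 : R0 + n * D + 1 ≤ (R0 + D + 1) * n := by nlinarith
    have h2 : (R0 + n * D + 1) ^ 2 ≤ ((R0 + D + 1) * n) ^ 2 :=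
      pow_le_pow_left₀ (by positivity) h1 2
    have h3 : C * (R0 + n * D + 1) ^ 2 ≤ |C| * ((R0 + D + 1) * n) ^ 2 :=
      mul_le_mul (le_abs_self C) h2 (by positivity) (abs_nonneg C)
    calc M * (C * (R0 + n * D + 1) ^ 2)
        ≤ M * (|C| * ((R0 + D + 1) * n) ^ 2) := mul_le_mul_of_nonneg_left h3 hM
      _ = _ := by ring
  have hA1 : ∀ᶠ n : ℕ in atTop, (n : ℝ) ^ 2 / (1 + ε) ^ n < 1 / (A + 1) :=
    hlim.eventually_lt_const (by positivity)
  obtain ⟨n, hn, hn1⟩ := (hA1.and (eventually_ge_atTop 1)).exists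
  have hpw : 0 < (1 + ε) ^ n := by positivity
  rw [div_lt_div_iff₀ hpw (by positivity)] at hn
  have := hbound n hn1
  have hn0 : (0 : ℝ) ≤ (n : ℝ) ^ 2 := by positivity
  nlinarith

/-- The set of prototiles admits no tiling. -/
theorem not_tiles (hTH : StTH) (hDG : StDG) (hDF : StDF) (hSUM : StSUM) (hOV : StOV)
    (hg : Good d e) (hK : K ≤ c) : ¬ Tiles (Prot d e c K) := by
  rintro ⟨F, -, hF1, hF2, hF3⟩
  obtain ⟨-, ⟨C, hC⟩, D, hD0, hD⟩ := hSUM d e c K hg.hd hg.he F hF1 hF2 hF3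
  have hfin : ∀ R : ℝ, 0 ≤ R → (near F R).Finite := fun R hR => (hC R hR).1
  have hI := fun (R : ℝ) (hR : 0 ≤ R) =>
    ineqs hTH hDG hDF hSUM hOV hg hK hF1 hF2 hF3 hD hD0 hfin hR
  have hnum := fun T (hT : T ∈ F) => tile_numbers hTH hDG hDF hg hK (hF1 T hT)
  have mono : ∀ n, ∀ R R' : ℝ, 0 ≤ R → R ≤ R' → num n F R ≤ num n F R' := by
    intro n R R' hR hRR
    refine Finset.sum_le_sum_of_subset fun T hT => ?_
    obtain ⟨h1, x, h2, h3⟩ := (mem_nf (hfin R hR) T).1 hT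
    exact (mem_nf (hfin R' (hR.trans hRR)) T).2
      ⟨h1, x, h2, Metric.closedBall_subset_closedBall hRR h3⟩
  -- the weight
  set Φ : ℝ → ℝ := fun R => (4 * c + 2) * num 0 F R + num 1 F R with hΦ
  set κ : ℝ := 4 * c + 2 + 2 * (2 * K + 1) with hκ
  have hκ0 : 0 < κ := by rw [hκ]; positivity
  have grow : ∀ R : ℝ, 0 ≤ R → (1 + 4 / κ) * Φ R ≤ Φ (R + 3 * D) := by
    intro R hR
    have hR1 : 0 ≤ R + D := by linarith
    obtain ⟨a1, a2, -, -⟩ := hI (R + D) hR1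
    obtain ⟨-, -, -, a4⟩ := hI (R + D + D) (by linarith)
    obtain ⟨-, -, b3, -⟩ := hI R hR
    have m0 := mono 0 R (R + D) hR (by linarith)
    have m1 := mono 1 R (R + D) hR (by linarith)
    have m2 := mono 1 (R + D + D) (R + D + D + D) (by linarith) (by linarith)
    have hcast : ((c + 1 - K : ℕ) : ℝ) = c + 1 - K := by
      rw [Nat.cast_sub (by omega)]; push_cast; ring
    have a1' : 4 * ((c : ℝ) + 1 - K) * num 0 F (R + D) + num 1 F (R + D) ≤
        4 * c * num 2 F (R + D + D) := by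
      rw [← hcast]; exact_mod_cast a1
    have a2' : 2 * (2 * (K : ℝ) + 1) * num 0 F (R + D) ≤
        2 * num 2 F (R + D + D) + num 1 F (R + D + D) := by exact_mod_cast a2
    have a4' : 2 * (num 2 F (R + D + D) : ℝ) ≤ 2 * num 0 F (R + D + D + D) := by exact_mod_cast a4
    have b3' : 2 * (num 2 F R : ℝ) + num 1 F R ≤ 2 * (2 * K + 1) * num 0 F (R + D) := by
      exact_mod_cast b3
    have m0' : (num 0 F R : ℝ) ≤ num 0 F (R + D) := by exact_mod_cast m0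
    have m1' : (num 1 F R : ℝ) ≤ num 1 F (R + D) := by exact_mod_cast m1
    have m2' : (num 1 F (R + D + D) : ℝ) ≤ num 1 F (R + D + D + D) := by exact_mod_cast m2
    have h2 : (0 : ℝ) ≤ num 2 F R := Nat.cast_nonneg _
    have e1 : R + 3 * D = R + D + D + D := by ring
    have hc0 : (0 : ℝ) ≤ c := Nat.cast_nonneg _
    -- Φ(R) ≤ κ N_B(R + D)
    have k1 : Φ R ≤ κ * num 0 F (R + D) := by
      rw [hΦ, hκ]
      simp only
      nlinarith
    have k2 : Φ R ≤ Φ (R + D) := by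
      rw [hΦ]
      simp only
      nlinarith
    have k3 : Φ (R + D) + 4 * num 0 F (R + D) ≤ Φ (R + 3 * D) := by
      rw [e1, hΦ]
      simp only
      nlinarith
    have k4 : 4 / κ * Φ R ≤ 4 * num 0 F (R + D) := by
      rw [div_mul_eq_mul_div, div_le_iff₀ hκ0]
      nlinarith
    nlinarith
  -- the quadratic bound
  have hCn : ∀ R : ℝ, 0 ≤ R → Φ R ≤ (4 * c + 2) * (C * (R + 1) ^ 2) := by
    intro R hR
    have h1 : num 0 F R + num 1 F R ≤ (near F R).ncard := by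
      rw [← card_nf, Finset.card_eq_sum_ones]
      unfold num
      rw [← Finset.sum_add_distrib]
      refine Finset.sum_le_sum fun T hT => ?_
      have := (hnum T ((mem_nf (hfin R hR) T).1 hT).1).2.2.2.2.2.2.1
      omega
    have h2 : (num 0 F R : ℝ) + num 1 F R ≤ C * (R + 1) ^ 2 := by
      refine le_trans ?_ (hC R hR).2
      exact_mod_cast h1
    have h3 : (0 : ℝ) ≤ num 1 F R := Nat.cast_nonneg _
    have hc0 : (0 : ℝ) ≤ c := Nat.cast_nonneg _
    rw [hΦ]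
    simp only
    nlinarith
  -- positivity
  have hpos : ∃ R0 : ℝ, 0 ≤ R0 ∧ 1 ≤ Φ R0 := by
    have h0 : (0 : ℂ) ∈ ⋃₀ F := by rw [hF3]; trivial
    obtain ⟨T, hT, h0T⟩ := h0
    have hT0 : T ∈ nf F 0 := (mem_nf (hfin 0 le_rfl) T).2
      ⟨hT, 0, h0T, Metric.mem_closedBall_self le_rfl⟩
    have hone := (hnum T hT).2.2.2.2.2.2.1
    have hle : ∀ n, ind n T ≤ num n F 0 := fun n =>
      Finset.single_le_sum (f := ind n) (fun _ _ => Nat.zero_le _) hT0
    have l0 := hle 0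
    have l1 := hle 1
    have l2 := hle 2
    obtain ⟨-, -, -, a4⟩ := hI 0 le_rfl
    have m0 := mono 0 0 (0 + D) le_rfl (by linarith)
    have m1 := mono 1 0 (0 + D) le_rfl (by linarith)
    refine ⟨0 + D, by linarith, ?_⟩
    have : 1 ≤ (4 * c + 2) * num 0 F (0 + D) + num 1 F (0 + D) := by
      have : 1 ≤ num 0 F (0 + D) + num 1 F (0 + D) := by omega
      nlinarith
    rw [hΦ]
    simp only
    exact_mod_cast this
  obtain ⟨R0, hR0, hΦ0⟩ := hpos
  exact growth_false Φ (4 / κ) C (4 * c + 2) (3 * D) R0 (by positivity) (by positivity)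
    (by positivity) hR0 hΦ0 grow hCn

end

end Pool.Agent.R612.SU
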