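import Pool.Agent.R612.SU.Stm

/-!
# PIECE DF: densities of the small tile
-/

open MeasureTheory Set Filter Topology

namespace Pool.Agent.R612.SU

namespace DF

theorem q_nonneg (t : ℝ) : 0 ≤ q t := by
  unfold q
  positivity

theorem q_cont : Continuous q := by
  unfold q
  fun_prop

theorem q_pos {t : ℝ} (h : |t| < 1 / 2) : 0 < q t := by
  unfold q
  have : 0 < max 0 (1 - 2 * |t|) := lt_max_of_lt_right (by linarith)
  positivity

theorem q_half {t : ℝ} (h : |t| = 1 / 2) : q t = 0 := by
  unfold q
  rw [h]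
  norm_num

/-- the mirror map `z ↦ -conj z` -/
noncomputable def mir : ℂ ≃ₗᵢ[ℝ] ℂ := Complex.conjLIE.trans (LinearIsometryEquiv.neg ℝ)

theorem mir_re (z : ℂ) : (mir z).re = -z.re := by
  unfold mir
  simp

theorem mir_im (z : ℂ) : (mir z).im = z.im := by
  unfold mir
  simp

theorem dens_mir (T : Set ℂ) (p : ℂ) (δ : ℝ) (h : HasDens T (mir p) δ) :
    HasDens (mir ⁻¹' T) p δ := by
  unfold HasDens at h ⊢
  refine h.congr (fun r => ?_)
  congr 2
  have h1 : mir ⁻¹' T ∩ Metric.ball p r = mir ⁻¹' (T ∩ Metric.ball (mir p) r) := by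
    rw [preimage_inter, LinearIsometryEquiv.preimage_ball, LinearIsometryEquiv.symm_apply_apply]
  rw [h1]
  have hmp : MeasurePreserving mir volume volume := mir.measurePreserving
  exact (hmp.measure_preimage_emb mir.toHomeomorph.measurableEmbedding _).symm

theorem mir_tF (d e : ℝ) : mir ⁻¹' (tF e d) = tF d e := by
  ext z
  unfold tF
  rw [mem_preimage, mem_ofPred_eq, mem_ofPred_eq, mir_re, mir_im]
  constructor
  · rintro ⟨h1, h2, h3⟩
    exact ⟨h1, by linarith, by linarith⟩
  · rintro ⟨h1, h2, h3⟩
    exact ⟨h1, by linarith, by linarith⟩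

theorem vol_ball (p : ℂ) (r : ℝ) (hr : 0 < r) :
    (volume (Metric.ball p r)).toReal = Real.pi * r ^ 2 := by
  rw [Complex.volume_ball]
  simp only [ENNReal.toReal_mul, ENNReal.toReal_pow, ENNReal.toReal_ofReal hr.le]
  rw [mul_comm]
  rfl

theorem dens_one (T : Set ℂ) (p : ℂ) (r0 : ℝ) (hr0 : 0 < r0) (h : Metric.ball p r0 ⊆ T) :
    HasDens T p 1 := by
  unfold HasDens
  refine Tendsto.congr' ?_ tendsto_const_nhds
  filter_upwards [Ioo_mem_nhdsGT hr0] with r hr
  have h1 : T ∩ Metric.ball p r = Metric.ball p r := by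
    rw [inter_eq_right]
    exact (Metric.ball_subset_ball hr.2.le).trans h
  rw [h1, vol_ball p r hr.1, div_self]
  have := Real.pi_pos
  have := hr.1
  positivity

/-- volume of a rectangle -/
theorem vol_rect (a b c d : ℝ) :
    volume {z : ℂ | z.re ∈ Icc a b ∧ z.im ∈ Icc c d} = ENNReal.ofReal (b - a) * ENNReal.ofReal (d - c) := by
  have h1 : {z : ℂ | z.re ∈ Icc a b ∧ z.im ∈ Icc c d} =
      Complex.measurableEquivRealProd ⁻¹' (Icc a b ×ˢ Icc c d) := by
    ext z
    rfl
  rw [h1, Complex.volume_preserving_equiv_real_prod.measure_preimage_equiv,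
    Measure.volume_eq_prod, Measure.prod_prod, Real.volume_Icc, Real.volume_Icc]

theorem dens_zero (d e : ℝ) (hd : 0 < d) (he : 0 < e) (p : ℂ) (hp : |p.im| = 1 / 2) :
    HasDens (tF d e) p 0 := by
  unfold HasDens
  have hlim : Tendsto (fun r : ℝ => 16 * (d + e) / Real.pi * r) (𝓝[>] 0) (𝓝 0) := by
    have h1 : Tendsto (fun r : ℝ => 16 * (d + e) / Real.pi * r) (𝓝 0) (𝓝 (16 * (d + e) / Real.pi * 0)) :=
      tendsto_const_nhds.mul tendsto_id
    rw [mul_zero] at h1
    exact h1.mono_left nhdsWithin_le_nhds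
  refine squeeze_zero' ?_ ?_ hlim
  · exact Eventually.of_forall (fun r => by positivity)
  · filter_upwards [self_mem_nhdsWithin] with r hr
    have hr0 : 0 < r := hr
    have hpi := Real.pi_pos
    have hsub : tF d e ∩ Metric.ball p r ⊆
        {z : ℂ | z.re ∈ Icc (-(4 * (d + e) * r ^ 2)) (4 * (d + e) * r ^ 2) ∧
          z.im ∈ Icc (p.im - r) (p.im + r)} := by
      rintro z ⟨⟨h1, h2, h3⟩, h4⟩
      rw [Metric.mem_ball, Complex.dist_eq] at h4
      have h5 : |z.im - p.im| < r := by
        have := Complex.abs_im_le_norm (z - p)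
        rw [Complex.sub_im] at this
        linarith
      have h6 : 1 - 2 * |z.im| ≤ 2 * r := by
        have := abs_sub_abs_le_abs_sub p.im z.im
        rw [abs_sub_comm p.im z.im] at this
        linarith
      have h7 : q z.im ≤ 4 * r ^ 2 := by
        unfold q
        have h8 : max 0 (1 - 2 * |z.im|) ≤ 2 * r := max_le (by linarith) h6
        have h9 : 0 ≤ max 0 (1 - 2 * |z.im|) := le_max_left _ _
        nlinarith
      have h10 := q_nonneg z.im
      rw [abs_lt] at h5
      refine ⟨⟨?_, ?_⟩, ⟨by linarith [h5.1], by linarith [h5.2]⟩⟩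
      · have : d * q z.im ≤ 4 * (d + e) * r ^ 2 := by
          have := mul_le_mul_of_nonneg_left h7 hd.le
          nlinarith [mul_pos he (pow_pos hr0 2)]
        linarith
      · have : e * q z.im ≤ 4 * (d + e) * r ^ 2 := by
          have := mul_le_mul_of_nonneg_left h7 he.le
          nlinarith [mul_pos hd (pow_pos hr0 2)]
        linarith
    have hvol := measure_mono (μ := volume) hsub
    rw [vol_rect] at hvol
    have hfin : ENNReal.ofReal (4 * (d + e) * r ^ 2 - -(4 * (d + e) * r ^ 2)) *
        ENNReal.ofReal (p.im + r - (p.im - r)) ≠ ⊤ :=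
      ENNReal.mul_ne_top ENNReal.ofReal_ne_top ENNReal.ofReal_ne_top
    have h11 := ENNReal.toReal_mono hfin hvol
    rw [ENNReal.toReal_mul, ENNReal.toReal_ofReal (by nlinarith [mul_pos (add_pos hd he) (pow_pos hr0 2)]),
      ENNReal.toReal_ofReal (by linarith)] at h11
    rw [div_le_iff₀ (by positivity)]
    refine h11.trans (le_of_eq ?_)
    field_simp
    ring

/-- the wall point -/
theorem dens_wall (hSL : StSL) (d e : ℝ) (hd : 0 < d) (he : 0 < e) (y0 : ℝ) (hy : |y0| < 1 / 2) :
    (y0 = 0 → HasDens (tF d e) ⟨e * q y0, y0⟩ (th (4 * e))) ∧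
    (y0 ≠ 0 → HasDens (tF d e) ⟨e * q y0, y0⟩ (1 / 2)) := by
  obtain ⟨h1, h2, h3⟩ := hSL
  have hq := q_pos hy
  have hw : Continuous (fun y => e * q y) := continuous_const.mul q_cont
  set r0 : ℝ := min (1 / 2 - |y0|) (e * q y0) with hr0
  have hr0p : 0 < r0 := lt_min (by linarith) (by positivity)
  have hT : tF d e ∩ Metric.ball (⟨e * q y0, y0⟩ : ℂ) r0 =
      {z | z.re ≤ e * q z.im} ∩ Metric.ball (⟨e * q y0, y0⟩ : ℂ) r0 := by
    ext z
    constructor
    · rintro ⟨⟨-, -, g3⟩, g4⟩
      exact ⟨g3, g4⟩
    · rintro ⟨g3, g4⟩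
      refine ⟨⟨?_, ?_, g3⟩, g4⟩
      · rw [Metric.mem_ball, Complex.dist_eq] at g4
        have g5 := Complex.abs_im_le_norm (z - ⟨e * q y0, y0⟩)
        rw [Complex.sub_im] at g5
        simp only at g5
        have g6 := abs_sub_abs_le_abs_sub z.im y0
        have g7 : r0 ≤ 1 / 2 - |y0| := min_le_left _ _
        linarith
      · rw [Metric.mem_ball, Complex.dist_eq] at g4
        have g5 := Complex.abs_re_le_norm (z - ⟨e * q y0, y0⟩)
        rw [Complex.sub_re] at g5
        simp only at g5
        have g7 : r0 ≤ e * q y0 := min_le_right _ _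
        have g8 := neg_abs_le (z.re - e * q y0)
        have g9 : 0 ≤ d * q z.im := mul_nonneg hd.le (q_nonneg _)
        linarith
  constructor
  · intro hy0
    subst hy0
    have q0 : q 0 = 1 := by unfold q; norm_num
    have hR : Tendsto (fun h => (e * q (0 + h) - e * q 0) / h) (𝓝[>] 0) (𝓝 (-(4 * e))) := by
      have hl : Tendsto (fun h : ℝ => -(4 * e) + 4 * e * h) (𝓝[>] 0) (𝓝 (-(4 * e))) := by
        have : Tendsto (fun h : ℝ => -(4 * e) + 4 * e * h) (𝓝 0) (𝓝 (-(4 * e) + 4 * e * 0)) :=
          tendsto_const_nhds.add (tendsto_const_nhds.mul tendsto_id)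
        rw [mul_zero, add_zero] at this
        exact this.mono_left nhdsWithin_le_nhds
      refine hl.congr' ?_
      filter_upwards [Ioo_mem_nhdsGT (show (0 : ℝ) < 1 / 2 by norm_num)] with h hh
      rw [q0, zero_add]
      have hq' : q h = (1 - 2 * h) ^ 2 := by
        unfold q
        rw [abs_of_pos hh.1, max_eq_right (by linarith [hh.2])]
      rw [hq']
      have := hh.1.ne'
      field_simp
      ring
    have hL : Tendsto (fun h => (e * q (0 + h) - e * q 0) / h) (𝓝[<] 0) (𝓝 (4 * e)) := by
      have hl : Tendsto (fun h : ℝ => (4 * e) + 4 * e * h) (𝓝[<] 0) (𝓝 (4 * e)) := by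
        have : Tendsto (fun h : ℝ => (4 * e) + 4 * e * h) (𝓝 0) (𝓝 ((4 * e) + 4 * e * 0)) :=
          tendsto_const_nhds.add (tendsto_const_nhds.mul tendsto_id)
        rw [mul_zero, add_zero] at this
        exact this.mono_left nhdsWithin_le_nhds
      refine hl.congr' ?_
      filter_upwards [Ioo_mem_nhdsLT (show -(1 / 2 : ℝ) < 0 by norm_num)] with h hh
      rw [q0, zero_add]
      have hq' : q h = (1 + 2 * h) ^ 2 := by
        unfold q
        rw [abs_of_neg hh.2, max_eq_right (by linarith [hh.1])]
        ring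
      rw [hq']
      have := hh.2.ne
      field_simp
      ring
    have := h1 (fun y => e * q y) 0 (-(4 * e)) (4 * e) r0 (tF d e) hw hr0p hT hR hL
    rw [h3] at this
    exact this
  · intro hy0
    -- derivative
    obtain ⟨s, hs⟩ : ∃ s, HasDerivAt (fun y => e * q y) s y0 := by
      rcases lt_or_gt_of_ne hy0 with hneg | hpos
      · have h5 : HasDerivAt (fun y : ℝ => 1 + 2 * y) 2 y0 := by
          simpa using ((hasDerivAt_id y0).const_mul 2).const_add 1
        have hd1 : HasDerivAt (fun y : ℝ => e * ((1 + 2 * y) * (1 + 2 * y))) _ y0 :=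
          (h5.mul h5).const_mul e
        refine ⟨_, hd1.congr_of_eventuallyEq ?_⟩
        rw [abs_of_neg hneg] at hy
        filter_upwards [Ioo_mem_nhds (show -(1 / 2) < y0 by linarith) hneg] with y hyy
        unfold q
        rw [abs_of_neg hyy.2, max_eq_right (by linarith [hyy.1])]
        ring
      · have h5 : HasDerivAt (fun y : ℝ => 1 - 2 * y) (-2) y0 := by
          simpa using ((hasDerivAt_id y0).const_mul 2).const_sub 1
        have hd1 : HasDerivAt (fun y : ℝ => e * ((1 - 2 * y) * (1 - 2 * y))) _ y0 :=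
          (h5.mul h5).const_mul e
        refine ⟨_, hd1.congr_of_eventuallyEq ?_⟩
        rw [abs_of_pos hpos] at hy
        filter_upwards [Ioo_mem_nhds hpos hy] with y hyy
        unfold q
        rw [abs_of_pos hyy.1, max_eq_right (by linarith [hyy.2])]
        ring
    have hR : Tendsto (fun h => (e * q (y0 + h) - e * q y0) / h) (𝓝[>] 0) (𝓝 s) := by
      refine hs.tendsto_slope_zero_right.congr (fun h => ?_)
      rw [smul_eq_mul, div_eq_inv_mul]
    have hL : Tendsto (fun h => (e * q (y0 + h) - e * q y0) / h) (𝓝[<] 0) (𝓝 s) := by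
      refine hs.tendsto_slope_zero_left.congr (fun h => ?_)
      rw [smul_eq_mul, div_eq_inv_mul]
    have := h1 (fun y => e * q y) y0 s s r0 (tF d e) hw hr0p hT hR hL
    rw [h2] at this
    exact this

end DF

open DF in
theorem stDF (hSL : StSL) : StDF := by
  intro d e hd he
  have q0 : q 0 = 1 := by unfold q; norm_num
  have hmain : ∀ d e : ℝ, 0 < d → 0 < e → HasDens (tF d e) (e : ℝ) (th (4 * e)) := by
    intro d e hd he
    have h1 := (dens_wall hSL d e hd he 0 (by norm_num)).1 rfl
    have h2 : (⟨e * q 0, 0⟩ : ℂ) = ((e : ℝ) : ℂ) := by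
      apply Complex.ext
      · simp [q0]
      · simp
    rw [h2] at h1
    exact h1
  refine ⟨?_, hmain d e hd he, ?_⟩
  · rw [← mir_tF d e]
    apply dens_mir
    have h1 : mir ((-d : ℝ) : ℂ) = ((d : ℝ) : ℂ) := by
      apply Complex.ext
      · rw [mir_re]; simp
      · rw [mir_im]; simp
    rw [h1]
    exact hmain e d he hd
  · rintro p ⟨hp1, hp2, hp3⟩ hpd hpe
    by_cases him : |p.im| = 1 / 2
    · right; right
      exact dens_zero d e hd he p him
    · have him' : |p.im| < 1 / 2 := lt_of_le_of_ne hp1 him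
      by_cases hr : p.re = e * q p.im
      · right; left
        have h1 : p.im ≠ 0 := by
          intro h0
          apply hpe
          apply Complex.ext
          · rw [hr, h0, q0]; simp
          · rw [h0]; simp
        have h2 := (dens_wall hSL d e hd he p.im him').2 h1
        rw [← hr] at h2
        exact h2
      · by_cases hl : p.re = -(d * q p.im)
        · right; left
          have h1 : p.im ≠ 0 := by
            intro h0
            apply hpd
            apply Complex.ext
            · rw [hl, h0, q0]; simp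
            · rw [h0]; simp
          rw [← mir_tF d e]
          apply dens_mir
          have h2 := (dens_wall hSL e d he hd p.im him').2 h1
          have h3 : mir p = ⟨d * q p.im, p.im⟩ := by
            apply Complex.ext
            · rw [mir_re, hl]; simp
            · rw [mir_im]
          rw [h3]
          exact h2
        · left
          -- interior point
          have hopen : IsOpen {z : ℂ | |z.im| < 1 / 2 ∧ -(d * q z.im) < z.re ∧ z.re < e * q z.im} := by
            have c1 : Continuous (fun z : ℂ => |z.im|) := Complex.continuous_im.abs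
            have c2 : Continuous (fun z : ℂ => -(d * q z.im)) :=
              (continuous_const.mul (q_cont.comp Complex.continuous_im)).neg
            have c3 : Continuous (fun z : ℂ => e * q z.im) :=
              continuous_const.mul (q_cont.comp Complex.continuous_im)
            exact (isOpen_lt c1 continuous_const).inter ((isOpen_lt c2 Complex.continuous_re).inter
              (isOpen_lt Complex.continuous_re c3))
          have hpm : p ∈ {z : ℂ | |z.im| < 1 / 2 ∧ -(d * q z.im) < z.re ∧ z.re < e * q z.im} :=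
            ⟨him', lt_of_le_of_ne hp2 (Ne.symm hl), lt_of_le_of_ne hp3 hr⟩
          obtain ⟨r0, hr0, hball⟩ := Metric.isOpen_iff.1 hopen p hpm
          apply dens_one (tF d e) p r0 hr0
          intro z hz
          obtain ⟨g1, g2, g3⟩ := hball hz
          exact ⟨g1.le, g2.le, g3.le⟩

end Pool.Agent.R612.SU
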