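import Pool.Agent.R612.SU.UN

/-!
# PIECE DI: the tiles of the patch have disjoint interiors
-/

open MeasureTheory Set Filter Topology

namespace Pool.Agent.R612.SU.DI

open Pool.Agent.R612.SU Pool.Agent.R612.SU.Geo Pool.Agent.R612.SU.UN

/-- the kinds of the tiles -/
inductive Kd
  | A
  | B
  | G
  | H

/-- the open sections of the tiles -/
def inn (w a b : ℝ) (κ : Kd) (i : ℤ) (x : ℝ) : Prop :=
  match κ with
  | Kd.A => Odd i ∧ -(w + a) < x - 2 * w * i ∧ x - 2 * w * i < w + a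
  | Kd.B => Even i ∧ -(w + b) < x - 2 * w * i ∧ x - 2 * w * i < w + b
  | Kd.G => Even i ∧ b < x - 2 * w * i - w ∧ x - 2 * w * i - w < -a
  | Kd.H => Even i ∧ b < 2 * w * i - w - x ∧ 2 * w * i - w - x < -a

theorem inn_lt {w a b x : ℝ} (hw : 0 < w) (ha : |a| < w) (hb : |b| < w) {κ κ' : Kd}
    (hab : (κ = Kd.B ∧ κ' = Kd.B) ∨ a + b ≤ 0) {i i' : ℤ} (hi : i < i') (h : inn w a b κ i x)
    (h' : inn w a b κ' i' x) : False := by
  rw [abs_lt] at ha hb
  have h1 : 2 * w * i + 2 * w ≤ 2 * w * i' := by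
    have : (i : ℝ) + 1 ≤ i' := by exact_mod_cast hi
    nlinarith
  have h2 : i + 2 ≤ i' → 2 * w * i + 4 * w ≤ 2 * w * i' := by
    intro h3
    have : (i : ℝ) + 2 ≤ i' := by exact_mod_cast h3
    nlinarith
  rcases hab with ⟨rfl, rfl⟩ | hab
  · obtain ⟨⟨m, hm⟩, h3, h4⟩ := h
    obtain ⟨⟨m', hm'⟩, h5, h6⟩ := h'
    have h7 := h2 (by omega)
    linarith
  · cases κ <;> cases κ' <;> obtain ⟨⟨m, hm⟩, h3, h4⟩ := h <;> obtain ⟨⟨m', hm'⟩, h5, h6⟩ := h' <;>
      first
        | linarith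
        | (have h7 := h2 (by omega); linarith)

theorem inn_unique {w a b x : ℝ} (hw : 0 < w) (ha : |a| < w) (hb : |b| < w) {κ κ' : Kd}
    (hab : (κ = Kd.B ∧ κ' = Kd.B) ∨ a + b ≤ 0) {i i' : ℤ} (h : inn w a b κ i x)
    (h' : inn w a b κ' i' x) : κ = κ' ∧ i = i' := by
  rcases lt_trichotomy i i' with h1 | h1 | h1
  · exact (inn_lt hw ha hb hab h1 h h').elim
  · subst h1
    refine ⟨?_, rfl⟩
    rw [abs_lt] at ha hb
    cases κ <;> cases κ' <;> first
      | rfl
      | (exfalso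
         obtain ⟨⟨m, hm⟩, h3, h4⟩ := h
         obtain ⟨⟨m', hm'⟩, h5, h6⟩ := h'
         first
           | omega
           | linarith)
  · refine (inn_lt hw ha hb ?_ h1 h' h).elim
    rcases hab with ⟨h2, h3⟩ | h2
    · exact Or.inl ⟨h3, h2⟩
    · exact Or.inr h2

/-- the tile of a kind, a column and a slot -/
noncomputable def til (d e : ℝ) (c K : ℕ) (κ : Kd) (i s : ℤ) : Set ℂ :=
  match κ with
  | Kd.A => tr (tA d e c) (2 * W d e * i) (((s + c) / (2 * c + 1) : ℤ) * (2 * c + 1))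
  | Kd.B => tr (tB d e c K) (2 * W d e * i) (((s + (c + 1 : ℕ)) / (2 * (c + 1 : ℕ) + 1) : ℤ) * (2 * c + 3))
  | Kd.G => tr (tF d e) (2 * W d e * i + W d e) s
  | Kd.H => mr (tF d e) (2 * W d e * i - W d e) s

/-- generic horizontal coordinates -/
def gen (w a b x : ℝ) : Prop := ∀ n : ℤ, x ≠ 2 * w * n + (w + a) ∧ x ≠ 2 * w * n - (w + a) ∧
  x ≠ 2 * w * n + (w + b) ∧ x ≠ 2 * w * n - (w + b)

theorem slot_le {y : ℝ} {s k m : ℤ} (hs : |y - s| < 1 / 2) (h : |y - k| ≤ m + 1 / 2) :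
    |s - k| ≤ m := by
  rw [abs_lt] at hs
  rw [abs_le] at h ⊢
  constructor
  · have : (-(m + 1) : ℝ) < s - k := by linarith [hs.1, hs.2, h.1, h.2]
    have : -(m + 1) < s - k := by exact_mod_cast this
    omega
  · have : (s : ℝ) - k < m + 1 := by linarith [hs.1, hs.2, h.1, h.2]
    have : s - k < m + 1 := by exact_mod_cast this
    omega

theorem row_le {s j : ℤ} {J : ℕ} (hj : |j| ≤ J) (N m : ℤ) (hN : 0 ≤ N) (h : |s - j * N| ≤ m) :
    |s| ≤ J * N + m := by
  rw [abs_le] at hj h ⊢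
  constructor <;> nlinarith [hj.1, hj.2, h.1, h.2]

theorem classify {d e : ℝ} {c K I J : ℕ} (hJ : 2 * J ≤ K)
    (hK : 2 * K ≤ c) {T : Set ℂ} (hT : T ∈ pat d e c K I J) {z : ℂ} (hz : z ∈ T)
    (hy : |z.im - round z.im| < 1 / 2) (hx : gen (W d e) (colA d e c z.im) (colB d e c K z.im) z.re) :
    ∃ κ i, T = til d e c K κ i (round z.im) ∧
      inn (W d e) (colA d e c z.im) (colB d e c K z.im) κ i z.re ∧
      (κ = Kd.B ∨ |round z.im| ≤ J * (2 * c + 1) + c) := by
  obtain ⟨s, hs⟩ : ∃ s : ℤ, s = round z.im := ⟨_, rfl⟩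
  rw [← hs] at hy ⊢
  have hJ' : (2 * J : ℤ) ≤ K := by exact_mod_cast hJ
  have hK' : (2 * K : ℤ) ≤ c := by exact_mod_cast hK
  rcases hT with (hT | hT) | hT
  · obtain ⟨i, j, hi, hi', hj, rfl⟩ := hT
    rw [memA] at hz
    obtain ⟨h1, h2⟩ := hz
    have h3 : |s - j * (2 * c + 1)| ≤ c := slot_le hy (by push_cast; exact h1)
    refine ⟨Kd.A, i, ?_, ?_, Or.inr (row_le hj _ _ (by positivity) h3)⟩
    · simp only [til]
      rw [row_unique s j c h3]
    · obtain ⟨g1, g2, -, -⟩ := hx i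
      rw [abs_le] at h2
      refine ⟨hi, lt_of_le_of_ne h2.1 fun h => ?_, lt_of_le_of_ne h2.2 fun h => ?_⟩
      · exact g2 (by linarith)
      · exact g1 (by linarith)
  · obtain ⟨i, j, hi, hi', hj, rfl⟩ := hT
    rw [memB] at hz
    obtain ⟨h1, h2⟩ := hz
    have h3 : |s - j * (2 * c + 3)| ≤ c + 1 := slot_le hy (by push_cast; linarith)
    refine ⟨Kd.B, i, ?_, ?_, Or.inl rfl⟩
    · simp only [til]
      rw [row_unique s j (c + 1) (by
        push_cast
        rw [show (2 * ((c : ℤ) + 1) + 1) = 2 * c + 3 by ring]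
        exact h3)]
    · obtain ⟨-, -, g1, g2⟩ := hx i
      rw [abs_le] at h2
      refine ⟨hi, lt_of_le_of_ne h2.1 fun h => ?_, lt_of_le_of_ne h2.2 fun h => ?_⟩
      · exact g2 (by linarith)
      · exact g1 (by linarith)
  · obtain ⟨i, j, s', hi, hi', hj, hs', hsj, hT⟩ := hT
    have hcast : ((j * (2 * c + 3) + s' : ℤ) : ℝ) = (j * (2 * c + 3) + s' : ℝ) := by push_cast; ring
    have hslot : |z.im - (j * (2 * c + 3) + s' : ℝ)| ≤ 1 / 2 → s = j * (2 * c + 3) + s' := by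
      intro h1
      have h2 : |s - (j * (2 * c + 3) + s')| ≤ 0 := slot_le (m := 0) hy (by
        rw [hcast]
        push_cast
        linarith)
      have h3 := abs_nonpos_iff.1 h2
      linarith
    have hrow : s = j * (2 * c + 3) + s' → |s| ≤ J * (2 * c + 1) + c := by
      intro h1
      have h2 : |s - j * (2 * c + 3)| ≤ K := by
        rw [h1]
        have : j * (2 * c + 3) + s' - j * (2 * (c : ℤ) + 3) = s' := by ring
        rw [this]
        exact hs'
      have h3 := row_le hj _ _ (by positivity) h2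
      linarith
    rcases hT with rfl | rfl
    · rw [memF] at hz
      obtain ⟨h1, h2, h4⟩ := hz
      obtain ⟨h5, h6, h7⟩ := fill (d := d) (e := e) hJ hK hj hs' hsj h1
      have h8 := hslot h1
      refine ⟨Kd.G, i, ?_, ?_, Or.inr (hrow h8)⟩
      · simp only [til]
        rw [h8, hcast]
      · obtain ⟨-, -, g1, -⟩ := hx i
        obtain ⟨-, g2, -, -⟩ := hx (i + 1)
        push_cast at g2
        refine ⟨hi, lt_of_le_of_ne ?_ fun h => ?_, lt_of_le_of_ne ?_ fun h => ?_⟩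
        · rw [h6]
          linarith
        · exact g1 (by linarith)
        · rw [h5]
          linarith
        · exact g2 (by linarith)
    · rw [memF'] at hz
      obtain ⟨h1, h2, h4⟩ := hz
      obtain ⟨h5, h6, h7⟩ := fill (d := d) (e := e) hJ hK hj hs' hsj h1
      have h8 := hslot h1
      refine ⟨Kd.H, i, ?_, ?_, Or.inr (hrow h8)⟩
      · simp only [til]
        rw [h8, hcast]
      · obtain ⟨-, -, -, g1⟩ := hx i
        obtain ⟨g2, -, -, -⟩ := hx (i - 1)
        push_cast at g2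
        refine ⟨hi, lt_of_le_of_ne ?_ fun h => ?_, lt_of_le_of_ne ?_ fun h => ?_⟩
        · rw [h6]
          linarith
        · exact g1 (by linarith)
        · rw [h5]
          linarith
        · exact g2 (by linarith)

/-- generic points of open sets -/
theorem ex_gen {U : Set ℂ} (hU : IsOpen U) (hne : U.Nonempty) {C : Set ℝ} (hC : C.Countable)
    {C' : ℝ → Set ℝ} (hC' : ∀ y, (C' y).Countable) : ∃ z ∈ U, z.im ∉ C ∧ z.re ∉ C' z.im := by
  obtain ⟨z0, hz0⟩ := hne
  have c1 : Continuous fun y : ℝ => (⟨z0.re, y⟩ : ℂ) := by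
    simp only [Complex.mk_eq_add_mul_I]
    fun_prop
  obtain ⟨y, hy1, hy2⟩ := (hC.dense_compl ℝ).inter_open_nonempty _ (hU.preimage c1) ⟨z0.im, hz0⟩
  have c2 : Continuous fun x : ℝ => (⟨x, y⟩ : ℂ) := by
    simp only [Complex.mk_eq_add_mul_I]
    fun_prop
  obtain ⟨x, hx1, hx2⟩ := ((hC' y).dense_compl ℝ).inter_open_nonempty _ (hU.preimage c2)
    ⟨z0.re, hy1⟩
  exact ⟨⟨x, y⟩, hx1, hy2, hx2⟩

/-- PIECE DI -/
theorem stDI : StDI := by
  intro d e c K I J hd he hJ hK T hT T' hT' hne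
  by_contra hcon
  have hcon' : (interior T ∩ interior T').Nonempty := Set.nonempty_iff_ne_empty.2 hcon
  have hop : IsOpen (interior T ∩ interior T') := isOpen_interior.inter isOpen_interior
  obtain ⟨z, ⟨hz1, hz2⟩, hy, hx⟩ := ex_gen hop hcon'
    (C := Set.range fun n : ℤ => (n : ℝ) + 1 / 2) (Set.countable_range _)
    (C' := fun y => (Set.range fun n : ℤ => 2 * W d e * n + (W d e + colA d e c y)) ∪
      (Set.range fun n : ℤ => 2 * W d e * n - (W d e + colA d e c y)) ∪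
      (Set.range fun n : ℤ => 2 * W d e * n + (W d e + colB d e c K y)) ∪
      (Set.range fun n : ℤ => 2 * W d e * n - (W d e + colB d e c K y)))
    (fun y => (((Set.countable_range _).union (Set.countable_range _)).union
      (Set.countable_range _)).union (Set.countable_range _))
  have hy' : |z.im - round z.im| < 1 / 2 := by
    refine lt_of_le_of_ne (abs_sub_round _) fun h => hy ?_
    rcases abs_eq (by norm_num : (0 : ℝ) ≤ 1 / 2) |>.1 h with h1 | h1
    · exact ⟨round z.im, by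
        show ((round z.im : ℤ) : ℝ) + 1 / 2 = z.im
        linarith⟩
    · exact ⟨round z.im - 1, by
        show ((round z.im - 1 : ℤ) : ℝ) + 1 / 2 = z.im
        push_cast
        linarith⟩
  have hx' : gen (W d e) (colA d e c z.im) (colB d e c K z.im) z.re := by
    intro n
    simp only [Set.mem_union, not_or] at hx
    obtain ⟨⟨⟨h1, h2⟩, h3⟩, h4⟩ := hx
    exact ⟨fun h => h1 ⟨n, h.symm⟩, fun h => h2 ⟨n, h.symm⟩, fun h => h3 ⟨n, h.symm⟩,
      fun h => h4 ⟨n, h.symm⟩⟩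
  obtain ⟨κ, i, e1, e2, e3⟩ := classify hJ hK hT (interior_subset hz1) hy' hx'
  obtain ⟨κ', i', f1, f2, f3⟩ := classify hJ hK hT' (interior_subset hz2) hy' hx'
  have hab : (κ = Kd.B ∧ κ' = Kd.B) ∨ colA d e c z.im + colB d e c K z.im ≤ 0 := by
    have h1 : |round z.im| ≤ J * (2 * c + 1) + c →
        colA d e c z.im + colB d e c K z.im ≤ 0 := by
      intro h2
      rw [colA_eq (abs_sub_round z.im), colB_eq (abs_sub_round z.im)]
      have hq := q_nonneg (z.im - round z.im)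
      rcases key (d := d) (e := e) hJ hK h2 with ⟨ha, hb⟩ | ⟨ha, hb⟩ | ⟨ha, hb⟩ <;>
        rw [ha, hb] <;> nlinarith
    rcases e3 with e3 | e3
    · rcases f3 with f3 | f3
      · exact Or.inl ⟨e3, f3⟩
      · exact Or.inr (h1 f3)
    · exact Or.inr (h1 e3)
  obtain ⟨g1, g2⟩ := inn_unique (W_pos hd he) (colA_lt hd he _) (colB_lt hd he _) hab e2 f2
  apply hne
  rw [e1, f1, g1, g2]

end Pool.Agent.R612.SU.DI
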