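import Pool.Agent.R612.SU.Geo

/-!
# PIECE DK: the three prototiles are closed disks
-/

open MeasureTheory Set Filter Topology

namespace Pool.Agent.R612.SU.DK

open Pool.Agent.R612.SU Pool.Agent.R612.SU.Geo

theorem disk_of_convex {s : Set ℂ} (hs : IsCompact s) (hc : Convex ℝ s)
    (hne : (interior s).Nonempty) : IsDisk s := by
  obtain ⟨h, -, h2, -⟩ :=
    exists_homeomorph_image_interior_closure_frontier_eq_unitBall hc hne hs.isBounded
  rw [hs.isClosed.closure_eq] at h2
  exact ⟨(h.image s).trans (Homeomorph.setCongr h2)⟩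

theorem disk_image {D D' : Set ℂ} (f : ℂ → ℂ) (hf : Continuous f) (hinj : InjOn f D)
    (himg : f '' D = D') (hD : IsDisk D) : IsDisk D' := by
  obtain ⟨h⟩ := hD
  have hcomp : CompactSpace (Metric.closedBall (0 : ℂ) 1) :=
    isCompact_iff_compactSpace.1 (isCompact_closedBall 0 1)
  have hcD : CompactSpace D := h.symm.compactSpace
  have hb : Function.Bijective (fun x : D => (⟨f x.1, by rw [← himg]; exact ⟨x.1, x.2, rfl⟩⟩ : D')) := by
    constructor
    · intro x y hxy
      exact Subtype.ext (hinj x.2 y.2 (congrArg Subtype.val hxy))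
    · rintro ⟨y, hy⟩
      rw [← himg] at hy
      obtain ⟨x, hx, rfl⟩ := hy
      exact ⟨⟨x, hx⟩, rfl⟩
  have hcont : Continuous (Equiv.ofBijective _ hb) := by
    show Continuous (fun x : D => (⟨f x.1, by rw [← himg]; exact ⟨x.1, x.2, rfl⟩⟩ : D'))
    exact (hf.comp continuous_subtype_val).subtype_mk _
  exact ⟨(hcont.homeoOfEquivCompactToT2).symm.trans h⟩

theorem mk_cont {X : Type} [TopologicalSpace X] {f g : X → ℝ} (hf : Continuous f)
    (hg : Continuous g) : Continuous fun x => (⟨f x, g x⟩ : ℂ) := by
  simp only [Complex.mk_eq_add_mul_I]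
  fun_prop

theorem disk_rect (f : ℤ → ℝ) (H w : ℝ) (hH : 0 < H) (hw : ∀ y, 0 < w + prof f y) :
    IsDisk {z : ℂ | |z.im| ≤ H ∧ |z.re| ≤ w + prof f z.im} := by
  have hR : IsDisk (Icc (-1) 1 ×ℂ Icc (-H) H) := by
    refine disk_of_convex (isCompact_Icc.reProdIm isCompact_Icc)
      (((convex_Icc (-1 : ℝ) 1).linear_preimage Complex.reLm).inter
        ((convex_Icc (-H) H).linear_preimage Complex.imLm)) ?_
    rw [Complex.interior_reProdIm, interior_Icc, interior_Icc]
    exact ⟨0, by simp, by simpa using hH⟩
  have hc := prof_cont f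
  refine disk_image (fun z => ⟨z.re * (w + prof f z.im), z.im⟩) ?_ ?_ ?_ hR
  · refine mk_cont ?_ Complex.continuous_im
    exact Complex.continuous_re.mul (continuous_const.add (hc.comp Complex.continuous_im))
  · intro z hz z' hz' h
    have h1 := congrArg Complex.im h
    have h2 := congrArg Complex.re h
    simp only at h1 h2
    rw [h1] at h2
    exact Complex.ext (mul_right_cancel₀ (hw z'.im).ne' h2) h1
  · ext z
    constructor
    · rintro ⟨u, hu, rfl⟩
      rw [Complex.mem_reProdIm] at hu
      refine ⟨abs_le.2 hu.2, ?_⟩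
      show |u.re * (w + prof f u.im)| ≤ w + prof f u.im
      rw [abs_mul, abs_of_pos (hw u.im)]
      have h1 : |u.re| ≤ 1 := abs_le.2 hu.1
      nlinarith [hw u.im]
    · rintro ⟨h1, h2⟩
      refine ⟨⟨z.re / (w + prof f z.im), z.im⟩, ?_, ?_⟩
      · rw [Complex.mem_reProdIm]
        refine ⟨?_, abs_le.1 h1⟩
        show z.re / (w + prof f z.im) ∈ Icc (-1) 1
        refine abs_le.1 ?_
        rw [abs_div, abs_of_pos (hw z.im), div_le_one (hw z.im)]
        exact h2
      · apply Complex.ext
        · show z.re / (w + prof f z.im) * (w + prof f z.im) = z.re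
          exact div_mul_cancel₀ _ (hw z.im).ne'
        · rfl

theorem disk_F {d e : ℝ} (hd : 0 < d) (he : 0 < e) : IsDisk (tF d e) := by
  have hR : IsDisk {z : ℂ | |z.re| + 2 * |z.im| ≤ 1} := by
    refine disk_of_convex ?_ ?_ ?_
    · refine (isCompact_closedBall (0 : ℂ) 1).of_isClosed_subset ?_ ?_
      · exact isClosed_le (by fun_prop) continuous_const
      · intro z hz
        rw [mem_closedBall_zero_iff]
        have h1 := Complex.norm_le_abs_re_add_abs_im z
        have h2 : |z.re| + 2 * |z.im| ≤ 1 := hz
        linarith [abs_nonneg z.im]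
    · intro x hx y hy a b ha hb hab
      have hx' : |x.re| + 2 * |x.im| ≤ 1 := hx
      have hy' : |y.re| + 2 * |y.im| ≤ 1 := hy
      show |(a • x + b • y).re| + 2 * |(a • x + b • y).im| ≤ 1
      simp only [Complex.add_re, Complex.add_im, Complex.real_smul, Complex.mul_re, Complex.mul_im,
        Complex.ofReal_re, Complex.ofReal_im, zero_mul, sub_zero, add_zero]
      have h1 : |a * x.re + b * y.re| ≤ a * |x.re| + b * |y.re| := by
        refine (abs_add_le _ _).trans ?_
        rw [abs_mul, abs_mul, abs_of_nonneg ha, abs_of_nonneg hb]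
      have h2 : |a * x.im + b * y.im| ≤ a * |x.im| + b * |y.im| := by
        refine (abs_add_le _ _).trans ?_
        rw [abs_mul, abs_mul, abs_of_nonneg ha, abs_of_nonneg hb]
      nlinarith
    · refine ⟨0, mem_interior.2 ⟨{z : ℂ | |z.re| + 2 * |z.im| < 1}, ?_, ?_, ?_⟩⟩
      · intro z hz
        have hz' : |z.re| + 2 * |z.im| < 1 := hz
        exact hz'.le
      · exact isOpen_lt (by fun_prop) continuous_const
      · simp
  refine disk_image (fun z => ⟨(e * max z.re 0 - d * max (-z.re) 0) * (1 - 2 * |z.im|), z.im⟩)
    ?_ ?_ ?_ hR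
  · refine mk_cont ?_ Complex.continuous_im
    fun_prop
  · intro z hz z' hz' h
    have h1 := congrArg Complex.im h
    have h2 := congrArg Complex.re h
    simp only at h1 h2
    rw [h1] at h2
    have hz1 : |z.re| + 2 * |z.im| ≤ 1 := hz
    have hz2 : |z'.re| + 2 * |z'.im| ≤ 1 := hz'
    rw [h1] at hz1
    refine Complex.ext ?_ h1
    by_cases h3 : 1 - 2 * |z'.im| = 0
    · have h4 : |z.re| = 0 := le_antisymm (by linarith) (abs_nonneg _)
      have h5 : |z'.re| = 0 := le_antisymm (by linarith) (abs_nonneg _)
      rw [abs_eq_zero.1 h4, abs_eq_zero.1 h5]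
    · have h4 := mul_right_cancel₀ h3 h2
      rcases le_total 0 z.re with h5 | h5 <;> rcases le_total 0 z'.re with h6 | h6
      · rw [max_eq_left h5, max_eq_left h6, max_eq_right (by linarith), max_eq_right (by linarith)] at h4
        nlinarith
      · rw [max_eq_left h5, max_eq_right h6, max_eq_right (by linarith), max_eq_left (by linarith)] at h4
        have h7 : 0 ≤ e * z.re := by positivity
        have h8 : 0 ≤ d * (-z'.re) := mul_nonneg hd.le (by linarith)
        have h9 : e * z.re = 0 := by linarith
        have h10 : d * (-z'.re) = 0 := by linarith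
        have h11 := (mul_eq_zero.1 h9).resolve_left he.ne'
        have h12 := (mul_eq_zero.1 h10).resolve_left hd.ne'
        linarith
      · rw [max_eq_right h5, max_eq_left h6, max_eq_left (by linarith), max_eq_right (by linarith)] at h4
        have h7 : 0 ≤ e * z'.re := by positivity
        have h8 : 0 ≤ d * (-z.re) := mul_nonneg hd.le (by linarith)
        have h9 : e * z'.re = 0 := by linarith
        have h10 : d * (-z.re) = 0 := by linarith
        have h11 := (mul_eq_zero.1 h9).resolve_left he.ne'
        have h12 := (mul_eq_zero.1 h10).resolve_left hd.ne'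
        linarith
      · rw [max_eq_right h5, max_eq_right h6, max_eq_left (by linarith), max_eq_left (by linarith)] at h4
        nlinarith
  · have hqq : ∀ y : ℝ, |y| ≤ 1 / 2 → q y = (1 - 2 * |y|) ^ 2 := by
      intro y hy
      unfold q
      rw [max_eq_right (by linarith)]
    ext z
    constructor
    · rintro ⟨u, hu, rfl⟩
      have hu' : |u.re| + 2 * |u.im| ≤ 1 := hu
      have h0 : |u.im| ≤ 1 / 2 := by linarith [abs_nonneg u.re]
      refine ⟨h0, ?_, ?_⟩
      · show -(d * q u.im) ≤ (e * max u.re 0 - d * max (-u.re) 0) * (1 - 2 * |u.im|)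
        rw [hqq _ h0]
        rcases le_total 0 u.re with h5 | h5
        · rw [max_eq_left h5, max_eq_right (by linarith)]
          have : 0 ≤ 1 - 2 * |u.im| := by linarith
          have h6 : 0 ≤ e * u.re * (1 - 2 * |u.im|) := by positivity
          have h7 : 0 ≤ d * (1 - 2 * |u.im|) ^ 2 := by positivity
          linarith
        · rw [max_eq_right h5, max_eq_left (by linarith)]
          rw [abs_of_nonpos h5] at hu'
          have h6 : 0 ≤ 1 - 2 * |u.im| := by linarith
          have h7 : -u.re ≤ 1 - 2 * |u.im| := by linarith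
          have h8 := mul_le_mul_of_nonneg_right h7 h6
          have h9 := mul_le_mul_of_nonneg_left h8 hd.le
          linarith
      · show (e * max u.re 0 - d * max (-u.re) 0) * (1 - 2 * |u.im|) ≤ e * q u.im
        rw [hqq _ h0]
        rcases le_total 0 u.re with h5 | h5
        · rw [max_eq_left h5, max_eq_right (by linarith)]
          rw [abs_of_nonneg h5] at hu'
          have h6 : 0 ≤ 1 - 2 * |u.im| := by linarith
          have h7 : u.re ≤ 1 - 2 * |u.im| := by linarith
          have h8 := mul_le_mul_of_nonneg_right h7 h6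
          have h9 := mul_le_mul_of_nonneg_left h8 he.le
          linarith
        · rw [max_eq_right h5, max_eq_left (by linarith)]
          have h5' : 0 ≤ -u.re := by linarith
          have : 0 ≤ 1 - 2 * |u.im| := by linarith
          have h6 : 0 ≤ d * (-u.re) * (1 - 2 * |u.im|) := by positivity
          have h7 : 0 ≤ e * (1 - 2 * |u.im|) ^ 2 := by positivity
          linarith
    · rintro ⟨h1, h2, h3⟩
      rw [hqq _ h1] at h2 h3
      by_cases h4 : 1 - 2 * |z.im| = 0
      · rw [h4] at h2 h3
        have h5 : z.re = 0 := by linarith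
        refine ⟨⟨0, z.im⟩, ?_, ?_⟩
        · show |(0 : ℝ)| + 2 * |z.im| ≤ 1
          rw [abs_zero]
          linarith
        · apply Complex.ext
          · show (e * max 0 0 - d * max (-0) 0) * (1 - 2 * |z.im|) = z.re
            rw [h4, h5, mul_zero]
          · rfl
      · have h5 : 0 < 1 - 2 * |z.im| := lt_of_le_of_ne (by linarith) (Ne.symm h4)
        rcases le_total 0 z.re with h6 | h6
        · have h7 : 0 ≤ z.re / (e * (1 - 2 * |z.im|)) := by positivity
          refine ⟨⟨z.re / (e * (1 - 2 * |z.im|)), z.im⟩, ?_, ?_⟩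
          · show |z.re / (e * (1 - 2 * |z.im|))| + 2 * |z.im| ≤ 1
            rw [abs_of_nonneg h7]
            have h8 : z.re / (e * (1 - 2 * |z.im|)) ≤ 1 - 2 * |z.im| := by
              rw [div_le_iff₀ (by positivity)]
              linarith
            linarith
          · apply Complex.ext
            · show (e * max (z.re / (e * (1 - 2 * |z.im|))) 0 -
                d * max (-(z.re / (e * (1 - 2 * |z.im|)))) 0) * (1 - 2 * |z.im|) = z.re
              rw [max_eq_left h7, max_eq_right (by linarith)]
              field_simp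
              ring
            · rfl
        · have h7 : z.re / (d * (1 - 2 * |z.im|)) ≤ 0 :=
            div_nonpos_of_nonpos_of_nonneg h6 (by positivity)
          refine ⟨⟨z.re / (d * (1 - 2 * |z.im|)), z.im⟩, ?_, ?_⟩
          · show |z.re / (d * (1 - 2 * |z.im|))| + 2 * |z.im| ≤ 1
            rw [abs_of_nonpos h7]
            have h8 : -(z.re / (d * (1 - 2 * |z.im|))) ≤ 1 - 2 * |z.im| := by
              rw [← neg_div, div_le_iff₀ (by positivity)]
              linarith
            linarith
          · apply Complex.ext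
            · show (e * max (z.re / (d * (1 - 2 * |z.im|))) 0 -
                d * max (-(z.re / (d * (1 - 2 * |z.im|)))) 0) * (1 - 2 * |z.im|) = z.re
              rw [max_eq_right h7, max_eq_left (by linarith)]
              field_simp
              ring
            · rfl

/-- PIECE DK -/
theorem stDK : StDK := by
  intro d e c K hd he
  have hW : W d e = 2 * (d + e) + 1 := rfl
  have hb : ∀ (f : ℤ → ℝ), (∀ s, -(d + e) ≤ f s) → ∀ y, 0 < W d e + prof f y := by
    intro f hf y
    rw [prof_eq f y (round y) (abs_sub_round y)]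
    have h1 := q_nonneg (y - round y)
    have h2 := q_le_one (y - round y)
    have h3 := hf (round y)
    have h4 : -(d + e) * q (y - round y) ≤ f (round y) * q (y - round y) :=
      mul_le_mul_of_nonneg_right h3 h1
    have h5 : (d + e) * q (y - round y) ≤ (d + e) * 1 :=
      mul_le_mul_of_nonneg_left h2 (by positivity)
    rw [hW]
    linarith
  refine ⟨?_, ?_, disk_F hd he⟩
  · refine disk_rect (fa d e) (c + 1 / 2) (W d e) (by positivity) (hb _ fun s => ?_)
    unfold fa
    split_ifs <;> linarith
  · refine disk_rect (fb d e K) (c + 3 / 2) (W d e) (by positivity) (hb _ fun s => ?_)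
    unfold fb
    split_ifs <;> linarith

end Pool.Agent.R612.SU.DK
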