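import Mathlib

/-!
# Surrounding a prototile many times without tiling the plane: definitions

The Euclidean plane is `ℂ`.
-/

open MeasureTheory Set Filter Topology

namespace Pool.Agent.R612.SU

/-! ## Patches, surroundings, tilings -/

/-- `D` is a closed topological disk. -/
def IsDisk (D : Set ℂ) : Prop := Nonempty (D ≃ₜ Metric.closedBall (0 : ℂ) 1)

/-- `T` is a tile from `S`: the image of a member of `S` under an isometry of the plane. -/
def IsTile (S : Set (Set ℂ)) (T : Set ℂ) : Prop := ∃ P ∈ S, ∃ g : ℂ ≃ᵢ ℂ, T = g '' P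

/-- different members of `F` have disjoint interiors -/
def DisjInt (F : Set (Set ℂ)) : Prop :=
  ∀ T ∈ F, ∀ T' ∈ F, T ≠ T' → interior T ∩ interior T' = ∅

/-- A patch: a finite collection of tiles from `S` with pairwise disjoint interiors whose union is
a closed topological disk. -/
def IsPatch (S : Set (Set ℂ)) (F : Set (Set ℂ)) : Prop :=
  F.Finite ∧ (∀ T ∈ F, IsTile S T) ∧ DisjInt F ∧ IsDisk (⋃₀ F)

/-- The patch `G` surrounds the patch `F`. -/
def Surrounds (G F : Set (Set ℂ)) : Prop := F ⊆ G ∧ ⋃₀ F ⊆ interior (⋃₀ G)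

/-- The patch `F` can be surrounded `r` times. -/
def CanSurround (S : Set (Set ℂ)) (F : Set (Set ℂ)) (r : ℕ) : Prop :=
  ∃ P : ℕ → Set (Set ℂ), P 0 = F ∧ (∀ i ≤ r, IsPatch S (P i)) ∧ ∀ i < r, Surrounds (P (i + 1)) (P i)

/-- `S` admits a tiling of the plane. -/
def Tiles (S : Set (Set ℂ)) : Prop :=
  ∃ F : Set (Set ℂ), F.Countable ∧ (∀ T ∈ F, IsTile S T) ∧ DisjInt F ∧ ⋃₀ F = univ

/-! ## The three prototiles -/

/-- the tooth -/
noncomputable def q (t : ℝ) : ℝ := (max 0 (1 - 2 * |t|)) ^ 2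

/-- the wall with teeth of amplitude `f s` at the integers `s` -/
noncomputable def prof (f : ℤ → ℝ) (y : ℝ) : ℝ := f (round y) * q (y - round y)

/-- amplitudes of `A`: a spike at `0`, dents elsewhere -/
noncomputable def fa (d e : ℝ) (s : ℤ) : ℝ := if s = 0 then d else -e

/-- amplitudes of `B`: notches at `|s| ≤ K`, teeth elsewhere -/
noncomputable def fb (d e : ℝ) (K : ℕ) (s : ℤ) : ℝ := if |s| ≤ (K : ℤ) then -d else e

/-- half of the width -/
noncomputable def W (d e : ℝ) : ℝ := 2 * (d + e) + 1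

/-- the prototile `A` -/
noncomputable def tA (d e : ℝ) (c : ℕ) : Set ℂ :=
  {z | |z.im| ≤ c + 1 / 2 ∧ |z.re| ≤ W d e + prof (fa d e) z.im}

/-- the prototile `B` -/
noncomputable def tB (d e : ℝ) (c K : ℕ) : Set ℂ :=
  {z | |z.im| ≤ c + 3 / 2 ∧ |z.re| ≤ W d e + prof (fb d e K) z.im}

/-- the prototile `F` -/
noncomputable def tF (d e : ℝ) : Set ℂ :=
  {z | |z.im| ≤ 1 / 2 ∧ -(d * q z.im) ≤ z.re ∧ z.re ≤ e * q z.im}

/-- the set of prototiles -/
noncomputable def Prot (d e : ℝ) (c K : ℕ) : Set (Set ℂ) := {tA d e c, tB d e c K, tF d e}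

/-! ## Density of a set at a point -/

/-- `T` has density `δ` at `p`. -/
def HasDens (T : Set ℂ) (p : ℂ) (δ : ℝ) : Prop :=
  Tendsto (fun r : ℝ => (volume (T ∩ Metric.ball p r)).toReal / (Real.pi * r ^ 2)) (𝓝[>] 0) (𝓝 δ)

/-- the density of the cone `x ≤ - s |y|` at its apex -/
noncomputable def th (s : ℝ) : ℝ :=
  (volume ({z : ℂ | z.re ≤ -(s * |z.im|)} ∩ Metric.ball 0 1)).toReal / Real.pi

/-- the parameters are such that the spikes have the angle `2π·5/33` and the teeth `2π·5/22` -/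
structure Good (d e : ℝ) : Prop where
  hd : 0 < d
  he : 0 < e
  ha : th (4 * d) = 5 / 33
  hc : th (4 * e) = 5 / 22

/-- the apexes of the spikes of `A` -/
noncomputable def aA (d e : ℝ) : Set ℂ := {z | |z.re| = W d e + d ∧ z.im = 0}

/-- the apexes of the dents of `A` -/
noncomputable def cA (d e : ℝ) (c : ℕ) : Set ℂ :=
  {z | |z.re| = W d e - e ∧ ∃ s : ℤ, s ≠ 0 ∧ |s| ≤ (c : ℤ) ∧ z.im = s}

/-- the apexes of the notches of `B` -/
noncomputable def aB (d e : ℝ) (K : ℕ) : Set ℂ :=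
  {z | |z.re| = W d e - d ∧ ∃ s : ℤ, |s| ≤ (K : ℤ) ∧ z.im = s}

/-- the apexes of the teeth of `B` -/
noncomputable def cB (d e : ℝ) (c K : ℕ) : Set ℂ :=
  {z | |z.re| = W d e + e ∧ ∃ s : ℤ, (K : ℤ) < |s| ∧ |s| ≤ (c : ℤ) + 1 ∧ z.im = s}

/-! ## The big patches -/

/-- the wall of a column of copies of `A` -/
noncomputable def colA (d e : ℝ) (c : ℕ) (y : ℝ) : ℝ :=
  prof (fun s => if (2 * c + 1 : ℤ) ∣ s then d else -e) y

/-- the wall of a column of copies of `B` -/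
noncomputable def colB (d e : ℝ) (c K : ℕ) (y : ℝ) : ℝ :=
  prof (fun s => if |s - (2 * c + 3) * round ((s : ℝ) / (2 * c + 3))| ≤ (K : ℤ) then -d else e) y

/-- the union of the patch -/
noncomputable def UU (d e : ℝ) (c K : ℕ) (I J : ℕ) : Set ℂ :=
  {z | |z.im| ≤ (2 * J + 1) * (c + 1 / 2) ∧ |z.re| ≤ W d e * (4 * I + 3) + colA d e c z.im} ∪
  {z | |z.im| ≤ (2 * J + 1) * (c + 3 / 2) ∧ ∃ i : ℤ, |i| ≤ 2 * I ∧ Even i ∧
    |z.re - 2 * W d e * i| ≤ W d e + colB d e c K z.im}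

/-- the translate of `T` by `x + y i` -/
def tr (T : Set ℂ) (x y : ℝ) : Set ℂ := (fun z : ℂ => z + (⟨x, y⟩ : ℂ)) '' T

/-- the mirror image of `T` in the imaginary axis, translated by `x + y i` -/
def mr (T : Set ℂ) (x y : ℝ) : Set ℂ := (fun z : ℂ => (⟨-z.re, z.im⟩ : ℂ) + (⟨x, y⟩ : ℂ)) '' T

/-- the patch: columns `-(2I+1), …, 2I+1`, odd columns consist of copies of `A`, even columns of
copies of `B`, rows `-J, …, J`, and the free notches are filled by copies of `F` -/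
noncomputable def pat (d e : ℝ) (c K : ℕ) (I J : ℕ) : Set (Set ℂ) :=
  {T | ∃ i j : ℤ, Odd i ∧ |i| ≤ 2 * I + 1 ∧ |j| ≤ J ∧
    T = tr (tA d e c) (2 * W d e * i) (j * (2 * c + 1))} ∪
  {T | ∃ i j : ℤ, Even i ∧ |i| ≤ 2 * I ∧ |j| ≤ J ∧
    T = tr (tB d e c K) (2 * W d e * i) (j * (2 * c + 3))} ∪
  {T | ∃ i j s : ℤ, Even i ∧ |i| ≤ 2 * I ∧ |j| ≤ J ∧ |s| ≤ K ∧ s ≠ -(2 * j) ∧
    (T = tr (tF d e) (2 * W d e * i + W d e) (j * (2 * c + 3) + s) ∨
     T = mr (tF d e) (2 * W d e * i - W d e) (j * (2 * c + 3) + s))}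

end Pool.Agent.R612.SU
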