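import Pool.Agent.R612.SU.Stm

/-!
# Walls of the columns, membership in the tiles of the patch (for SU-UN, SU-DI, SU-DK)
-/

open MeasureTheory Set Filter Topology

namespace Pool.Agent.R612.SU.Geo

open Pool.Agent.R612.SU

theorem q_nonneg (t : ℝ) : 0 ≤ q t := sq_nonneg _

theorem q_zero_of {t : ℝ} (h : 1 / 2 ≤ |t|) : q t = 0 := by
  unfold q
  rw [max_eq_left (by linarith)]
  norm_num

theorem q_le_one (t : ℝ) : q t ≤ 1 := by
  unfold q
  have h1 : 0 ≤ max 0 (1 - 2 * |t|) := le_max_left _ _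
  have h2 : max 0 (1 - 2 * |t|) ≤ 1 := max_le (by norm_num) (by linarith [abs_nonneg t])
  exact pow_le_one₀ h1 h2

theorem q_cont : Continuous q := by
  unfold q
  fun_prop

theorem q_neg (t : ℝ) : q (-t) = q t := by
  unfold q
  rw [abs_neg]

theorem prof_eq (f : ℤ → ℝ) (y : ℝ) (s : ℤ) (h : |y - s| ≤ 1 / 2) :
    prof f y = f s * q (y - s) := by
  unfold prof
  by_cases hs : round y = s
  · rw [hs]
  · have h1 := abs_sub_round y
    have h2 : (1 : ℝ) ≤ |((round y : ℤ) : ℝ) - s| := by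
      have : (1 : ℤ) ≤ |round y - s| := Int.one_le_abs (sub_ne_zero.2 hs)
      exact_mod_cast this
    have h3 : |((round y : ℤ) : ℝ) - s| ≤ |y - round y| + |y - s| := by
      have := abs_sub_le (round y : ℝ) y s
      rwa [abs_sub_comm (round y : ℝ) y] at this
    rw [q_zero_of (by linarith : 1 / 2 ≤ |y - s|),
      q_zero_of (by linarith : 1 / 2 ≤ |y - round y|), mul_zero, mul_zero]

theorem prof_cont (f : ℤ → ℝ) : Continuous (prof f) := by
  rw [continuous_iff_continuousAt]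
  intro y
  have h1 : (⌊y⌋ : ℝ) ≤ y := Int.floor_le y
  have h2 : y < ⌊y⌋ + 1 := Int.lt_floor_add_one y
  have h3 : ContinuousAt (fun x : ℝ => f ⌊y⌋ * q (x - ⌊y⌋) + f (⌊y⌋ + 1) * q (x - (⌊y⌋ + 1 : ℤ))) y := by
    have := q_cont
    fun_prop
  refine h3.congr ?_
  have h4 : Ioo ((⌊y⌋ : ℝ) - 1 / 2) (⌊y⌋ + 3 / 2) ∈ 𝓝 y :=
    Ioo_mem_nhds (by linarith) (by linarith)
  filter_upwards [h4] with x hx
  by_cases h5 : x ≤ ⌊y⌋ + 1 / 2
  · rw [prof_eq f x ⌊y⌋ (abs_le.2 ⟨by linarith [hx.1], by linarith⟩), q_zero_of (t := x - (⌊y⌋ + 1 : ℤ)), mul_zero,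
      add_zero]
    push_cast
    rw [abs_sub_comm]
    refine le_trans ?_ (le_abs_self _)
    linarith
  · push Not at h5
    rw [prof_eq f x (⌊y⌋ + 1) (by
      push_cast
      exact abs_le.2 ⟨by linarith, by linarith [hx.2]⟩), q_zero_of (t := x - ⌊y⌋), mul_zero, zero_add]
    refine le_trans ?_ (le_abs_self _)
    linarith

theorem ex_slot (y : ℝ) (k m : ℤ) (hm : 0 ≤ m) (h : |y - k| ≤ m + 1 / 2) :
    ∃ s : ℤ, |y - s| ≤ 1 / 2 ∧ |s - k| ≤ m := by
  have h1 := abs_sub_round y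
  rw [abs_le] at h h1
  by_cases h2 : round y - k ≤ m
  · by_cases h3 : -m ≤ round y - k
    · exact ⟨round y, abs_sub_round y, abs_le.2 ⟨h3, h2⟩⟩
    · push Not at h3
      have h4 : (round y : ℝ) - k ≤ -m - 1 := by
        have : round y - k ≤ -m - 1 := by omega
        exact_mod_cast this
      refine ⟨k - m, ?_, ?_⟩
      · push_cast
        rw [abs_le]
        constructor <;> linarith [h.1, h.2, h1.1, h1.2]
      · rw [abs_le]
        constructor <;> omega
  · push Not at h2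
    have h4 : (m : ℝ) + 1 ≤ round y - k := by
      have : m + 1 ≤ round y - k := by omega
      exact_mod_cast this
    refine ⟨k + m, ?_, ?_⟩
    · push_cast
      rw [abs_le]
      constructor <;> linarith [h.1, h.2, h1.1, h1.2]
    · rw [abs_le]
      constructor <;> omega

/-- the row of a slot -/
theorem ex_row (s : ℤ) (J m : ℕ) (h : |s| ≤ J * (2 * m + 1) + m) :
    ∃ j : ℤ, |j| ≤ J ∧ |s - j * (2 * m + 1)| ≤ m := by
  have hN : (0 : ℤ) < 2 * m + 1 := by positivity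
  have h1 := Int.emod_nonneg (s + m) hN.ne'
  have h2 := Int.emod_lt_of_pos (s + m) hN
  have h3 := Int.emod_add_mul_ediv (s + m) (2 * m + 1)
  rw [abs_le] at h
  refine ⟨(s + m) / (2 * m + 1), ?_, ?_⟩
  · rw [abs_le]
    constructor
    · by_contra h4
      push Not at h4
      have h5 : (s + m) / (2 * m + 1) ≤ -(J : ℤ) - 1 := by omega
      nlinarith [mul_le_mul_of_nonneg_left h5 hN.le]
    · by_contra h4
      push Not at h4
      have h5 : (J : ℤ) + 1 ≤ (s + m) / (2 * m + 1) := by omega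
      nlinarith [mul_le_mul_of_nonneg_left h5 hN.le]
  · rw [abs_le]
    constructor <;> nlinarith

theorem row_unique (s j : ℤ) (m : ℕ) (h : |s - j * (2 * m + 1)| ≤ m) :
    (s + m) / (2 * m + 1) = j := by
  have hN : (0 : ℤ) < 2 * m + 1 := by positivity
  rw [abs_le] at h
  rw [Int.ediv_eq_iff_of_pos hN]
  constructor <;> nlinarith

/-! ## Membership -/

theorem mem_tr (T : Set ℂ) (x y : ℝ) (z : ℂ) :
    z ∈ tr T x y ↔ (⟨z.re - x, z.im - y⟩ : ℂ) ∈ T := by
  unfold tr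
  constructor
  · rintro ⟨w, hw, rfl⟩
    simpa using hw
  · intro h
    exact ⟨_, h, by apply Complex.ext <;> simp⟩

theorem mem_mr (T : Set ℂ) (x y : ℝ) (z : ℂ) :
    z ∈ mr T x y ↔ (⟨x - z.re, z.im - y⟩ : ℂ) ∈ T := by
  unfold mr
  constructor
  · rintro ⟨w, hw, rfl⟩
    have h1 : (⟨x - ((⟨-w.re, w.im⟩ : ℂ) + (⟨x, y⟩ : ℂ)).re,
        ((⟨-w.re, w.im⟩ : ℂ) + (⟨x, y⟩ : ℂ)).im - y⟩ : ℂ) = w := by
      apply Complex.ext <;> simp
    simp only [h1]
    exact hw
  · intro h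
    exact ⟨_, h, by apply Complex.ext <;> simp⟩

section amp

variable (d e : ℝ) (c K : ℕ)

/-- amplitude of `colA` -/
noncomputable def Aa (s : ℤ) : ℝ := if (2 * c + 1 : ℤ) ∣ s then d else -e

/-- amplitude of `colB` -/
noncomputable def Bb (s : ℤ) : ℝ :=
  if |s - (2 * c + 3) * round ((s : ℝ) / (2 * c + 3))| ≤ (K : ℤ) then -d else e

variable {d e c K}

theorem colA_eq {y : ℝ} {s : ℤ} (h : |y - s| ≤ 1 / 2) : colA d e c y = Aa d e c s * q (y - s) :=
  prof_eq _ y s h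

theorem colB_eq {y : ℝ} {s : ℤ} (h : |y - s| ≤ 1 / 2) :
    colB d e c K y = Bb d e c K s * q (y - s) :=
  prof_eq _ y s h

theorem Aa_row {s j : ℤ} (h : |s - j * (2 * c + 1)| ≤ c) :
    Aa d e c s = fa d e (s - j * (2 * c + 1)) := by
  unfold Aa fa
  by_cases h1 : s - j * (2 * c + 1) = 0
  · rw [if_pos h1, if_pos]
    exact ⟨j, by linarith⟩
  · rw [if_neg h1, if_neg]
    intro h2
    apply h1
    have h3 : (2 * c + 1 : ℤ) ∣ s - j * (2 * c + 1) := dvd_sub h2 (dvd_mul_left _ _)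
    refine Int.eq_zero_of_abs_lt_dvd h3 ?_
    refine lt_of_le_of_lt h ?_
    have : (0 : ℤ) ≤ c := by positivity
    linarith

theorem round_row {s j : ℤ} (h : |s - j * (2 * c + 3)| ≤ c + 1) :
    round ((s : ℝ) / (2 * c + 3)) = j := by
  have hN : (0 : ℝ) < 2 * c + 3 := by positivity
  rw [round_eq, Int.floor_eq_iff]
  have h1 : |(s : ℝ) - j * (2 * c + 3)| ≤ c + 1 := by exact_mod_cast h
  rw [abs_le] at h1
  constructor
  · rw [← sub_le_iff_le_add, le_div_iff₀ hN]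
    nlinarith [h1.1, h1.2]
  · rw [← lt_sub_iff_add_lt, div_lt_iff₀ hN]
    nlinarith [h1.1, h1.2]

theorem Bb_row {s j : ℤ} (h : |s - j * (2 * c + 3)| ≤ c + 1) :
    Bb d e c K s = fb d e K (s - j * (2 * c + 3)) := by
  unfold Bb fb
  rw [round_row h, mul_comm (2 * (c : ℤ) + 3) j]

theorem Aa_le (hd : 0 < d) (he : 0 < e) (s : ℤ) : Aa d e c s ≤ d := by
  unfold Aa
  split_ifs <;> linarith

theorem le_Aa (hd : 0 < d) (he : 0 < e) (s : ℤ) : -e ≤ Aa d e c s := by
  unfold Aa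
  split_ifs <;> linarith

theorem Bb_le (hd : 0 < d) (he : 0 < e) (s : ℤ) : Bb d e c K s ≤ e := by
  unfold Bb
  split_ifs <;> linarith

theorem le_Bb (hd : 0 < d) (he : 0 < e) (s : ℤ) : -d ≤ Bb d e c K s := by
  unfold Bb
  split_ifs <;> linarith

theorem colA_bd (hd : 0 < d) (he : 0 < e) (y : ℝ) :
    -e ≤ colA d e c y ∧ colA d e c y ≤ d := by
  rw [colA_eq (abs_sub_round y)]
  have h1 := q_nonneg (y - round y)
  have h2 := q_le_one (y - round y)
  have h3 := Aa_le (c := c) hd he (round y)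
  have h4 := le_Aa (c := c) hd he (round y)
  constructor <;> nlinarith

theorem colB_bd (hd : 0 < d) (he : 0 < e) (y : ℝ) :
    -d ≤ colB d e c K y ∧ colB d e c K y ≤ e := by
  rw [colB_eq (abs_sub_round y)]
  have h1 := q_nonneg (y - round y)
  have h2 := q_le_one (y - round y)
  have h3 := Bb_le (c := c) (K := K) hd he (round y)
  have h4 := le_Bb (c := c) (K := K) hd he (round y)
  constructor <;> nlinarith

/-- the amplitudes of neighbouring walls -/
theorem key {s : ℤ} {J : ℕ} (hJ : 2 * J ≤ K) (hK : 2 * K ≤ c) (hs : |s| ≤ J * (2 * c + 1) + c) :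
    (Aa d e c s = d ∧ Bb d e c K s = -d) ∨ (Aa d e c s = -e ∧ Bb d e c K s = e) ∨
      (Aa d e c s = -e ∧ Bb d e c K s = -d) := by
  have h1 : Aa d e c s = d ∧ Bb d e c K s = -d ∨ Aa d e c s = -e := by
    by_cases h2 : (2 * c + 1 : ℤ) ∣ s
    · left
      refine ⟨if_pos h2, ?_⟩
      obtain ⟨j, hj⟩ := h2
      obtain ⟨j', hj', h3⟩ := ex_row s J c hs
      have h4 : j = j' := by
        have h5 : (2 * c + 1 : ℤ) ∣ s - j' * (2 * c + 1) :=
          dvd_sub ⟨j, hj⟩ (dvd_mul_left _ _)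
        have h6 := Int.eq_zero_of_abs_lt_dvd h5 (lt_of_le_of_lt h3 (by linarith))
        have h7 : (2 * (c : ℤ) + 1) ≠ 0 := by positivity
        have h8 : (2 * (c : ℤ) + 1) * (j - j') = 0 := by rw [hj] at h6; linarith
        rcases mul_eq_zero.1 h8 with h9 | h9
        · exact absurd h9 h7
        · linarith
      subst h4
      have hJ' : (2 * J : ℤ) ≤ K := by exact_mod_cast hJ
      have hK' : (2 * K : ℤ) ≤ c := by exact_mod_cast hK
      have h10 : s - j * (2 * c + 3) = -(2 * j) := by rw [hj]; ring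
      have h11 : |s - j * (2 * c + 3)| ≤ K := by
        rw [h10, abs_neg, abs_mul]
        have : |(2 : ℤ)| = 2 := rfl
        rw [this]
        linarith
      have h12 : |s - j * (2 * c + 3)| ≤ c + 1 := by
        have : (0 : ℤ) ≤ K := by positivity
        linarith
      rw [Bb_row h12]
      unfold fb
      rw [if_pos h11]
    · right
      exact if_neg h2
  rcases h1 with h1 | h1
  · exact Or.inl h1
  · right
    unfold Bb
    split_ifs with h2
    · exact Or.inr ⟨h1, rfl⟩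
    · exact Or.inl ⟨h1, rfl⟩

theorem colA_row {y : ℝ} {j : ℤ} (h : |y - j * (2 * c + 1)| ≤ c + 1 / 2) :
    prof (fa d e) (y - j * (2 * c + 1)) = colA d e c y := by
  obtain ⟨s, h1, h2⟩ := ex_slot y (j * (2 * c + 1)) c (by positivity) (by push_cast; exact h)
  rw [colA_eq h1, Aa_row h2, prof_eq (fa d e) (y - j * (2 * c + 1)) (s - j * (2 * c + 1))]
  · congr 2
    push_cast
    ring
  · push_cast
    rw [show y - (j : ℝ) * (2 * c + 1) - (s - j * (2 * c + 1)) = y - s by ring]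
    exact h1

theorem colB_row {y : ℝ} {j : ℤ} (h : |y - j * (2 * c + 3)| ≤ c + 3 / 2) :
    prof (fb d e K) (y - j * (2 * c + 3)) = colB d e c K y := by
  obtain ⟨s, h1, h2⟩ := ex_slot y (j * (2 * c + 3)) (c + 1) (by positivity) (by
    push_cast
    linarith)
  rw [colB_eq h1, Bb_row h2, prof_eq (fb d e K) (y - j * (2 * c + 3)) (s - j * (2 * c + 3))]
  · congr 2
    push_cast
    ring
  · push_cast
    rw [show y - (j : ℝ) * (2 * c + 3) - (s - j * (2 * c + 3)) = y - s by ring]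
    exact h1

theorem memA (i j : ℤ) (z : ℂ) :
    z ∈ tr (tA d e c) (2 * W d e * i) (j * (2 * c + 1)) ↔
      |z.im - j * (2 * c + 1)| ≤ c + 1 / 2 ∧ |z.re - 2 * W d e * i| ≤ W d e + colA d e c z.im := by
  rw [mem_tr]
  unfold tA
  simp only [mem_ofPred_eq]
  constructor
  · rintro ⟨h1, h2⟩
    refine ⟨h1, ?_⟩
    rwa [colA_row h1] at h2
  · rintro ⟨h1, h2⟩
    refine ⟨h1, ?_⟩
    rwa [colA_row h1]

theorem memB (i j : ℤ) (z : ℂ) :
    z ∈ tr (tB d e c K) (2 * W d e * i) (j * (2 * c + 3)) ↔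
      |z.im - j * (2 * c + 3)| ≤ c + 3 / 2 ∧
        |z.re - 2 * W d e * i| ≤ W d e + colB d e c K z.im := by
  rw [mem_tr]
  unfold tB
  simp only [mem_ofPred_eq]
  constructor
  · rintro ⟨h1, h2⟩
    refine ⟨h1, ?_⟩
    rwa [colB_row h1] at h2
  · rintro ⟨h1, h2⟩
    refine ⟨h1, ?_⟩
    rwa [colB_row h1]

theorem memF (x y : ℝ) (z : ℂ) :
    z ∈ tr (tF d e) x y ↔ |z.im - y| ≤ 1 / 2 ∧
      -(d * q (z.im - y)) ≤ z.re - x ∧ z.re - x ≤ e * q (z.im - y) := by
  rw [mem_tr]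
  unfold tF
  simp only [mem_ofPred_eq]

theorem memF' (x y : ℝ) (z : ℂ) :
    z ∈ mr (tF d e) x y ↔ |z.im - y| ≤ 1 / 2 ∧
      -(d * q (z.im - y)) ≤ x - z.re ∧ x - z.re ≤ e * q (z.im - y) := by
  rw [mem_mr]
  unfold tF
  simp only [mem_ofPred_eq]

end amp

end Pool.Agent.R612.SU.Geo
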