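import Pool.Agent.R612.SU.Stm

/-! PIECE IS of the project SU (MP_ae4adf_co): patches are preserved by isometries, `pat` is finite
and consists of tiles. -/

open MeasureTheory Set Filter Topology

namespace Pool.Agent.R612.SU

namespace IS

theorem interior_image (g : ℂ ≃ᵢ ℂ) (T : Set ℂ) : interior (g '' T) = g '' interior T :=
  (g.toHomeomorph.image_interior T).symm

theorem sUnion_image' (g : ℂ ≃ᵢ ℂ) (F : Set (Set ℂ)) :
    ⋃₀ ((fun T => g '' T) '' F) = g '' ⋃₀ F := by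
  rw [sUnion_image, sUnion_eq_biUnion, image_iUnion₂]

theorem tile_image {S : Set (Set ℂ)} {T : Set ℂ} (g : ℂ ≃ᵢ ℂ) (h : IsTile S T) :
    IsTile S (g '' T) := by
  obtain ⟨P, hP, g0, rfl⟩ := h
  exact ⟨P, hP, g0.trans g, by rw [← image_comp]; rfl⟩

theorem disk_image {D : Set ℂ} (g : ℂ ≃ᵢ ℂ) (h : IsDisk D) : IsDisk (g '' D) := by
  obtain ⟨f⟩ := h
  exact ⟨(g.toHomeomorph.image D).symm.trans f⟩

theorem patch_image (S F : Set (Set ℂ)) (g : ℂ ≃ᵢ ℂ) (h : IsPatch S F) :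
    IsPatch S ((fun T => g '' T) '' F) := by
  obtain ⟨h1, h2, h3, h4⟩ := h
  refine ⟨h1.image _, ?_, ?_, ?_⟩
  · rintro _ ⟨T, hT, rfl⟩
    exact tile_image g (h2 T hT)
  · rintro _ ⟨T, hT, rfl⟩ _ ⟨T', hT', rfl⟩ hne
    have hne' : T ≠ T' := fun h => hne (by rw [h])
    simp only [interior_image]
    rw [← image_inter g.injective, h3 T hT T' hT' hne', image_empty]
  · rw [sUnion_image']
    exact disk_image g h4

theorem surrounds_image (F G : Set (Set ℂ)) (g : ℂ ≃ᵢ ℂ) (h : Surrounds G F) :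
    Surrounds ((fun T => g '' T) '' G) ((fun T => g '' T) '' F) := by
  refine ⟨image_mono h.1, ?_⟩
  rw [sUnion_image', sUnion_image', interior_image]
  exact image_mono h.2

theorem tr_tile {S : Set (Set ℂ)} {P : Set ℂ} (hP : P ∈ S) (x y : ℝ) : IsTile S (tr P x y) :=
  ⟨P, hP, IsometryEquiv.addRight (⟨x, y⟩ : ℂ), rfl⟩

/-- the reflection in the imaginary axis -/
noncomputable def refl : ℂ ≃ᵢ ℂ :=
  Complex.conjLIE.toIsometryEquiv.trans (IsometryEquiv.neg ℂ)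

theorem refl_apply (z : ℂ) : refl z = (⟨-z.re, z.im⟩ : ℂ) := by
  change -((starRingEnd ℂ) z) = _
  apply Complex.ext <;> simp

theorem mr_tile {S : Set (Set ℂ)} {P : Set ℂ} (hP : P ∈ S) (x y : ℝ) : IsTile S (mr P x y) := by
  refine ⟨P, hP, refl.trans (IsometryEquiv.addRight (⟨x, y⟩ : ℂ)), ?_⟩
  unfold mr
  congr 1
  funext z
  change _ = refl z + (⟨x, y⟩ : ℂ)
  rw [refl_apply]

theorem fin_int (n : ℤ) : {i : ℤ | |i| ≤ n}.Finite := by
  have : {i : ℤ | |i| ≤ n} ⊆ Icc (-n) n := by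
    intro i hi
    exact abs_le.1 hi
  exact (finite_Icc (-n) n).subset this

theorem pat_finite (d e : ℝ) (c K I J : ℕ) : (pat d e c K I J).Finite := by
  unfold pat
  refine ((?_ : Set.Finite _).union (?_ : Set.Finite _)).union (?_ : Set.Finite _)
  · refine (((fin_int (2 * I + 1)).prod (fin_int J)).image (fun p : ℤ × ℤ =>
      tr (tA d e c) (2 * W d e * p.1) (p.2 * (2 * c + 1)))).subset ?_
    rintro T ⟨i, j, -, hi, hj, rfl⟩
    exact ⟨(i, j), ⟨hi, hj⟩, rfl⟩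
  · refine (((fin_int (2 * I)).prod (fin_int J)).image (fun p : ℤ × ℤ =>
      tr (tB d e c K) (2 * W d e * p.1) (p.2 * (2 * c + 3)))).subset ?_
    rintro T ⟨i, j, -, hi, hj, rfl⟩
    exact ⟨(i, j), ⟨hi, hj⟩, rfl⟩
  · have hfin := ((fin_int (2 * I)).prod ((fin_int J).prod (fin_int K)))
    refine ((hfin.image (fun p : ℤ × ℤ × ℤ =>
      tr (tF d e) (2 * W d e * p.1 + W d e) (p.2.1 * (2 * c + 3) + p.2.2))).union
      (hfin.image (fun p : ℤ × ℤ × ℤ =>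
      mr (tF d e) (2 * W d e * p.1 - W d e) (p.2.1 * (2 * c + 3) + p.2.2)))).subset ?_
    rintro T ⟨i, j, s, -, hi, hj, hs, -, rfl | rfl⟩
    · exact Or.inl ⟨(i, j, s), ⟨hi, hj, hs⟩, rfl⟩
    · exact Or.inr ⟨(i, j, s), ⟨hi, hj, hs⟩, rfl⟩

theorem pat_tile (d e : ℝ) (c K I J : ℕ) : ∀ T ∈ pat d e c K I J, IsTile (Prot d e c K) T := by
  rintro T ((⟨i, j, -, -, -, rfl⟩ | ⟨i, j, -, -, -, rfl⟩) | ⟨i, j, s, -, -, -, -, -, rfl | rfl⟩)
  · exact tr_tile (by simp [Prot]) _ _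
  · exact tr_tile (by simp [Prot]) _ _
  · exact tr_tile (by simp [Prot]) _ _
  · exact mr_tile (by simp [Prot]) _ _

end IS

theorem stIS : StIS :=
  ⟨IS.patch_image, IS.surrounds_image, fun d e c K I J =>
    ⟨IS.pat_finite d e c K I J, IS.pat_tile d e c K I J⟩⟩

end Pool.Agent.R612.SU
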