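import Pool.Agent.R612.SU.Cnt4

/-!
# The assembly
-/

open MeasureTheory Set Filter Topology

namespace Pool.Agent.R612.SU

theorem tr_image (T : Set ℂ) (x y : ℝ) :
    tr T x y = (IsometryEquiv.addRight (⟨x, y⟩ : ℂ)) '' T := rfl

theorem pat_mono (d e : ℝ) (c K : ℕ) {I J I' J' : ℕ} (hI : I ≤ I') (hJ : J ≤ J') :
    pat d e c K I J ⊆ pat d e c K I' J' := by
  have h1 : (I : ℤ) ≤ I' := by exact_mod_cast hI
  have h2 : (J : ℤ) ≤ J' := by exact_mod_cast hJ
  rintro T ((⟨i, j, a1, a2, a3, a4⟩ | ⟨i, j, a1, a2, a3, a4⟩) | ⟨i, j, s, a1, a2, a3, a4, a5, a6⟩)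
  · exact Or.inl (Or.inl ⟨i, j, a1, by omega, by omega, a4⟩)
  · exact Or.inl (Or.inr ⟨i, j, a1, by omega, by omega, a4⟩)
  · exact Or.inr ⟨i, j, s, a1, by omega, by omega, a4, a5, a6⟩

theorem Prot_ncard (hTH : StTH) (hDG : StDG) (hDF : StDF) {d e : ℝ} {c K : ℕ} (hg : Good d e)
    (hK : K ≤ c) : (Prot d e c K).ncard = 3 := by
  have hA : (X (5 / 33) (tA d e c)).ncard = 2 := by
    rw [(XA hTH hDG hg).1, ncard_aA hg]
  have hB : (X (5 / 33) (tB d e c K)).ncard = 0 := by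
    rw [(XB hTH hDG hg hK).1, Set.ncard_empty]
  have hF : (X (5 / 33) (tF d e)).ncard = 1 := by
    rw [(XF hDF hg).1, Set.ncard_singleton]
  unfold Prot
  rw [Set.ncard_insert_of_notMem, Set.ncard_insert_of_notMem, Set.ncard_singleton]
  · rw [mem_singleton_iff]
    intro h
    rw [h] at hB
    omega
  · rw [mem_insert_iff, mem_singleton_iff]
    rintro (h | h)
    · rw [h] at hA
      omega
    · rw [h] at hA
      omega

/-- the prototiles are pairwise non-congruent -/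
theorem Prot_noncongr (hTH : StTH) (hDG : StDG) (hDF : StDF) {d e : ℝ} {c K : ℕ} (hg : Good d e)
    (hK : K ≤ c) : ∀ P ∈ Prot d e c K, ∀ Q ∈ Prot d e c K, ∀ g : ℂ ≃ᵢ ℂ, Q = g '' P → Q = P := by
  have hA : (X (5 / 33) (tA d e c)).ncard = 2 := by
    rw [(XA hTH hDG hg).1, ncard_aA hg]
  have hB : (X (5 / 33) (tB d e c K)).ncard = 0 := by
    rw [(XB hTH hDG hg hK).1, Set.ncard_empty]
  have hF : (X (5 / 33) (tF d e)).ncard = 1 := by
    rw [(XF hDF hg).1, Set.ncard_singleton]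
  intro P hP Q hQ g h
  have h1 : (X (5 / 33) Q).ncard = (X (5 / 33) P).ncard := by rw [h, X_im_card]
  rcases hP with rfl | rfl | rfl <;> rcases hQ with rfl | rfl | rfl <;> first | rfl | omega

/-- every prototile can be surrounded many times -/
theorem surround (hDU : StDU) (hUN : StUN) (hDI : StDI) (hNE : StNE)
    (hIS : StIS) {d e : ℝ} {c K : ℕ} (hd : 0 < d) (he : 0 < e) (k : ℕ) (hK1 : 1 ≤ K)
    (hkK : 2 * k ≤ K) (hKc : 2 * K ≤ c) {F : Set (Set ℂ)} (hF : IsPatch (Prot d e c K) F)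
    (hF1 : F.ncard = 1) : CanSurround (Prot d e c K) F k := by
  obtain ⟨T, rfl⟩ := Set.ncard_eq_one.1 hF1
  obtain ⟨hI1, hI2, hI3⟩ := hIS
  -- the patches
  have hpat : ∀ i : ℕ, i ≤ k → IsPatch (Prot d e c K) (pat d e c K i i) := by
    intro i hi
    refine ⟨(hI3 d e c K i i).1, (hI3 d e c K i i).2, hDI d e c K i i hd he (by omega) hKc, ?_⟩
    rw [hUN d e c K i i hd he (by omega) hKc]
    exact hDU d e c K i i hd he (by omega) hKc
  have hsur : ∀ i : ℕ, i < k →
      Surrounds (pat d e c K (i + 1) (i + 1)) (pat d e c K i i) := by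
    intro i hi
    refine ⟨pat_mono d e c K (by omega) (by omega), ?_⟩
    rw [hUN d e c K i i hd he (by omega) hKc, hUN d e c K (i + 1) (i + 1) hd he (by omega) hKc]
    exact hNE.1 d e c K i i hd he (by omega)
  -- the position of the tile in the patch
  have hT0 : ∃ (g' : ℂ ≃ᵢ ℂ) (T0 : Set ℂ), T = g' '' T0 ∧ T0 ∈ pat d e c K 1 1 ∧
      T0 ⊆ interior (UU d e c K 1 1) := by
    obtain ⟨P, hP, g, hgT⟩ := hF.2.1 T rfl
    obtain ⟨n1, n2, n3⟩ := hNE.2 d e c K hd he hK1 (by omega)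
    have pos : ∀ x y : ℝ, ∃ g' : ℂ ≃ᵢ ℂ, T = g' '' tr P x y := by
      intro x y
      refine ⟨(IsometryEquiv.addRight (⟨x, y⟩ : ℂ)).symm.trans g, ?_⟩
      rw [tr_image, ← image_comp, hgT]
      congr 1
      funext z
      simp
    rcases hP with rfl | rfl | rfl
    · obtain ⟨g', hg'⟩ := pos (2 * W d e * 1) 0
      exact ⟨g', _, hg', Or.inl (Or.inl ⟨1, 0, by decide, by norm_num, by norm_num,
        by norm_num⟩), n1⟩
    · obtain ⟨g', hg'⟩ := pos 0 0
      exact ⟨g', _, hg', Or.inl (Or.inr ⟨0, 0, by decide, by norm_num, by norm_num,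
        by norm_num⟩), n2⟩
    · obtain ⟨g', hg'⟩ := pos (W d e) 1
      exact ⟨g', _, hg', Or.inr ⟨0, 0, 1, by decide, by norm_num, by norm_num,
        by rw [abs_one]; exact_mod_cast hK1, by norm_num, Or.inl (by norm_num)⟩, n3⟩
  obtain ⟨g', T0, hTT, hT0m, hT0i⟩ := hT0
  refine ⟨fun i => if i = 0 then {T} else (fun T => g' '' T) '' pat d e c K i i, by simp, ?_, ?_⟩
  · intro i hi
    by_cases h0 : i = 0
    · simp only [h0, if_true]
      exact hF
    · simp only [h0, if_false]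
      exact hI1 _ _ g' (hpat i hi)
  · intro i hi
    by_cases h0 : i = 0
    · subst h0
      simp only [zero_add, one_ne_zero, if_false, if_true]
      have h1 : Surrounds (pat d e c K 1 1) {T0} := by
        refine ⟨by simpa using hT0m, ?_⟩
        rw [sUnion_singleton, hUN d e c K 1 1 hd he (by omega) hKc]
        exact hT0i
      have h2 := hI2 _ _ g' h1
      rw [image_singleton, ← hTT] at h2
      exact h2
    · simp only [h0, Nat.add_eq_zero_iff, false_and, if_false]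
      exact hI2 _ _ g' (hsur i hi)

/-- The main theorem. -/
theorem main (hTH : StTH) (hDG : StDG) (hDF : StDF) (hSUM : StSUM) (hOV : StOV)
    (hDK : StDK) (hDU : StDU) (hUN : StUN) (hDI : StDI) (hNE : StNE) (hIS : StIS) (k : ℕ) :
    ∃ S : Set (Set ℂ), S.ncard = 3 ∧ (∀ P ∈ S, IsDisk P) ∧
      (∀ P ∈ S, ∀ Q ∈ S, ∀ g : ℂ ≃ᵢ ℂ, Q = g '' P → Q = P) ∧ ¬ Tiles S ∧
      (∃ F, IsPatch S F ∧ F.ncard = 1) ∧
      ∀ F, IsPatch S F → F.ncard = 1 → CanSurround S F k := by
  obtain ⟨d, e, hg⟩ := hTH.2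
  obtain ⟨h1, h2, h3⟩ := hDK d e (4 * k + 4) (2 * k + 2) hg.hd hg.he
  refine ⟨Prot d e (4 * k + 4) (2 * k + 2), Prot_ncard hTH hDG hDF hg (by omega), ?_,
    Prot_noncongr hTH hDG hDF hg (by omega), not_tiles hTH hDG hDF hSUM hOV hg (by omega), ?_, ?_⟩
  · rintro P (rfl | rfl | rfl)
    · exact h1
    · exact h2
    · exact h3
  · refine ⟨{tA d e (4 * k + 4)}, ⟨Set.finite_singleton _, ?_, ?_, ?_⟩, Set.ncard_singleton _⟩
    · intro T hT
      rw [mem_singleton_iff] at hT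
      refine ⟨tA d e (4 * k + 4), Or.inl rfl, IsometryEquiv.refl ℂ, ?_⟩
      rw [hT]
      exact (image_id _).symm
    · intro T hT T' hT' h
      rw [mem_singleton_iff] at hT hT'
      exact (h (hT.trans hT'.symm)).elim
    · rw [sUnion_singleton]
      exact h1
  · intro F hF hF1
    exact surround hDU hUN hDI hNE hIS hg.hd hg.he k (by omega) (by omega) (by omega) hF hF1

end Pool.Agent.R612.SU
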