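import Pool.Agent.R612.SU.Stm

/-!
# Piece SUM: in a tiling the densities at a point sum up to one; local finiteness (MP_ae4adf_co)
-/

set_option autoImplicit false

open MeasureTheory Set Filter Topology

namespace Pool.Agent.R612.SU.SUM

/-! ### the profile -/

theorem q_nonneg (t : ℝ) : 0 ≤ q t := sq_nonneg _

theorem q_le_one (t : ℝ) : q t ≤ 1 := by
  unfold q
  have h1 : 0 ≤ max 0 (1 - 2 * |t|) := le_max_left _ _
  have h2 : max 0 (1 - 2 * |t|) ≤ 1 := max_le zero_le_one (by linarith [abs_nonneg t])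
  nlinarith

theorem q_eq_zero {t : ℝ} (h : 1 / 2 ≤ |t|) : q t = 0 := by
  unfold q
  rw [max_eq_left (by linarith)]
  norm_num

theorem q_cont : Continuous q := by
  unfold q
  fun_prop

theorem prof_abs (f : ℤ → ℝ) (y : ℝ) : |prof f y| ≤ |f (round y)| := by
  unfold prof
  rw [abs_mul, abs_of_nonneg (q_nonneg _)]
  exact mul_le_of_le_one_right (abs_nonneg _) (q_le_one _)

theorem q_ne {y : ℝ} {k : ℤ} (h : k ≠ round y) : q (y - k) = 0 := by
  apply q_eq_zero
  have h1 := abs_sub_round y
  have h2 : (1 : ℝ) ≤ |(k : ℝ) - round y| := by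
    have : (1 : ℤ) ≤ |k - round y| := Int.one_le_abs (sub_ne_zero.2 h)
    exact_mod_cast this
  have h3 : |(k : ℝ) - round y| ≤ |y - k| + |y - round y| := by
    have : (k : ℝ) - round y = -(y - k) + (y - round y) := by ring
    rw [this]
    refine (abs_add_le _ _).trans ?_
    rw [abs_neg]
  linarith

theorem prof_local (f : ℤ → ℝ) {y : ℝ} {s : ℤ} (h : |y - s| < 1) :
    prof f y = f (s - 1) * q (y - ((s - 1 : ℤ) : ℝ)) + f s * q (y - s) +
      f (s + 1) * q (y - ((s + 1 : ℤ) : ℝ)) := by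
  have h1 := abs_sub_round y
  have h2 : |round y - s| < 2 := by
    have h3 : |(round y : ℝ) - s| ≤ |y - s| + |y - round y| := by
      have : (round y : ℝ) - s = (y - s) + -(y - round y) := by ring
      rw [this]
      refine (abs_add_le _ _).trans ?_
      rw [abs_neg]
    have h4 : |(round y : ℝ) - s| < 2 := by linarith
    exact_mod_cast h4
  rw [abs_lt] at h2
  have h5 : round y = s - 1 ∨ round y = s ∨ round y = s + 1 := by omega
  unfold prof
  rcases h5 with h5 | h5 | h5
  · rw [h5, q_ne (y := y) (k := s) (by omega), q_ne (y := y) (k := s + 1) (by omega)]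
    ring
  · rw [h5, q_ne (y := y) (k := s - 1) (by omega), q_ne (y := y) (k := s + 1) (by omega)]
    ring
  · rw [h5, q_ne (y := y) (k := s) (by omega), q_ne (y := y) (k := s - 1) (by omega)]
    ring

theorem prof_cont (f : ℤ → ℝ) : Continuous (prof f) := by
  rw [continuous_iff_continuousAt]
  intro y0
  have h1 := abs_sub_round y0
  have h2 : ContinuousAt (fun y : ℝ => f (round y0 - 1) * q (y - ((round y0 - 1 : ℤ) : ℝ)) +
      f (round y0) * q (y - (round y0 : ℤ)) +
      f (round y0 + 1) * q (y - ((round y0 + 1 : ℤ) : ℝ))) y0 := by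
    apply Continuous.continuousAt
    have := q_cont
    fun_prop
  refine h2.congr ?_
  have h3 : ∀ᶠ y : ℝ in 𝓝 y0, |y - ((round y0 : ℤ) : ℝ)| < 1 := by
    have h4 : ContinuousAt (fun y : ℝ => |y - ((round y0 : ℤ) : ℝ)|) y0 := by
      apply Continuous.continuousAt; fun_prop
    have h5 : |y0 - ((round y0 : ℤ) : ℝ)| < 1 := by linarith
    exact h4.eventually_lt continuousAt_const h5
  filter_upwards [h3] with y hy
  exact (prof_local f hy).symm

/-! ### null sets -/

theorem graph_null {u : ℝ → ℝ} (hu : Continuous u) :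
    volume {z : ℂ | z.im = u z.re} = 0 := by
  have h1 : MeasurableSet {p : ℝ × ℝ | p.2 = u p.1} :=
    (isClosed_eq continuous_snd (hu.comp continuous_fst)).measurableSet
  have h2 : {z : ℂ | z.im = u z.re} =
      Complex.measurableEquivRealProd ⁻¹' {p : ℝ × ℝ | p.2 = u p.1} := rfl
  rw [h2, Complex.volume_preserving_equiv_real_prod.measure_preimage h1.nullMeasurableSet,
    Measure.volume_eq_prod, Measure.measure_prod_null h1]
  refine Eventually.of_forall fun x => ?_
  have : Prod.mk x ⁻¹' {p : ℝ × ℝ | p.2 = u p.1} = {u x} := by ext y; simp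
  simp only [this, Pi.zero_apply]
  exact Real.volume_singleton

theorem graph_null' {u : ℝ → ℝ} (hu : Continuous u) :
    volume {z : ℂ | z.re = u z.im} = 0 := by
  have h1 : MeasurableSet {p : ℝ × ℝ | p.2 = u p.1} :=
    (isClosed_eq continuous_snd (hu.comp continuous_fst)).measurableSet
  have h2 : {z : ℂ | z.re = u z.im} =
      (fun z => Prod.swap (Complex.measurableEquivRealProd z)) ⁻¹' {p : ℝ × ℝ | p.2 = u p.1} := rfl
  have hmp : MeasurePreserving (fun z => Prod.swap (Complex.measurableEquivRealProd z))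
      (volume : Measure ℂ) ((volume : Measure ℝ).prod (volume : Measure ℝ)) :=
    (Measure.measurePreserving_swap (μ := (volume : Measure ℝ)) (ν := (volume : Measure ℝ))).comp
      Complex.volume_preserving_equiv_real_prod
  rw [h2, hmp.measure_preimage h1.nullMeasurableSet, Measure.measure_prod_null h1]
  refine Eventually.of_forall fun x => ?_
  have : Prod.mk x ⁻¹' {p : ℝ × ℝ | p.2 = u p.1} = {u x} := by ext y; simp
  simp only [this, Pi.zero_apply]
  exact Real.volume_singleton

theorem region_null {l u : ℝ → ℝ} (hl : Continuous l) (hu : Continuous u) (H : ℝ) {P : Set ℂ}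
    (hP : P = {z : ℂ | |z.im| ≤ H ∧ l z.im ≤ z.re ∧ z.re ≤ u z.im}) :
    IsClosed P ∧ volume (P \ interior P) = 0 := by
  subst hP
  constructor
  · exact (isClosed_le (continuous_abs.comp Complex.continuous_im) continuous_const).inter
      ((isClosed_le (hl.comp Complex.continuous_im) Complex.continuous_re).inter
        (isClosed_le Complex.continuous_re (hu.comp Complex.continuous_im)))
  · have ho : IsOpen {z : ℂ | |z.im| < H ∧ l z.im < z.re ∧ z.re < u z.im} := by
      exact (isOpen_lt (continuous_abs.comp Complex.continuous_im) continuous_const).inter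
        ((isOpen_lt (hl.comp Complex.continuous_im) Complex.continuous_re).inter
          (isOpen_lt Complex.continuous_re (hu.comp Complex.continuous_im)))
    have hsub : {z : ℂ | |z.im| < H ∧ l z.im < z.re ∧ z.re < u z.im} ⊆
        interior {z : ℂ | |z.im| ≤ H ∧ l z.im ≤ z.re ∧ z.re ≤ u z.im} :=
      interior_maximal (fun z hz => ⟨hz.1.le, hz.2.1.le, hz.2.2.le⟩) ho
    refine measure_mono_null (t := ({z : ℂ | z.im = (fun _ => H) z.re} ∪
      {z : ℂ | z.im = (fun _ => -H) z.re}) ∪ ({z : ℂ | z.re = l z.im} ∪ {z : ℂ | z.re = u z.im})) ?_ ?_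
    · intro z hz
      obtain ⟨⟨h1, h2, h3⟩, h4⟩ := hz
      by_contra hc
      simp only [mem_union, mem_ofPred_eq, not_or] at hc
      apply h4
      apply hsub
      refine ⟨lt_of_le_of_ne h1 ?_, lt_of_le_of_ne h2 (Ne.symm hc.2.1), lt_of_le_of_ne h3 hc.2.2⟩
      intro h5
      rcases eq_or_eq_neg_of_abs_eq h5 with h6 | h6
      · exact hc.1.1 h6
      · exact hc.1.2 h6
    · rw [measure_union_null_iff, measure_union_null_iff, measure_union_null_iff]
      exact ⟨⟨graph_null continuous_const, graph_null continuous_const⟩, graph_null' hl,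
        graph_null' hu⟩

theorem vol_image (g : ℂ ≃ᵢ ℂ) (s : Set ℂ) : volume (g '' s) = volume s := by
  rw [← InnerProductSpace.euclideanHausdorffMeasure_eq_volume (V := ℂ)]
  exact g.isometry.euclideanHausdorffMeasure_image s

/-! ### the tiles -/

/-- the properties of tiles needed -/
structure Nice (ρ D : ℝ) (T : Set ℂ) : Prop where
  closed : IsClosed T
  null : volume (T \ interior T) = 0
  ball : ∃ x, Metric.ball x ρ ⊆ interior T
  diam : ∀ x ∈ T, ∀ y ∈ T, dist x y ≤ D

theorem Nice.image {ρ D : ℝ} {P : Set ℂ} (h : Nice ρ D P) (g : ℂ ≃ᵢ ℂ) : Nice ρ D (g '' P) := by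
  have hint : interior (g '' P) = g '' interior P := (g.toHomeomorph.image_interior P).symm
  refine ⟨(g.toHomeomorph.isClosed_image).2 h.closed, ?_, ?_, ?_⟩
  · rw [hint, ← image_sdiff g.injective, vol_image]
    exact h.null
  · obtain ⟨x, hx⟩ := h.ball
    refine ⟨g x, ?_⟩
    rw [hint, ← g.image_ball]
    exact image_mono hx
  · rintro _ ⟨x, hx, rfl⟩ _ ⟨y, hy, rfl⟩
    rw [g.dist_eq]
    exact h.diam x hx y hy

theorem nice_of {ρ D H : ℝ} {l u : ℝ → ℝ} (hl : Continuous l) (hu : Continuous u) {P : Set ℂ}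
    (hP : P = {z : ℂ | |z.im| ≤ H ∧ l z.im ≤ z.re ∧ z.re ≤ u z.im})
    (hb : Metric.ball 0 ρ ⊆ P) (hd : P ⊆ Metric.closedBall 0 (D / 2)) : Nice ρ D P := by
  obtain ⟨h1, h2⟩ := region_null hl hu H hP
  refine ⟨h1, h2, ⟨0, interior_maximal hb Metric.isOpen_ball⟩, fun x hx y hy => ?_⟩
  have hx' := Metric.mem_closedBall.1 (hd hx)
  have hy' := Metric.mem_closedBall.1 (hd hy)
  have := dist_triangle_right x y 0
  linarith

theorem nice_prot {d e : ℝ} (c K : ℕ) (hd : 0 < d) (he : 0 < e) : ∃ ρ D : ℝ, 0 < ρ ∧ 0 < D ∧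
    ∀ P ∈ Prot d e c K, Nice ρ D P := by
  have hfa : ∀ s, |fa d e s| ≤ d + e := by
    intro s
    unfold fa
    split_ifs
    · rw [abs_of_pos hd]; linarith
    · rw [abs_neg, abs_of_pos he]; linarith
  have hfb : ∀ s, |fb d e K s| ≤ d + e := by
    intro s
    unfold fb
    split_ifs
    · rw [abs_neg, abs_of_pos hd]; linarith
    · rw [abs_of_pos he]; linarith
  have hW : W d e = 2 * (d + e) + 1 := rfl
  have hnorm : ∀ z : ℂ, ‖z‖ ≤ |z.re| + |z.im| := Complex.norm_le_abs_re_add_abs_im
  have hc0 : (0 : ℝ) ≤ c := Nat.cast_nonneg c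
  have key : ∀ (f : ℤ → ℝ) (h : ℝ), (∀ s, |f s| ≤ d + e) → 1 / 2 ≤ h → h ≤ c + 2 →
      Nice (min (1 / 4) (min (d / 4) (e / 4))) (2 * (3 * (d + e) + c + 4))
        {z : ℂ | |z.im| ≤ h ∧ |z.re| ≤ W d e + prof f z.im} := by
    intro f h hf hh1 hh2
    have hpf : ∀ y, |prof f y| ≤ d + e := fun y => (prof_abs f y).trans (hf _)
    refine nice_of (H := h) (l := fun y => -(W d e + prof f y)) (u := fun y => W d e + prof f y)
      ((continuous_const.add (prof_cont f)).neg) (continuous_const.add (prof_cont f)) ?_ ?_ ?_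
    · ext z
      simp only [mem_ofPred_eq, abs_le]
    · intro z hz
      rw [Metric.mem_ball, dist_zero_right] at hz
      have h1 : ‖z‖ < 1 / 4 := lt_of_lt_of_le hz (min_le_left _ _)
      have h2 := abs_le.1 (hpf z.im)
      have h3 := Complex.abs_re_le_norm z
      have h4 := Complex.abs_im_le_norm z
      refine ⟨by linarith, ?_⟩
      rw [hW]; linarith
    · intro z hz
      obtain ⟨h1, h2⟩ := hz
      rw [Metric.mem_closedBall, dist_zero_right]
      have h3 := abs_le.1 (hpf z.im)
      have h4 := hnorm z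
      rw [hW] at h2
      linarith
  refine ⟨min (1 / 4) (min (d / 4) (e / 4)), 2 * (3 * (d + e) + c + 4), by positivity,
    by positivity, ?_⟩
  intro P hP
  rcases hP with rfl | rfl | rfl
  · exact key (fa d e) _ hfa (by linarith) (by linarith)
  · exact key (fb d e K) _ hfb (by linarith) (by linarith)
  · refine nice_of (H := 1 / 2) (l := fun y => -(d * q y)) (u := fun y => e * q y)
      (continuous_const.mul q_cont).neg (continuous_const.mul q_cont) rfl ?_ ?_
    · intro z hz
      rw [Metric.mem_ball, dist_zero_right] at hz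
      have h1 : ‖z‖ < 1 / 4 := lt_of_lt_of_le hz (min_le_left _ _)
      have h1' : ‖z‖ < d / 4 := lt_of_lt_of_le hz ((min_le_right _ _).trans (min_le_left _ _))
      have h1'' : ‖z‖ < e / 4 := lt_of_lt_of_le hz ((min_le_right _ _).trans (min_le_right _ _))
      have h3 := abs_le.1 (Complex.abs_re_le_norm z)
      have h4 := Complex.abs_im_le_norm z
      have h5 : 1 / 4 ≤ q z.im := by
        unfold q
        have h6 : 1 / 2 ≤ max 0 (1 - 2 * |z.im|) := le_max_of_le_right (by linarith)
        nlinarith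
      refine ⟨by linarith, ?_, ?_⟩
      · nlinarith
      · nlinarith
    · intro z hz
      obtain ⟨h1, h2, h3⟩ := hz
      rw [Metric.mem_closedBall, dist_zero_right]
      have h4 := hnorm z
      have h5 := q_nonneg z.im
      have h6 := q_le_one z.im
      have h7 : |z.re| ≤ d + e := by
        rw [abs_le]
        constructor <;> nlinarith
      linarith

/-! ### counting -/

theorem card_bound {ρ D R : ℝ} (hρ : 0 < ρ) (hD : 0 < D) (hR : 0 ≤ R) {F : Set (Set ℂ)}
    (hN : ∀ T ∈ F, Nice ρ D T) (hF : DisjInt F) (S : Finset (Set ℂ))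
    (hS : (S : Set (Set ℂ)) ⊆ {T ∈ F | (T ∩ Metric.closedBall 0 R).Nonempty}) :
    (S.card : ℝ) * ρ ^ 2 ≤ (R + D) ^ 2 := by
  have hx : ∀ T : Set ℂ, ∃ x : ℂ, T ∈ S → Metric.ball x ρ ⊆ interior T := by
    intro T
    by_cases hT : T ∈ S
    · obtain ⟨x, hx⟩ := (hN T (hS hT).1).ball
      exact ⟨x, fun _ => hx⟩
    · exact ⟨0, fun h => absurd h hT⟩
  choose x hx using hx
  have hdisj : Set.PairwiseDisjoint (S : Set (Set ℂ)) (fun T => Metric.ball (x T) ρ) := by
    intro T hT T' hT' hne
    rw [Function.onFun, Set.disjoint_iff_inter_eq_empty]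
    refine subset_eq_empty ?_ (hF T (hS hT).1 T' (hS hT').1 hne)
    exact inter_subset_inter (hx T hT) (hx T' hT')
  have hsub : (⋃ T ∈ S, Metric.ball (x T) ρ) ⊆ Metric.closedBall 0 (R + D) := by
    intro z hz
    simp only [mem_iUnion, exists_prop] at hz
    obtain ⟨T, hT, hz⟩ := hz
    obtain ⟨hTF, w, hwT, hw⟩ := hS hT
    have h1 : z ∈ T := interior_subset (hx T hT hz)
    have h2 := (hN T hTF).diam z h1 w hwT
    rw [Metric.mem_closedBall] at hw ⊢
    have := dist_triangle z w 0
    linarith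
  have h1 := measure_mono (μ := (volume : Measure ℂ)) hsub
  rw [measure_biUnion_finset hdisj (fun T _ => Metric.isOpen_ball.measurableSet)] at h1
  simp only [Complex.volume_ball, Complex.volume_closedBall, Finset.sum_const, nsmul_eq_mul] at h1
  have hpi : (0 : ℝ) < Real.pi := Real.pi_pos
  have h2 := ENNReal.toReal_mono (by finiteness) h1
  simp only [ENNReal.toReal_mul, ENNReal.toReal_natCast, ENNReal.toReal_pow,
    ENNReal.coe_toReal, NNReal.coe_real_pi] at h2
  rw [ENNReal.toReal_ofReal hρ.le, ENNReal.toReal_ofReal (by positivity)] at h2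
  nlinarith

theorem loc_fin {ρ D R : ℝ} (hρ : 0 < ρ) (hD : 0 < D) (hR : 0 ≤ R) {F : Set (Set ℂ)}
    (hN : ∀ T ∈ F, Nice ρ D T) (hF : DisjInt F) :
    {T ∈ F | (T ∩ Metric.closedBall 0 R).Nonempty}.Finite ∧
      ({T ∈ F | (T ∩ Metric.closedBall 0 R).Nonempty}.ncard : ℝ) * ρ ^ 2 ≤ (R + D) ^ 2 := by
  have hfin : {T ∈ F | (T ∩ Metric.closedBall 0 R).Nonempty}.Finite := by
    by_contra hinf
    obtain ⟨n, hn⟩ := exists_nat_gt ((R + D) ^ 2 / ρ ^ 2)
    obtain ⟨S, hS, hcard⟩ := Set.Infinite.exists_subset_card_eq hinf n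
    have h1 := card_bound hρ hD hR hN hF S hS
    rw [hcard, ← le_div_iff₀ (by positivity)] at h1
    linarith
  refine ⟨hfin, ?_⟩
  rw [Set.ncard_eq_toFinset_card _ hfin]
  exact card_bound hρ hD hR hN hF hfin.toFinset (by rw [Set.Finite.coe_toFinset])

/-! ### densities -/

theorem dens_sum {ρ D : ℝ} (hρ : 0 < ρ) (hD : 0 < D) {F : Set (Set ℂ)}
    (hN : ∀ T ∈ F, Nice ρ D T) (hF : DisjInt F) (hcov : ⋃₀ F = univ) (p : ℂ) :
    {T ∈ F | p ∈ T}.Finite ∧ ∀ δ : Set ℂ → ℝ, (∀ T ∈ F, p ∈ T → HasDens T p (δ T)) →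
      ∑ᶠ T ∈ {T ∈ F | p ∈ T}, δ T = 1 := by
  have hG := (loc_fin hρ hD (R := ‖p‖ + 1) (by positivity) hN hF).1
  have hfin : {T ∈ F | p ∈ T}.Finite := by
    refine hG.subset fun T hT => ⟨hT.1, p, hT.2, ?_⟩
    rw [Metric.mem_closedBall, dist_zero_right]; linarith
  refine ⟨hfin, fun δ hδ => ?_⟩
  rw [finsum_mem_eq_finite_toFinset_sum _ hfin]
  set S := hfin.toFinset with hSdef
  have hS : ∀ T, T ∈ S ↔ T ∈ F ∧ p ∈ T := fun T => by rw [hSdef, Set.Finite.mem_toFinset]; rfl
  -- the limit of the sum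
  have hlim : Tendsto (fun r : ℝ => ∑ T ∈ S,
      (volume (T ∩ Metric.ball p r)).toReal / (Real.pi * r ^ 2)) (𝓝[>] 0) (𝓝 (∑ T ∈ S, δ T)) :=
    tendsto_finsetSum _ fun T hT => hδ T ((hS T).1 hT).1 ((hS T).1 hT).2
  -- small radii
  have hsmall : ∀ᶠ r : ℝ in 𝓝[>] 0, ∀ T ∈ {T ∈ F | (T ∩ Metric.closedBall 0 (‖p‖ + 1)).Nonempty},
      p ∉ T → T ∩ Metric.ball p r = ∅ := by
    rw [Set.Finite.eventually_all hG] 
    intro T hT
    by_cases hp : p ∈ T
    · exact Eventually.of_forall fun r h => absurd hp h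
    · obtain ⟨ε, hε, hball⟩ := Metric.isOpen_iff.1 (hN T hT.1).closed.isOpen_compl p hp
      have : ∀ᶠ r : ℝ in 𝓝[>] 0, r < ε := by
        filter_upwards [Ioo_mem_nhdsGT hε] with r hr using hr.2
      filter_upwards [this] with r hr _
      refine subset_eq_empty ?_ rfl
      intro z hz
      exact hball (Metric.ball_subset_ball hr.le hz.2) hz.1
  have hone : ∀ᶠ r : ℝ in 𝓝[>] 0, ∑ T ∈ S,
      (volume (T ∩ Metric.ball p r)).toReal / (Real.pi * r ^ 2) = 1 := by
    filter_upwards [hsmall, Ioo_mem_nhdsGT (zero_lt_one (α := ℝ))] with r hr hr01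
    have hcover : Metric.ball p r = ⋃ T ∈ S, T ∩ Metric.ball p r := by
      ext z
      simp only [mem_iUnion, exists_prop, mem_inter_iff]
      constructor
      · intro hz
        have hzu : z ∈ ⋃₀ F := by rw [hcov]; exact mem_univ z
        obtain ⟨T, hT, hzT⟩ := hzu
        refine ⟨T, ?_, hzT, hz⟩
        rw [hS]
        refine ⟨hT, ?_⟩
        by_contra hp
        have hTG : T ∈ {T ∈ F | (T ∩ Metric.closedBall 0 (‖p‖ + 1)).Nonempty} := by
          refine ⟨hT, z, hzT, ?_⟩
          rw [Metric.mem_closedBall, dist_zero_right]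
          rw [Metric.mem_ball, dist_eq_norm] at hz
          have : ‖z‖ ≤ ‖z - p‖ + ‖p‖ := by
            have := norm_add_le (z - p) p
            rwa [sub_add_cancel] at this
          linarith [hr01.2]
        have := hr T hTG hp
        exact notMem_empty z (this ▸ ⟨hzT, hz⟩)
      · rintro ⟨T, _, _, hz⟩
        exact hz
    have hmeas : volume (Metric.ball p r) = ∑ T ∈ S, volume (T ∩ Metric.ball p r) := by
      conv_lhs => rw [hcover]
      refine measure_biUnion_finset₀ ?_ ?_
      · intro T hT T' hT' hne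
        have hT1 := (hS T).1 hT
        have hT1' := (hS T').1 hT'
        refine measure_mono_null (t := (T \ interior T) ∪ (T' \ interior T')) ?_
          (measure_union_null (hN T hT1.1).null (hN T' hT1'.1).null)
        rintro z ⟨hz, hz'⟩
        by_contra hc
        have h1 : z ∈ interior T := by
          by_contra h
          exact hc (Or.inl ⟨hz.1, h⟩)
        have h2 : z ∈ interior T' := by
          by_contra h
          exact hc (Or.inr ⟨hz'.1, h⟩)
        exact notMem_empty z ((hF T hT1.1 T' hT1'.1 hne) ▸ ⟨h1, h2⟩)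
      · intro T hT
        exact ((hN T ((hS T).1 hT).1).closed.measurableSet.inter
          Metric.isOpen_ball.measurableSet).nullMeasurableSet
    have hreal : ∑ T ∈ S, (volume (T ∩ Metric.ball p r)).toReal = Real.pi * r ^ 2 := by
      rw [← ENNReal.toReal_sum, ← hmeas, Complex.volume_ball]
      · rw [ENNReal.toReal_mul, ENNReal.toReal_pow, ENNReal.toReal_ofReal hr01.1.le,
          ENNReal.coe_toReal, NNReal.coe_real_pi]
        ring
      · intro T _
        exact ne_top_of_le_ne_top (measure_ball_lt_top (μ := volume) (x := p) (r := r)).ne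
          (measure_mono inter_subset_right)
    rw [← Finset.sum_div, hreal]
    have := Real.pi_pos
    have h2 := hr01.1
    exact div_self (by positivity)
  exact tendsto_nhds_unique (hlim.congr' hone) tendsto_const_nhds

theorem stSUM : StSUM := by
  intro d e c K hd he F hF hdisj hcov
  obtain ⟨ρ, D, hρ, hD, hP⟩ := nice_prot c K hd he
  have hN : ∀ T ∈ F, Nice ρ D T := by
    intro T hT
    obtain ⟨P, hPm, g, rfl⟩ := hF T hT
    exact (hP P hPm).image g
  refine ⟨dens_sum hρ hD hN hdisj hcov, ⟨(1 + D) ^ 2 / ρ ^ 2, fun R hR => ?_⟩, D, hD,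
    fun T hT => (hN T hT).diam⟩
  obtain ⟨h1, h2⟩ := loc_fin hρ hD hR hN hdisj
  refine ⟨h1, ?_⟩
  rw [← le_div_iff₀ (by positivity)] at h2
  refine h2.trans ?_
  rw [div_mul_eq_mul_div, ← mul_pow]
  refine div_le_div_of_nonneg_right ?_ (by positivity)
  refine pow_le_pow_left₀ (by positivity) ?_ 2
  nlinarith

end Pool.Agent.R612.SU.SUM
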