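import Pool.Agent.R612.SU.Stm

/-!
# The area of a cone in the unit disk
-/

set_option autoImplicit false

open MeasureTheory Set Filter Topology

namespace Pool.Agent.R612.SU.TH

/-- the cone -/
def Co (s : ℝ) : Set ℂ := {z : ℂ | z.re ≤ -(s * |z.im|)}

/-- the boundary of the cone -/
def Li (s : ℝ) : Set ℂ := {z : ℂ | z.re = -(s * |z.im|)}

theorem mem_Co {s : ℝ} {z : ℂ} : z ∈ Co s ↔ z.re ≤ -(s * |z.im|) := Iff.rfl

theorem mem_Li {s : ℝ} {z : ℂ} : z ∈ Li s ↔ z.re = -(s * |z.im|) := Iff.rfl

theorem Co_meas (s : ℝ) : MeasurableSet (Co s) := by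
  refine (isClosed_le ?_ ?_).measurableSet
  · exact Complex.continuous_re
  · fun_prop

theorem line_null (a b : ℝ) (h : a ≠ 0 ∨ b ≠ 0) : volume {z : ℂ | a * z.re + b * z.im = 0} = 0 := by
  set L : ℂ →ₗ[ℝ] ℝ := a • Complex.reLm + b • Complex.imLm with hL
  have h1 : {z : ℂ | a * z.re + b * z.im = 0} = (LinearMap.ker L : Set ℂ) := by
    ext z
    simp [hL]
  rw [h1]
  refine Measure.addHaar_submodule _ _ ?_
  intro h2
  have h3 : ∀ z : ℂ, L z = 0 := fun z => by
    rw [← LinearMap.mem_ker, h2]
    trivial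
  rcases h with h | h
  · exact h (by simpa [hL] using h3 1)
  · exact h (by simpa [hL] using h3 Complex.I)

theorem Li_null (s : ℝ) : volume (Li s) = 0 := by
  refine measure_mono_null (t := {z : ℂ | 1 * z.re + s * z.im = 0} ∪
    {z : ℂ | 1 * z.re + (-s) * z.im = 0}) ?_ ?_
  · intro z hz
    have hz' : z.re = -(s * |z.im|) := hz
    rcases abs_choice z.im with h | h
    · left
      show 1 * z.re + s * z.im = 0
      rw [hz', h]
      ring
    · right
      show 1 * z.re + (-s) * z.im = 0
      rw [hz', h]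
      ring
  · exact measure_union_null (line_null _ _ (Or.inl one_ne_zero)) (line_null _ _ (Or.inl one_ne_zero))

theorem im_null : volume {z : ℂ | z.im = 0} = 0 := by
  have := line_null 0 1 (Or.inr one_ne_zero)
  simpa using this

/-- the area of the cone in the unit disk -/
noncomputable def ar (s : ℝ) : ℝ := (volume (Co s ∩ Metric.ball 0 1)).toReal

theorem th_eq (s : ℝ) : th s = ar s / Real.pi := rfl

theorem ball_fin : volume (Metric.ball (0 : ℂ) 1) ≠ ⊤ := measure_ball_lt_top.ne

theorem ball_vol : (volume (Metric.ball (0 : ℂ) 1)).toReal = Real.pi := by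
  rw [Complex.volume_ball]
  simp

theorem ar_neg (s : ℝ) : ar (-s) + ar s = Real.pi := by
  -- the mirror
  set m : ℂ ≃ₗᵢ[ℝ] ℂ := Complex.conjLIE.trans (LinearIsometryEquiv.neg ℝ) with hm
  have hmz : ∀ z, m z = -(starRingEnd ℂ) z := fun z => rfl
  have hmre : ∀ z, (m z).re = -z.re := fun z => by rw [hmz]; simp
  have hmim : ∀ z, (m z).im = z.im := fun z => by rw [hmz]; simp
  have h1 : Metric.ball (0 : ℂ) 1 \ (Co (-s) ∩ Metric.ball 0 1) =
      m ⁻¹' ((Co s ∩ Metric.ball 0 1) \ Li s) := by
    ext z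
    rw [mem_preimage, Set.mem_sdiff, Set.mem_sdiff, mem_inter_iff, mem_inter_iff, mem_Co, mem_Co, mem_Li,
      hmre, hmim, mem_ball_zero_iff, mem_ball_zero_iff, m.norm_map]
    constructor
    · rintro ⟨h2, h3⟩
      have h4 : ¬ z.re ≤ -(-s * |z.im|) := fun h => h3 ⟨h, h2⟩
      rw [not_le] at h4
      refine ⟨⟨by linarith, h2⟩, ?_⟩
      intro h5
      linarith
    · rintro ⟨⟨h2, h3⟩, h4⟩
      refine ⟨h3, ?_⟩
      rintro ⟨h5, -⟩
      refine h4 ?_
      linarith
  have h2 : volume (Metric.ball (0 : ℂ) 1 \ (Co (-s) ∩ Metric.ball 0 1)) =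
      volume (Co s ∩ Metric.ball 0 1) := by
    have hmeas : MeasurableSet (Li s) := by
      refine (isClosed_eq ?_ ?_).measurableSet
      · exact Complex.continuous_re
      · fun_prop
    rw [h1, m.measurePreserving.measure_preimage
      (MeasurableSet.diff ((Co_meas s).inter measurableSet_ball) hmeas).nullMeasurableSet,
      measure_sdiff_null (Li_null s)]
  have h3 : volume (Metric.ball (0 : ℂ) 1 \ (Co (-s) ∩ Metric.ball 0 1)) =
      volume (Metric.ball (0 : ℂ) 1) - volume (Co (-s) ∩ Metric.ball 0 1) :=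
    measure_sdiff inter_subset_right ((Co_meas _).inter measurableSet_ball).nullMeasurableSet
      (measure_ne_top_of_subset inter_subset_right ball_fin)
  rw [h2] at h3
  have h4 : ar s = Real.pi - ar (-s) := by
    unfold ar
    rw [h3, ENNReal.toReal_sub_of_le (measure_mono inter_subset_right) ball_fin, ball_vol]
  linarith

theorem ar_int (s : ℝ) : ar s = ∫ z in Metric.ball (0 : ℂ) 1, (Co s).indicator 1 z := by
  rw [integral_indicator_one (Co_meas s), Measure.real, Measure.restrict_apply (Co_meas s)]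
  rfl

theorem ar_cont : Continuous ar := by
  have h1 : ar = fun s => ∫ z in Metric.ball (0 : ℂ) 1, (Co s).indicator (1 : ℂ → ℝ) z := by
    funext s
    exact ar_int s
  rw [h1, continuous_iff_continuousAt]
  intro s
  refine continuousAt_of_dominated (bound := fun _ => 1) ?_ ?_ ?_ ?_
  · exact Eventually.of_forall fun t =>
      ((measurable_one.indicator (Co_meas t)).aestronglyMeasurable)
  · refine Eventually.of_forall fun t => Eventually.of_forall fun z => ?_
    by_cases h : z ∈ Co t
    · rw [indicator_of_mem h]; simp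
    · rw [indicator_of_notMem h]; simp
  · exact integrableOn_const (μ := volume) ball_fin
  · refine ae_restrict_of_ae ?_
    have h2 : ∀ᵐ z : ℂ, z ∉ Li s := measure_eq_zero_iff_ae_notMem.1 (Li_null s)
    filter_upwards [h2] with z hz
    have h3 : z.re ≠ -(s * |z.im|) := hz
    have hc : Continuous fun t : ℝ => -(t * |z.im|) := by fun_prop
    rcases lt_or_gt_of_ne h3 with h | h
    · have h4 : ∀ᶠ t in 𝓝 s, z.re < -(t * |z.im|) := hc.continuousAt.eventually_const_lt h
      refine (continuousAt_const (y := (1 : ℝ))).congr ?_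
      filter_upwards [h4] with t ht
      rw [indicator_of_mem (show z ∈ Co t from ht.le)]
      rfl
    · have h4 : ∀ᶠ t in 𝓝 s, -(t * |z.im|) < z.re := hc.continuousAt.eventually_lt_const h
      refine (continuousAt_const (y := (0 : ℝ))).congr ?_
      filter_upwards [h4] with t ht
      rw [indicator_of_notMem (show z ∉ Co t from not_le.2 ht)]

theorem ar_lim : Tendsto ar atTop (𝓝 0) := by
  have h1 : ar = fun s => ∫ z in Metric.ball (0 : ℂ) 1, (Co s).indicator (1 : ℂ → ℝ) z := by
    funext s
    exact ar_int s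
  have h0 : (0 : ℝ) = ∫ z in Metric.ball (0 : ℂ) 1, (0 : ℝ) := by simp
  rw [h1, h0]
  refine tendsto_integral_filter_of_dominated_convergence (bound := fun _ => 1) ?_ ?_ ?_ ?_
  · exact Eventually.of_forall fun t =>
      ((measurable_one.indicator (Co_meas t)).aestronglyMeasurable)
  · refine Eventually.of_forall fun t => Eventually.of_forall fun z => ?_
    by_cases h : z ∈ Co t
    · rw [indicator_of_mem h]; simp
    · rw [indicator_of_notMem h]; simp
  · exact integrableOn_const (μ := volume) ball_fin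
  · refine ae_restrict_of_ae ?_
    have h2 : ∀ᵐ z : ℂ, z ∉ {z : ℂ | z.im = 0} := measure_eq_zero_iff_ae_notMem.1 im_null
    filter_upwards [h2] with z hz
    have h3 : 0 < |z.im| := abs_pos.2 hz
    refine (tendsto_const_nhds (x := (0 : ℝ))).congr' ?_
    filter_upwards [eventually_gt_atTop (-z.re / |z.im|)] with t ht
    rw [indicator_of_notMem]
    show ¬ z.re ≤ -(t * |z.im|)
    rw [div_lt_iff₀ h3] at ht
    intro h
    linarith

theorem th_zero : th 0 = 1 / 2 := by
  have h := ar_neg 0
  rw [neg_zero] at h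
  rw [th_eq]
  have := Real.pi_pos
  field_simp
  linarith

theorem th_surj (v : ℝ) (h0 : 0 < v) (h1 : v < 1 / 2) : ∃ s, 0 < s ∧ th s = v := by
  have hc : Continuous th := by
    have : th = fun s => ar s / Real.pi := funext th_eq
    rw [this]
    exact ar_cont.div_const _
  have hl : Tendsto th atTop (𝓝 0) := by
    have : th = fun s => ar s / Real.pi := funext th_eq
    rw [this]
    simpa using ar_lim.div_const Real.pi
  obtain ⟨S, hS1, hS2⟩ := ((hl.eventually_lt_const h0).and (eventually_ge_atTop 0)).exists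
  obtain ⟨s, hs, hsv⟩ := intermediate_value_Icc' hS2 hc.continuousOn
    (show v ∈ Icc (th S) (th 0) from ⟨hS1.le, by rw [th_zero]; exact h1.le⟩)
  refine ⟨s, ?_, hsv⟩
  rcases hs.1.eq_or_lt with h | h
  · rw [← h, th_zero] at hsv
    linarith
  · exact h

theorem stTH : StTH := by
  refine ⟨fun s => ?_, ?_⟩
  · have h := ar_neg s
    rw [th_eq, th_eq]
    have := Real.pi_pos
    field_simp
    linarith
  · obtain ⟨s, hs, hs'⟩ := th_surj (5 / 33) (by norm_num) (by norm_num)
    obtain ⟨t, ht, ht'⟩ := th_surj (5 / 22) (by norm_num) (by norm_num)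
    refine ⟨s / 4, t / 4, by positivity, by positivity, ?_, ?_⟩
    · rw [mul_div_cancel₀ s (by norm_num : (4 : ℝ) ≠ 0)]
      exact hs'
    · rw [mul_div_cancel₀ t (by norm_num : (4 : ℝ) ≠ 0)]
      exact ht'

end Pool.Agent.R612.SU.TH
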