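import Pool.Agent.R612.SU.Geo

/-!
# PIECE UN: the union of the patch
-/

open MeasureTheory Set Filter Topology

namespace Pool.Agent.R612.SU.UN

open Pool.Agent.R612.SU Pool.Agent.R612.SU.Geo

theorem cover (w a b x : ℝ) (I : ℕ) (hw : 0 < w) (ha : |a| < w) (hb : |b| < w)
    (hx : |x| ≤ w * (4 * I + 3) + a) :
    ∃ i : ℤ, (Odd i ∧ |i| ≤ 2 * I + 1 ∧ |x - 2 * w * i| ≤ w + a) ∨
      (Even i ∧ |i| ≤ 2 * I ∧ (|x - 2 * w * i| ≤ w + b ∨
        (b ≤ x - 2 * w * i - w ∧ x - 2 * w * i - w ≤ -a) ∨
        (b ≤ 2 * w * i - w - x ∧ 2 * w * i - w - x ≤ -a))) := by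
  obtain ⟨k, hk⟩ : ∃ k : ℤ, k = round (x / (2 * w)) := ⟨_, rfl⟩
  have h1 : |x - 2 * w * k| ≤ w := by
    have h2 := abs_sub_round (x / (2 * w))
    rw [← hk] at h2
    have h3 : x - 2 * w * k = (x / (2 * w) - k) * (2 * w) := by
      field_simp
    rw [h3, abs_mul, abs_of_pos (by linarith : 0 < 2 * w)]
    nlinarith
  rw [abs_le] at hx h1
  rw [abs_lt] at ha hb
  by_cases h2 : k ≤ 2 * I + 1
  · by_cases h3 : -(2 * I + 1 : ℤ) ≤ k
    · rcases Int.even_or_odd k with h4 | h4
      · -- even
        have h5 : |k| ≤ 2 * I := by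
          obtain ⟨n, hn⟩ := h4
          rw [abs_le]
          constructor <;> omega
        by_cases h6 : |x - 2 * w * k| ≤ w + b
        · exact ⟨k, Or.inr ⟨h4, h5, Or.inl h6⟩⟩
        · rw [abs_le, not_and_or] at h6
          rw [abs_le] at h5
          rcases h6 with h6 | h6
          · push Not at h6
            -- x - 2wk < -(w+b)
            by_cases h7 : 2 * w * k - w - x ≤ -a
            · exact ⟨k, Or.inr ⟨h4, abs_le.2 h5, Or.inr (Or.inr ⟨by linarith, h7⟩)⟩⟩
            · push Not at h7
              refine ⟨k - 1, Or.inl ⟨?_, ?_, ?_⟩⟩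
              · exact h4.sub_odd odd_one
              · rw [abs_le]
                constructor <;> omega
              · push_cast
                rw [abs_le]
                constructor <;> nlinarith [h1.1, h1.2]
          · push Not at h6
            by_cases h7 : x - 2 * w * k - w ≤ -a
            · exact ⟨k, Or.inr ⟨h4, abs_le.2 h5, Or.inr (Or.inl ⟨by linarith, h7⟩)⟩⟩
            · push Not at h7
              refine ⟨k + 1, Or.inl ⟨?_, ?_, ?_⟩⟩
              · exact h4.add_odd odd_one
              · rw [abs_le]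
                constructor <;> omega
              · push_cast
                rw [abs_le]
                constructor <;> nlinarith [h1.1, h1.2]
      · -- odd
        by_cases h6 : |x - 2 * w * k| ≤ w + a
        · exact ⟨k, Or.inl ⟨h4, abs_le.2 ⟨h3, h2⟩, h6⟩⟩
        · rw [abs_le, not_and_or] at h6
          rcases h6 with h6 | h6
          · push Not at h6
            -- left side
            have h8 : -(2 * I : ℤ) ≤ k - 1 := by
              by_contra h9
              push Not at h9
              have h10 : k = -(2 * I + 1) := by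
                obtain ⟨n, hn⟩ := h4
                omega
              rw [h10] at h6
              push_cast at h6
              nlinarith [hx.1]
            have h5 : |k - 1| ≤ 2 * I := by
              rw [abs_le]
              constructor <;> omega
            refine ⟨k - 1, Or.inr ⟨h4.sub_odd odd_one, h5, ?_⟩⟩
            push_cast
            by_cases h7 : x - 2 * w * (k - 1) - w < b
            · left
              rw [abs_le]
              constructor <;> nlinarith [h1.1, h1.2]
            · push Not at h7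
              right
              left
              constructor <;> nlinarith [h1.1, h1.2]
          · push Not at h6
            have h8 : k + 1 ≤ 2 * I := by
              by_contra h9
              push Not at h9
              have h10 : k = 2 * I + 1 := by
                obtain ⟨n, hn⟩ := h4
                omega
              rw [h10] at h6
              push_cast at h6
              nlinarith [hx.2]
            have h5 : |k + 1| ≤ 2 * I := by
              rw [abs_le]
              constructor <;> omega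
            refine ⟨k + 1, Or.inr ⟨h4.add_odd odd_one, h5, ?_⟩⟩
            push_cast
            by_cases h7 : 2 * w * (k + 1) - w - x < b
            · left
              rw [abs_le]
              constructor <;> nlinarith [h1.1, h1.2]
            · push Not at h7
              right
              right
              constructor <;> nlinarith [h1.1, h1.2]
    · push Not at h3
      refine ⟨-(2 * I + 1), Or.inl ⟨?_, ?_, ?_⟩⟩
      · exact Odd.neg ⟨I, rfl⟩
      · rw [abs_neg, abs_of_nonneg (by positivity)]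
      · have h4 : (k : ℝ) ≤ -(2 * I + 2) := by
          have : k ≤ -(2 * I + 2) := by omega
          exact_mod_cast this
        push_cast
        rw [abs_le]
        constructor <;> nlinarith [h1.1, h1.2]
  · push Not at h2
    refine ⟨2 * I + 1, Or.inl ⟨?_, ?_, ?_⟩⟩
    · exact ⟨I, rfl⟩
    · rw [abs_of_nonneg (by positivity)]
    · have h4 : (2 * I + 2 : ℝ) ≤ k := by
        have : 2 * I + 2 ≤ k := by omega
        exact_mod_cast this
      push_cast
      rw [abs_le]
      constructor <;> nlinarith [h1.1, h1.2]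

theorem W_pos {d e : ℝ} (hd : 0 < d) (he : 0 < e) : 0 < W d e := by
  unfold W
  positivity

theorem colA_lt {d e : ℝ} {c : ℕ} (hd : 0 < d) (he : 0 < e) (y : ℝ) : |colA d e c y| < W d e := by
  obtain ⟨h1, h2⟩ := colA_bd (c := c) hd he y
  unfold W
  rw [abs_lt]
  constructor <;> linarith

theorem colB_lt {d e : ℝ} {c K : ℕ} (hd : 0 < d) (he : 0 < e) (y : ℝ) :
    |colB d e c K y| < W d e := by
  obtain ⟨h1, h2⟩ := colB_bd (c := c) (K := K) hd he y
  unfold W
  rw [abs_lt]
  constructor <;> linarith

theorem im_le (j : ℤ) (J : ℕ) (hj : |j| ≤ J) (y N h : ℝ) (hN : 0 ≤ N) (hy : |y - j * N| ≤ h) :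
    |y| ≤ J * N + h := by
  have h1 : |(j : ℝ)| ≤ J := by exact_mod_cast hj
  rw [abs_le] at h1 hy ⊢
  constructor <;> nlinarith [h1.1, h1.2, hy.1, hy.2]

/-- the slots of the fillers -/
theorem fill {d e : ℝ} {c K J : ℕ} (hJ : 2 * J ≤ K) (hK : 2 * K ≤ c) {j s : ℤ} (hj : |j| ≤ J)
    (hs : |s| ≤ K) (hsj : s ≠ -(2 * j)) {y : ℝ} (hy : |y - (j * (2 * c + 3) + s : ℝ)| ≤ 1 / 2) :
    colA d e c y = -e * q (y - (j * (2 * c + 3) + s : ℝ)) ∧
    colB d e c K y = -d * q (y - (j * (2 * c + 3) + s : ℝ)) ∧
    |y| ≤ (2 * J + 1) * (c + 1 / 2) := by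
  have h0 : ((j * (2 * c + 3) + s : ℤ) : ℝ) = (j * (2 * c + 3) + s : ℝ) := by push_cast; ring
  have hJ' : (2 * J : ℤ) ≤ K := by exact_mod_cast hJ
  have hK' : (2 * K : ℤ) ≤ c := by exact_mod_cast hK
  have hJr : (2 * J : ℝ) ≤ K := by exact_mod_cast hJ
  have hKr : (2 * K : ℝ) ≤ c := by exact_mod_cast hK
  have hK0 : (0 : ℤ) ≤ K := by positivity
  have hK0r : (0 : ℝ) ≤ K := by positivity
  refine ⟨?_, ?_, ?_⟩
  · rw [← h0] at hy ⊢
    rw [colA_eq hy]
    congr 1
    unfold Aa
    rw [if_neg]
    intro h1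
    have h2 : (2 * c + 1 : ℤ) ∣ 2 * j + s := by
      have h3 : (2 * c + 1 : ℤ) ∣ (j * (2 * c + 3) + s) - j * (2 * c + 1) :=
        dvd_sub h1 (dvd_mul_left _ _)
      have h4 : (j * (2 * c + 3) + s) - j * (2 * c + 1) = 2 * j + s := by ring
      rwa [h4] at h3
    have h5 : |2 * j + s| < 2 * c + 1 := by
      rw [abs_le] at hj hs
      rw [abs_lt]
      constructor <;> linarith [hj.1, hj.2, hs.1, hs.2]
    have h6 := Int.eq_zero_of_abs_lt_dvd h2 h5
    exact hsj (by linarith)
  · rw [← h0] at hy ⊢
    rw [colB_eq hy]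
    congr 1
    have h1 : (j * (2 * c + 3) + s) - j * (2 * c + 3) = s := by ring
    rw [Bb_row (j := j) (by rw [h1]; linarith), h1]
    unfold fb
    rw [if_pos hs]
  · have h1 : |(j : ℝ)| ≤ J := by exact_mod_cast hj
    have h2 : |(s : ℝ)| ≤ K := by exact_mod_cast hs
    have hc : (0 : ℝ) ≤ 2 * c + 3 := by positivity
    rw [abs_le] at h1 h2 hy ⊢
    constructor <;> nlinarith [h1.1, h1.2, hy.1, hy.2, h2.1, h2.2,
      mul_le_mul_of_nonneg_right h1.1 hc, mul_le_mul_of_nonneg_right h1.2 hc]

/-- PIECE UN -/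
theorem stUN : StUN := by
  intro d e c K I J hd he hJ hK
  have hW := W_pos hd he
  have hW' : W d e = 2 * (d + e) + 1 := rfl
  apply Set.Subset.antisymm
  · rintro z ⟨T, hT, hz⟩
    rcases hT with (hT | hT) | hT
    · obtain ⟨i, j, hi, hi', hj, rfl⟩ := hT
      rw [memA] at hz
      obtain ⟨h1, h2⟩ := hz
      left
      refine ⟨?_, ?_⟩
      · have := im_le j J hj z.im (2 * c + 1) (c + 1 / 2) (by positivity) h1
        linarith
      · have h3 : |(i : ℝ)| ≤ 2 * I + 1 := by exact_mod_cast hi'
        rw [abs_le] at h3 h2 ⊢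
        constructor <;> nlinarith [h3.1, h3.2, h2.1, h2.2]
    · obtain ⟨i, j, hi, hi', hj, rfl⟩ := hT
      rw [memB] at hz
      obtain ⟨h1, h2⟩ := hz
      right
      refine ⟨?_, i, hi', hi, h2⟩
      have := im_le j J hj z.im (2 * c + 3) (c + 3 / 2) (by positivity) h1
      linarith
    · obtain ⟨i, j, s, hi, hi', hj, hs, hsj, hT⟩ := hT
      have h3 : |(i : ℝ)| ≤ 2 * I := by exact_mod_cast hi'
      left
      rcases hT with rfl | rfl
      · rw [memF] at hz
        obtain ⟨h1, h2, h4⟩ := hz
        obtain ⟨h5, h6, h7⟩ := fill (d := d) (e := e) hJ hK hj hs hsj h1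
        refine ⟨h7, ?_⟩
        rw [h5]
        have h8 := q_nonneg (z.im - (j * (2 * c + 3) + s : ℝ))
        have h9 := q_le_one (z.im - (j * (2 * c + 3) + s : ℝ))
        rw [abs_le] at h3 ⊢
        constructor <;> nlinarith [h3.1, h3.2, mul_le_mul_of_nonneg_left h9 hd.le, mul_le_mul_of_nonneg_left h9 he.le,
          mul_le_mul_of_nonneg_left h3.1 hW.le, mul_le_mul_of_nonneg_left h3.2 hW.le]
      · rw [memF'] at hz
        obtain ⟨h1, h2, h4⟩ := hz
        obtain ⟨h5, h6, h7⟩ := fill (d := d) (e := e) hJ hK hj hs hsj h1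
        refine ⟨h7, ?_⟩
        rw [h5]
        have h8 := q_nonneg (z.im - (j * (2 * c + 3) + s : ℝ))
        have h9 := q_le_one (z.im - (j * (2 * c + 3) + s : ℝ))
        rw [abs_le] at h3 ⊢
        constructor <;> nlinarith [h3.1, h3.2, mul_le_mul_of_nonneg_left h9 hd.le, mul_le_mul_of_nonneg_left h9 he.le,
          mul_le_mul_of_nonneg_left h3.1 hW.le, mul_le_mul_of_nonneg_left h3.2 hW.le]
  · rintro z (⟨h1, h2⟩ | ⟨h1, i, hi', hi, h2⟩)
    · -- the slot
      obtain ⟨s, hs, hs'⟩ := ex_slot z.im 0 (J * (2 * c + 1) + c) (by positivity) (by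
        push_cast
        rw [sub_zero]
        linarith)
      rw [sub_zero] at hs'
      obtain ⟨j, hj, hj'⟩ := ex_row s J c hs'
      obtain ⟨j2, hj2, hj2'⟩ := ex_row s J (c + 1) (by
        push_cast
        have : (0 : ℤ) ≤ J := by positivity
        nlinarith)
      have hj2'' : |s - j2 * (2 * c + 3)| ≤ c + 1 := by
        push_cast at hj2'
        rw [show (2 * ((c : ℤ) + 1) + 1) = 2 * c + 3 by ring] at hj2'
        exact hj2'
      have hyA : |z.im - j * (2 * c + 1)| ≤ c + 1 / 2 := by
        have h3 : |(s : ℝ) - j * (2 * c + 1)| ≤ c := by exact_mod_cast hj'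
        rw [abs_le] at hs h3 ⊢
        constructor <;> linarith [h3.1, h3.2, hs.1, hs.2]
      have hyB : |z.im - j2 * (2 * c + 3)| ≤ c + 3 / 2 := by
        have h3 : |(s : ℝ) - j2 * (2 * c + 3)| ≤ c + 1 := by exact_mod_cast hj2''
        rw [abs_le] at hs h3 ⊢
        constructor <;> linarith [h3.1, h3.2, hs.1, hs.2]
      obtain ⟨i, hi⟩ := cover (W d e) (colA d e c z.im) (colB d e c K z.im) z.re I hW
        (colA_lt hd he _) (colB_lt hd he _) h2
      rcases hi with ⟨hi1, hi2, hi3⟩ | ⟨hi1, hi2, hi3⟩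
      · exact ⟨_, Or.inl (Or.inl ⟨i, j, hi1, hi2, hj, rfl⟩), (memA i j z).2 ⟨hyA, hi3⟩⟩
      · rcases hi3 with hi3 | hi3
        · exact ⟨_, Or.inl (Or.inr ⟨i, j2, hi1, hi2, hj2, rfl⟩), (memB i j2 z).2 ⟨hyB, hi3⟩⟩
        · have hA := colA_eq (d := d) (e := e) (c := c) hs
          have hB := colB_eq (d := d) (e := e) (c := c) (K := K) hs
          have hq := q_nonneg (z.im - s)
          rcases key (d := d) (e := e) hJ hK hs' with ⟨ha, hb⟩ | ⟨ha, hb⟩ | ⟨ha, hb⟩
          · refine ⟨_, Or.inl (Or.inr ⟨i, j2, hi1, hi2, hj2, rfl⟩), (memB i j2 z).2 ⟨hyB, ?_⟩⟩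
            have h3 := (abs_lt.1 (colB_lt (c := c) (K := K) hd he z.im)).1
            rw [hA, hB, ha, hb] at hi3
            rw [hB, hb] at h3 ⊢
            rw [abs_le]
            rcases hi3 with ⟨h4, h5⟩ | ⟨h4, h5⟩
            · constructor <;> linarith
            · constructor <;> linarith
          · refine ⟨_, Or.inl (Or.inr ⟨i, j2, hi1, hi2, hj2, rfl⟩), (memB i j2 z).2 ⟨hyB, ?_⟩⟩
            have h3 := (abs_lt.1 (colB_lt (c := c) (K := K) hd he z.im)).1
            rw [hA, hB, ha, hb] at hi3
            rw [hB, hb] at h3 ⊢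
            rw [abs_le]
            rcases hi3 with ⟨h4, h5⟩ | ⟨h4, h5⟩
            · constructor <;> linarith
            · constructor <;> linarith
          · have hsK : |s - j2 * (2 * c + 3)| ≤ K := by
              by_contra h3
              rw [Bb_row hj2''] at hb
              unfold fb at hb
              rw [if_neg h3] at hb
              linarith
            have hne : s - j2 * (2 * c + 3) ≠ -(2 * j2) := by
              intro h3
              have h4 : (2 * c + 1 : ℤ) ∣ s := ⟨j2, by linarith⟩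
              unfold Aa at ha
              rw [if_pos h4] at ha
              linarith
            have hcast : (j2 * (2 * c + 3) + (s - j2 * (2 * c + 3) : ℤ) : ℝ) = s := by
              push_cast
              ring
            rw [hA, hB, ha, hb] at hi3
            rcases hi3 with ⟨h4, h5⟩ | ⟨h4, h5⟩
            · refine ⟨_, Or.inr ⟨i, j2, s - j2 * (2 * c + 3), hi1, hi2, hj2, hsK, hne, Or.inl rfl⟩, ?_⟩
              rw [memF, hcast]
              exact ⟨hs, by linarith, by linarith⟩
            · refine ⟨_, Or.inr ⟨i, j2, s - j2 * (2 * c + 3), hi1, hi2, hj2, hsK, hne, Or.inr rfl⟩, ?_⟩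
              rw [memF', hcast]
              exact ⟨hs, by linarith, by linarith⟩
    · obtain ⟨s, hs, hs'⟩ := ex_slot z.im 0 (J * (2 * c + 3) + (c + 1)) (by positivity) (by
        push_cast
        rw [sub_zero]
        linarith)
      rw [sub_zero] at hs'
      obtain ⟨j2, hj2, hj2'⟩ := ex_row s J (c + 1) (by
        push_cast
        have : (2 * ((c : ℤ) + 1) + 1) = 2 * c + 3 := by ring
        rw [this]
        exact hs')
      have hj2'' : |s - j2 * (2 * c + 3)| ≤ c + 1 := by
        push_cast at hj2'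
        rw [show (2 * ((c : ℤ) + 1) + 1) = 2 * c + 3 by ring] at hj2'
        exact hj2'
      have hyB : |z.im - j2 * (2 * c + 3)| ≤ c + 3 / 2 := by
        have h3 : |(s : ℝ) - j2 * (2 * c + 3)| ≤ c + 1 := by exact_mod_cast hj2''
        rw [abs_le] at hs h3 ⊢
        constructor <;> linarith [h3.1, h3.2, hs.1, hs.2]
      exact ⟨_, Or.inl (Or.inr ⟨i, j2, hi, hi', hj2, rfl⟩), (memB i j2 z).2 ⟨hyB, h2⟩⟩

end Pool.Agent.R612.SU.UN
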